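import Mathlib
import Pool.Agent.CV.Stmts

set_option autoImplicit false

/-!
# CAE: Chen's theorem for all admissible pairs, with an arbitrary small set of forbidden primes

The three final arguments of `ChenAllPairs` (`CH/Fin.lean`, `CU/FinT.lean`, `CV/ZFin.lean`) give a
solution outside an arbitrary set `E` with at most `n / (log n)^C` elements.  This gives the number of
the solutions, and the additional condition that `p_q - q + 1` has few prime factors.
-/

namespace Pool.Agent.CAE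

open Finset Filter Pool.Agent.MT Pool.Agent.CH Pool.Agent.CU Pool.Agent.CV

/-- there is a solution `p ∉ E` for the pair `(m, n)` -/
def SolE (R m n : ℕ) (E : Finset ℕ) : Prop :=
  ∃ p : ℕ, p ∉ E ∧ p.Prime ∧ p < n ∧ 2 ≤ (n - p) / m ∧ Nat.IsAtMostAlmostPrime 2 ((n - p) / m) ∧
    Nat.IsAtMostAlmostPrime R (((n - p) / m) ^ 2 - 2)

/-- [CAE Z] `n^κ ≤ m ≤ n^{1/3+ρ}`.

PROOF = copy of `Pool/Agent/CV/ZFin.lean` (import it and reuse all lemmas that do not change) with the
following changes.  `x = n - m q - r` is the prime.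
* Bad `r`: `eb E m n q = {r < m : lam x ≠ 0 ∧ (¬ x.Prime ∨ x ∈ E)}` in place of `ft_bad m n q`.  It is
  contained in `ft_bad m n q ∪ {r < m : x ∈ E}`; the sum over `q ∈ range (N + 1)` of the second
  cardinalities is `≤ |E|`, since `(q, r) ↦ x` is injective where `0 < x` (copy the proof of
  `ft_card_pp`, or take `0 ∉ E` without loss of generality: `lam 0 = 0`).  So
  `∑ q, |eb| ≤ 3 √n log n + |E|`.
* `zf_ineq`: in `hno` the hypothesis `∃ r, r < m ∧ x.Prime` becomes `∃ r, r < m ∧ x.Prime ∧ x ∉ E`; the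
  proof is the same with `eb` for `ft_bad` (`hW`: if there is no such `r`, all `r` with `lam x ≠ 0` are
  in `eb`; `hB`: a prime `x` is in `G` in any case).  The error `3 (√n log n)` becomes
  `3 (√n log n) + |E|`.
* `zf_good`: `hcon` gets the additional hypothesis `x ∉ E`.
* `thm_ZFin`: the additional error is `(3/2) log n |E| ≤ (3/2) n / (log n)^(C-1)`; with `C = k + 3`
  (`k` from `St_VLow`) it is smaller than half of the main term `κ₀/2 UZ ≥ κ₀ c (m N)/(4 (log n)^k)`,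
  `2 m N ≥ n`, for large `n`. -/
def St_ZFinE : Prop := ∃ ρ : ℝ, 0 < ρ ∧ ∀ κ : ℝ, 0 < κ → ∃ R C : ℕ, ∀ᶠ n : ℕ in atTop, ∀ m N : ℕ,
  Tile N m n → (n : ℝ) ^ κ ≤ m → (m : ℝ) ≤ (n : ℝ) ^ (1 / 3 + ρ) →
  ∀ E : Finset ℕ, (E.card : ℝ) ≤ n / Real.log n ^ C → SolE R m n E

/-- [CAE T] `(log n)^B ≤ m ≤ n^κ`.

PROOF = copy of `Pool/Agent/CU/FinT.lean` (import it and reuse all lemmas that do not change) with the
same changes: `x = n - m q - r` is the prime, `eb E m n q = {r < m : lam x ≠ 0 ∧ (¬ x.Prime ∨ x ∈ E)}`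
in place of `ft_bad m n q`, `∑ q, |eb| ≤ 3 √n log n + |E|` (`(q, r) ↦ x` is injective where `0 < x`),
`hno` in `ft_ineq` only for `q` with a prime `x ∉ E`, `hcon` in `ft_good` with `x ∉ E`, and the
additional error `(3/2) log n |E| ≤ (3/2) n / (log n)^(C-1)` in `ft_core`/`thm_FinT`, which for
`C = k + 3` is at most half of the main term. -/
def St_FinTE : Prop := ∃ (R B C : ℕ) (κ : ℝ), 0 < κ ∧ ∀ᶠ n : ℕ in atTop, ∀ m N : ℕ, Tile N m n →
  Real.log n ^ B ≤ m → (m : ℝ) ≤ (n : ℝ) ^ κ →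
  ∀ E : Finset ℕ, (E.card : ℝ) ≤ n / Real.log n ^ C → SolE R m n E

/-- [CAE C] `m ≤ (log n)^{A₀}`.

PROOF = copy of `Pool/Agent/CH/Fin.lean` (import it and reuse all lemmas that do not change) with the
following changes.  `x = n' - m q` is the prime (`n' = n - r₀`, one fixed `r₀`).  In `fin_ineq` the set
`PP = {q ≤ N : lam x ≠ 0 ∧ ¬ x.Prime}` becomes `{q ≤ N : lam x ≠ 0 ∧ (¬ x.Prime ∨ x ∈ E)}`, with at most
`3 √n' log n' + |E|` elements (`q ↦ x` is injective where `0 < x`); `hno` only for `q` with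
`x.Prime ∧ x ∉ E`; `fin_good`: `hcon` with `x ∉ E`; `fin_core`, `thm_Fin`: the additional error
`(3/2) log n |E| ≤ (3/2) n / (log n)^(C-1)` is at most half of the main term, which is at least
`c' (n / m) / (log n)^k ≥ c' n / (log n)^(k + A₀)`, for `C = k + A₀ + 3` and large `n`.
`2 ≤ (n - p) / m` as in `Pool/Agent/CV/Final.lean`, `final_third` (`q^2 - 2 ≠ 0`). -/
def St_ChenE : Prop := ∃ R : ℕ, ∀ A₀ : ℕ, ∃ C : ℕ, ∀ᶠ n : ℕ in atTop, ∀ m : ℕ, Admissible m n →
  (m : ℝ) ≤ Real.log n ^ A₀ →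
  ∀ E : Finset ℕ, (E.card : ℝ) ≤ n / Real.log n ^ C → SolE R m n E

end Pool.Agent.CAE
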