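import Mathlib
import Pool.Agent.CAE.Stmts

set_option autoImplicit false

/-!
# CAE: statements for the count of the expected order
-/

namespace Pool.Agent.CAE

open Finset Filter Pool.Agent.MT Pool.Agent.CH Pool.Agent.CU Pool.Agent.CV

/-- [CAE R] many admissible `r`.

PROOF.  `r < m`, `n > 2 m + 1`, so `n - r` runs through a complete residue system modulo `m`.
`m` even: coprime to `m` implies odd, so the cardinality is `φ(m)` (`Nat.filter_coprime_Ico_eq_totient`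
after reflection `r ↦ n - r`, the interval is `(n - m, n]`).
`m` odd: the set is in bijection (`n - r = 2 i`) with the `i ∈ (⌊(n-m)/2⌋, ⌊n/2⌋]` coprime to `m` (`2` is
a unit).  This interval has at least `h = (m - 1) / 2` elements; by Moebius inversion
(`[gcd = 1] = ∑_{d ∣ gcd} μ(d)`, a number of multiples of `d` in an interval of length `H` is `H/d + O(1)`)
the number is `≥ φ(m)/m · h - 2^ω(m)` (or `- d(m)`).  For `m ≥ 3` this is `≥ φ(m)/3 - d(m)`, and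
`d(m) ≤ φ(m)/12` for all `m ≥ m₀` (`d(m) ≤ C m^(1/4)`: `GBQ/Div.lean` or `Helper88.MD.Div`;
`φ(m) ≥ c √m`: Mathlib or `φ(m)^2 ≥ m/2`), so it is `≥ φ(m)/4`.  For `m < m₀`: the set is not empty by
`GBQ.thm_Red : GBQ.St_Red`, and `φ(m) ≤ m₀`; take `c = min (1/4) (1/m₀)`. -/
def St_RedM : Prop := ∃ c : ℝ, 0 < c ∧ ∀ m n : ℕ, Admissible m n →
  c * (m.totient : ℝ) ≤
    (((range m).filter (fun r => (n - r).Coprime m ∧ (n - r + m) % 2 = 1)).card : ℝ)

/-- [CAE V], first part: the product of dimension two.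

PROOF.  General lemma: for every `B` there is `c > 0` such that `0 ≤ g l ≤ 1/2`, `g l ≤ 4/l` for all
primes `l` and `∑_{l ≤ z} g l ≤ 2 log log z + B` imply `VV g z ≥ c / (log z)^2` (`z ≥ 2`):
`log (1 - g) ≥ - g - g^2` for `0 ≤ g ≤ 1/2`, `∑ g^2 ≤ 16 ∑ 1/l^2 ≤ 32`.
`g = gT w`: `densT_gT`: `gT w l = (1 + sT w l)/l`, `sT w l ≤ 2` (`densT_le`) and `sT w l = 0` unless
`l = 1, 7 (mod 8)` (`l = 2`: `densT_small`; odd `l`: `ZMod.exists_sq_eq_two_iff`, see `GBQ/LowA.lean` line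
74 or 128), so `gT w l ≤ 1/l + GBQ.g8 l`.  `∑_{l ≤ z} 1/l ≤ log log z + C` (Mertens; in the library, e.g.
from `GBQ.thm_RhoLow`: `∑ 1/l ≤ - log ∏ (1 - 1/l)`), `∑ g8 ≤ log log z + C` is `GBQ.thm_G8 GBQ.thm_M8`
(sum over `W8 0 z`). -/
def St_V2T : Prop := ∃ c : ℝ, 0 < c ∧ ∀ w z : ℕ, 2 ≤ z → c / Real.log z ^ 2 ≤ VV (gT w) z

/-- [CAE V], second part.

PROOF.  As before with `gA` (`CH/Defs.lean`): `(OmA w m n' l).card ≤ 1 + (densR l).card`, and `≤ 2` roots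
only for `l = 1, 7 (mod 8)`, so `gA w m n' l ≤ (1 + ..)/(l - 1) ≤ 1/l + 1/(l (l-1)) + g8 l`;
`0 ≤ gA ≤ 1/2`, `gA ≤ 4/l` from `CH.thm_Dens` (that is why the hypotheses on `m`, `n'` are there). -/
def St_V2A : Prop := ∃ c : ℝ, 0 < c ∧ ∀ w m n' z : ℕ, 2 ≤ z → 1 ≤ m → n'.Coprime m →
  (n' + m) % 2 = 1 → c / Real.log z ^ 2 ≤ VV (gA w m n') z

open Classical in
/-- the `x` for which `p_q - q + 1` has many prime factors, `q = ⌊(n - x)/m⌋ ≥ 2` -/
noncomputable def badOm (m n : ℕ) : Finset ℕ := (range n).filter (fun x => 2 ≤ (n - x) / m ∧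
  8 * Real.log (Real.log n) < (ArithmeticFunction.cardFactors
    (Nat.nth Nat.Prime ((n - x) / m - 1) - (n - x) / m + 1) : ℝ))

/-- [CAE O] few `p` with many prime factors of `p_q - q + 1`.

PROOF.  `N = n / m` (`≥ 2`, otherwise the set is empty).  For each `q` there are at most `m` numbers
`x < n` with `(n - x)/m = q` (`n - x ∈ [m q, m q + m)`), so the cardinality is `≤ m` times the number of
`q ∈ [2, N]` with `T = 8 log log n < Ω(qko_f q)` (`EVN.qko_f q = p_q - q + 1`).  `qko_f` is injective on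
`q ≥ 2` (`EVN.qko_inj`) with values in `[1, pr N]`, so by `EVN.thm_Ome` (`C`)
this number is `≤ C pr(N) (log pr(N))^(9/10) (19/10)^(-T)`; with `L = log n`: `pr N ≤ 60 N (1 + log N) ≤
120 N L`, `log (pr N) ≤ 6 + 2 log N ≤ 3 L` (`EVN.qko_pr`), `(19/10)^(-T) ≤ L^(-5)` (`EVN.qko_z`).
Total `≤ 360 C (m N) L^(1 + 9/10 - 5) ≤ 360 C n L^(-3.1)`.  Model: the proof of `EVN.thm_QKO`. -/
def St_Om8 : Prop := ∀ ε : ℝ, 0 < ε → ∀ᶠ n : ℕ in atTop, ∀ m : ℕ, 1 ≤ m →
  ((badOm m n).card : ℝ) ≤ ε * (n / Real.log n ^ 3)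

end Pool.Agent.CAE
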