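import Mathlib
import Pool.Agent.CAE.Stmts2

set_option autoImplicit false

/-!
# CAE, robust forms with the expected order: statements

For every set `E` of at most `c n / (log n)^3` numbers there is a good prime `p` outside of `E`.
-/

namespace Pool.Agent.CAE.Rob

open Finset Filter Pool.Agent.MT Pool.Agent.CH Pool.Agent.CU Pool.Agent.CV

/-- `m` at most a power of the logarithm -/
def St_CH3 : Prop := ∃ (R : ℕ) (c : ℝ), 0 < c ∧ ∀ A₀ : ℕ, ∀ᶠ n : ℕ in atTop, ∀ m : ℕ,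
  Admissible m n → (m : ℝ) ≤ Real.log n ^ A₀ →
  ∀ E : Finset ℕ, (E.card : ℝ) ≤ c * (n / Real.log n ^ 3) → SolE R m n E

/-- `(log n)^B ≤ m ≤ n^κ` -/
def St_FT3 : Prop := ∃ (R B : ℕ) (κ c : ℝ), 0 < κ ∧ 0 < c ∧ ∀ᶠ n : ℕ in atTop, ∀ m N : ℕ,
  Tile N m n → Real.log n ^ B ≤ m → (m : ℝ) ≤ (n : ℝ) ^ κ →
  ∀ E : Finset ℕ, (E.card : ℝ) ≤ c * (n / Real.log n ^ 3) → SolE R m n E

/-- `n^κ ≤ m ≤ n^(1/3+ρ)` -/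
def St_ZF3 : Prop := ∃ ρ : ℝ, 0 < ρ ∧ ∀ κ : ℝ, 0 < κ → ∃ (R : ℕ) (c : ℝ), 0 < c ∧
  ∀ᶠ n : ℕ in atTop, ∀ m N : ℕ, Tile N m n → (n : ℝ) ^ κ ≤ m →
  (m : ℝ) ≤ (n : ℝ) ^ (1 / 3 + ρ) →
  ∀ E : Finset ℕ, (E.card : ℝ) ≤ c * (n / Real.log n ^ 3) → SolE R m n E

/-- all `m ≤ n^(1/3+ρ)` -/
def St_Third3 : Prop := ∃ (R : ℕ) (c ρ : ℝ), 0 < c ∧ 0 < ρ ∧ ∀ᶠ n : ℕ in atTop, ∀ m : ℕ,
  Admissible m n → (m : ℝ) ≤ (n : ℝ) ^ (1 / 3 + ρ) →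
  ∀ E : Finset ℕ, (E.card : ℝ) ≤ c * (n / Real.log n ^ 3) → SolE R m n E

end Pool.Agent.CAE.Rob
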