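import Mathlib
import Pool.Agent.CH.Fin
import Pool.Agent.CAE.Rob

set_option autoImplicit false

/-!
# CAE, robust forms: Chen's theorem with an exceptional set, small `m`

The final step of CH, robust form: for every small exceptional set of `q` there is a good `q`
outside of it.
-/

namespace Pool.Agent.CAE.Rob

open Finset Filter Pool.Agent.MT Pool.Agent.CH

/-- the inequality between the three sums if there is no good `q` outside of `E` -/
theorem fin_ineqE {η : ℝ → ℝ} (hη : IsWt η) {N m n' w z y : ℕ} (E : Finset ℕ) (hm : 1 ≤ m) (hn : m * N ≤ n')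
    (hz : 1 ≤ z) (hwz : w ≤ z) (hzy : z ≤ y) (hy : 8 * (y + 1) < N)
    (hno : ∀ q ∈ range (N + 1), q ∉ E → (∀ l ∈ pr z, q % l ∉ OmA w m n' l) → η ((q : ℝ) / N) ≠ 0 →
      (n' - m * q).Prime → (∀ p ∈ (pr y).filter (fun p => z < p), ¬ p ^ 2 ∣ q) →
      1 - (1 / 2) * ((((pr y).filter (fun p => z < p)).filter (fun p => p ∣ q)).card : ℝ) -
        (1 / 2) * bt z y q ≤ 0) :
    ∑ q ∈ (range (N + 1)).filter (fun q => ∀ l ∈ pr z, q % l ∉ OmA w m n' l),
        lam (n' - m * q) * η ((q : ℝ) / N) -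
      (1 / 2) * ∑ p ∈ (pr y).filter (fun p => z < p), ∑ q ∈ (range (N + 1)).filter
        (fun q => (∀ l ∈ pr z, q % l ∉ OmA w m n' l) ∧ p ∣ q),
          lam (n' - m * q) * η ((q : ℝ) / N) ≤
      (1 / 2) * (Real.log n' * ∑ q ∈ (range (N + 1)).filter
        (fun q => ∀ l ∈ pr y, q % l ∉ OmB w m n' l), bt z y q * η ((q : ℝ) / N)) +
      (3 / 2) * (Real.log n' * ((N : ℝ) / z + 3 * (Real.sqrt n' * Real.log n')) +
        Real.log n' * E.card) := by
  have hN0 : 0 < N := by omega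
  have hn1 : 1 ≤ n' := by nlinarith
  have hL : 0 ≤ Real.log n' := Real.log_natCast_nonneg n'
  set Q := (range (N + 1)).filter (fun q => ∀ l ∈ pr z, q % l ∉ OmA w m n' l) with hQ
  set f : ℕ → ℝ := fun q => lam (n' - m * q) * η ((q : ℝ) / N) with hf
  set P := (pr y).filter (fun p => z < p) with hP
  set SQ := (Ioc 0 N).filter (fun q => ∃ p ∈ P, p ^ 2 ∣ q) with hSQ
  set PP := (range (N + 1)).filter (fun q => lam (n' - m * q) ≠ 0 ∧ ¬ (n' - m * q).Prime) with hPP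
  rw [fin_double (fun q => ∀ l ∈ pr z, q % l ∉ OmA w m n' l) P f, ← hQ]
  have hmq : ∀ q ∈ range (N + 1), m * q ≤ n' := fun q hq =>
    (Nat.mul_le_mul_left m (Nat.lt_succ_iff.1 (mem_range.1 hq))).trans hn
  have hf0 : ∀ q, 0 ≤ f q := fun q => mul_nonneg (fin_lam_nonneg _) (hη.nonneg _)
  have hfL : ∀ q, f q ≤ Real.log n' := fun q => by
    have h1 := fin_lam_le (Nat.sub_le n' (m * q))
    have h2 := hη.le_one ((q : ℝ) / N)
    have h3 := hη.nonneg ((q : ℝ) / N)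
    have h4 := fin_lam_nonneg (n' - m * q)
    calc f q = lam (n' - m * q) * η ((q : ℝ) / N) := rfl
      _ ≤ Real.log n' * 1 := mul_le_mul h1 h2 h3 hL
      _ = Real.log n' := mul_one _
  have hbig : ∀ q ∈ range (N + 1), η ((q : ℝ) / N) ≠ 0 → y < n' - m * q := by
    intro q hq hq2
    have h1 := (hη.supp _ hq2).2
    have hNr : (0 : ℝ) < N := by exact_mod_cast hN0
    rw [div_lt_iff₀ hNr] at h1
    have h2 : 8 * q < 7 * N := by
      have : (8 : ℝ) * q < 7 * N := by linarith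
      exact_mod_cast this
    have h3 : m * (N - q) ≤ n' - m * q := by
      rw [Nat.mul_sub]
      omega
    have h4 : N - q ≤ m * (N - q) := Nat.le_mul_of_pos_left _ (by omega)
    omega
  -- the weights
  have hW : ∀ q ∈ Q, f q * (1 - (1 / 2) * ((P.filter (fun p => p ∣ q)).card : ℝ) -
      (1 / 2) * bt z y q) ≤ Real.log n' * ((if q ∈ SQ then (1 : ℝ) else 0) +
        (if q ∈ PP then (1 : ℝ) else 0) + (if q ∈ E then (1 : ℝ) else 0)) := by
    intro q hq
    obtain ⟨hq1, hq2⟩ := mem_filter.1 hq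
    have hrhs : 0 ≤ Real.log n' * ((if q ∈ SQ then (1 : ℝ) else 0) +
        (if q ∈ PP then (1 : ℝ) else 0) + (if q ∈ E then (1 : ℝ) else 0)) := by
      apply mul_nonneg hL
      split_ifs <;> norm_num
    have hW1 : (1 - (1 / 2) * ((P.filter (fun p => p ∣ q)).card : ℝ) -
      (1 / 2) * bt z y q) ≤ 1 := by
      have := fin_bt_nonneg z y q
      have h2 : (0 : ℝ) ≤ ((P.filter (fun p => p ∣ q)).card : ℝ) := Nat.cast_nonneg _
      linarith
    have hfull : f q * (1 - (1 / 2) * ((P.filter (fun p => p ∣ q)).card : ℝ) -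
      (1 / 2) * bt z y q) ≤ Real.log n' := by
      calc f q * (1 - (1 / 2) * ((P.filter (fun p => p ∣ q)).card : ℝ) - (1 / 2) * bt z y q)
          ≤ f q * 1 := mul_le_mul_of_nonneg_left hW1 (hf0 q)
        _ ≤ Real.log n' := by rw [mul_one]; exact hfL q
    by_cases h0 : f q = 0
    · rw [h0, zero_mul]
      exact hrhs
    have hη0 : η ((q : ℝ) / N) ≠ 0 := by
      intro h
      apply h0
      simp only [hf, h, mul_zero]
    have hlam0 : lam (n' - m * q) ≠ 0 := by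
      intro h
      apply h0
      simp only [hf, h, zero_mul]
    have hE0 : (0 : ℝ) ≤ (if q ∈ E then (1 : ℝ) else 0) := by split_ifs <;> norm_num
    by_cases h1 : q ∈ SQ
    · refine hfull.trans ?_
      rw [if_pos h1]
      have : (0 : ℝ) ≤ (if q ∈ PP then (1 : ℝ) else 0) := by split_ifs <;> norm_num
      nlinarith
    by_cases h2 : q ∈ PP
    · refine hfull.trans ?_
      rw [if_pos h2, if_neg h1]
      nlinarith
    by_cases hqE : q ∈ E
    · refine hfull.trans ?_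
      rw [if_pos hqE, if_neg h1, if_neg h2]
      linarith
    have hpr : (n' - m * q).Prime := by
      by_contra hcon
      exact h2 (mem_filter.2 ⟨hq1, hlam0, hcon⟩)
    have hqpos : 0 < q := by
      rcases Nat.eq_zero_or_pos q with h | h
      · exfalso
        apply hη0
        rw [h]
        apply wt_zero_of_small η hη
        norm_num
      · exact h
    have hsq : ∀ p ∈ P, ¬ p ^ 2 ∣ q := by
      intro p hp hd
      apply h1
      rw [hSQ, mem_filter, mem_Ioc]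
      exact ⟨⟨hqpos, Nat.lt_succ_iff.1 (mem_range.1 hq1)⟩, p, hp, hd⟩
    have h3 := hno q hq1 hqE hq2 hη0 hpr hsq
    exact (mul_nonpos_of_nonneg_of_nonpos (hf0 q) h3).trans hrhs
  -- the switched part
  have hB : ∀ q ∈ Q, f q * bt z y q ≤ Real.log n' *
      (if ∀ l ∈ pr y, q % l ∉ OmB w m n' l then bt z y q * η ((q : ℝ) / N) else 0) +
      Real.log n' * (if q ∈ PP then (1 : ℝ) else 0) := by
    intro q hq
    obtain ⟨hq1, hq2⟩ := mem_filter.1 hq
    have hb0 := fin_bt_nonneg z y q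
    have hη1 := hη.nonneg ((q : ℝ) / N)
    have hr1 : 0 ≤ Real.log n' *
      (if ∀ l ∈ pr y, q % l ∉ OmB w m n' l then bt z y q * η ((q : ℝ) / N) else 0) := by
      apply mul_nonneg hL
      split_ifs
      · exact mul_nonneg hb0 hη1
      · exact le_refl 0
    have hr2 : 0 ≤ Real.log n' * (if q ∈ PP then (1 : ℝ) else 0) := by
      apply mul_nonneg hL
      split_ifs <;> norm_num
    by_cases h0 : f q = 0
    · rw [h0, zero_mul]
      linarith
    have hη0 : η ((q : ℝ) / N) ≠ 0 := by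
      intro h
      apply h0
      simp only [hf, h, mul_zero]
    have hlam0 : lam (n' - m * q) ≠ 0 := by
      intro h
      apply h0
      simp only [hf, h, zero_mul]
    by_cases h2 : q ∈ PP
    · rw [if_pos h2, mul_one]
      have h3 : f q * bt z y q ≤ Real.log n' * 1 :=
        mul_le_mul (hfL q) (fin_bt_le_one z y q) hb0 hL
      linarith
    have hpr : (n' - m * q).Prime := by
      by_contra hcon
      exact h2 (mem_filter.2 ⟨hq1, hlam0, hcon⟩)
    have hyx := hbig q hq1 hη0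
    rw [if_pos (fin_OmB hwz (hmq q hq1) hpr hyx (by omega) hq2)]
    have h3 : f q * bt z y q ≤ Real.log n' * (bt z y q * η ((q : ℝ) / N)) := by
      have h4 := fin_lam_le (Nat.sub_le n' (m * q))
      calc f q * bt z y q = lam (n' - m * q) * (bt z y q * η ((q : ℝ) / N)) := by
            simp only [hf]
            ring
        _ ≤ Real.log n' * (bt z y q * η ((q : ℝ) / N)) :=
            mul_le_mul_of_nonneg_right h4 (mul_nonneg hb0 hη1)
    linarith
  have hsumSQ : ∑ q ∈ Q, (if q ∈ SQ then (1 : ℝ) else 0) ≤ (N : ℝ) / z := by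
    refine le_trans ?_ (fin_card_sq (N := N) (z := z) (y := y) hz)
    rw [← sum_filter, sum_const, nsmul_eq_mul, mul_one]
    exact_mod_cast card_le_card (fun q hq => (mem_filter.1 hq).2)
  have hsumPP : ∑ q ∈ Q, (if q ∈ PP then (1 : ℝ) else 0) ≤
      3 * (Real.sqrt n' * Real.log n') := by
    refine le_trans ?_ (fin_card_pp hm hn hn1)
    rw [← sum_filter, sum_const, nsmul_eq_mul, mul_one]
    exact_mod_cast card_le_card (fun q hq => (mem_filter.1 hq).2)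
  have hsumE : ∑ q ∈ Q, (if q ∈ E then (1 : ℝ) else 0) ≤ (E.card : ℝ) := by
    rw [← sum_filter, sum_const, nsmul_eq_mul, mul_one]
    exact_mod_cast card_le_card (fun q hq => (mem_filter.1 hq).2)
  have hBsum : ∑ q ∈ Q, (if ∀ l ∈ pr y, q % l ∉ OmB w m n' l then bt z y q * η ((q : ℝ) / N)
      else 0) ≤ ∑ q ∈ (range (N + 1)).filter (fun q => ∀ l ∈ pr y, q % l ∉ OmB w m n' l),
        bt z y q * η ((q : ℝ) / N) := by
    rw [← sum_filter]
    apply sum_le_sum_of_subset_of_nonneg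
    · intro q hq
      obtain ⟨hq1, hq2⟩ := mem_filter.1 hq
      exact mem_filter.2 ⟨(mem_filter.1 hq1).1, hq2⟩
    · intro q _ _
      exact mul_nonneg (fin_bt_nonneg z y q) (hη.nonneg _)
  have hS1 := sum_le_sum hW
  have hS2 := sum_le_sum hB
  rw [← mul_sum, sum_add_distrib, sum_add_distrib] at hS1
  rw [sum_add_distrib, ← mul_sum, ← mul_sum] at hS2
  have hS3 : ∑ q ∈ Q, f q * (1 - (1 / 2) * ((P.filter (fun p => p ∣ q)).card : ℝ) -
      (1 / 2) * bt z y q) = ∑ q ∈ Q, f q -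
        (1 / 2) * ∑ q ∈ Q, f q * ((P.filter (fun p => p ∣ q)).card : ℝ) -
        (1 / 2) * ∑ q ∈ Q, f q * bt z y q := by
    rw [mul_sum, mul_sum, ← sum_sub_distrib, ← sum_sub_distrib]
    apply sum_congr rfl
    intro q _
    ring
  rw [hS3] at hS1
  have hm1 := mul_le_mul_of_nonneg_left hsumSQ hL
  have hm2 := mul_le_mul_of_nonneg_left hsumPP hL
  have hm3 := mul_le_mul_of_nonneg_left hBsum hL
  have hm4 := mul_le_mul_of_nonneg_left hsumE hL
  have hnn4 : 0 ≤ Real.log n' * (E.card : ℝ) := by positivity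
  have hnn : 0 ≤ Real.log n' * ((N : ℝ) / z) := by positivity
  nlinarith [hS1, hS2, hm1, hm2, hm3, hm4, hnn, hnn4]

/-- a `q` outside of `E` of positive weight is good -/
theorem fin_goodE (h2 : St_Wt) {η : ℝ → ℝ} (hη : IsWt η) {N m n' w z y : ℕ} {δ : ℝ} (hm : 1 ≤ m)
    (hmN : m * N ≤ n') (hN100 : 100 ≤ N) (hwz : w ≤ z) (hzy : z ≤ y) (hy8 : 8 * (y + 1) < N)
    (hy3 : N ≤ y ^ 3) (hδ : 0 < δ) (hwδ : (N : ℝ) ^ δ ≤ (w : ℝ) + 1) (hN1 : (1 : ℝ) < N)
    (E : Finset ℕ)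
    (hcon : ∀ q : ℕ, 1 ≤ q → q ≤ N → q ∉ E → (n' - m * q).Prime → Nat.IsAtMostAlmostPrime 2 q →
      ¬ Nat.IsAtMostAlmostPrime ⌈2 / δ⌉₊ (q ^ 2 - 2)) :
    ∀ q ∈ range (N + 1), q ∉ E → (∀ l ∈ pr z, q % l ∉ OmA w m n' l) →
      η ((q : ℝ) / N) ≠ 0 → (n' - m * q).Prime →
      (∀ p ∈ (pr y).filter (fun p => z < p), ¬ p ^ 2 ∣ q) →
      1 - (1 / 2) * ((((pr y).filter (fun p => z < p)).filter
        (fun p => p ∣ q)).card : ℝ) - (1 / 2) * bt z y q ≤ 0 := by
  intro q hq hqE hA hη0 hpr hsq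
  by_contra hW
  have hN0 : (0 : ℝ) < N := by linarith
  have hq1 : q ≤ N := Nat.lt_succ_iff.1 (mem_range.1 hq)
  have hmq : m * q ≤ n' := (Nat.mul_le_mul_left m hq1).trans hmN
  obtain ⟨hs1, hs2⟩ := hη.supp _ hη0
  rw [lt_div_iff₀ hN0] at hs1
  rw [div_lt_iff₀ hN0] at hs2
  have hq2 : 8 * q < 7 * N := by
    have : (8 : ℝ) * q < 7 * N := by linarith
    exact_mod_cast this
  have hq3 : N < 8 * q := by
    have : (N : ℝ) < 8 * q := by linarith
    exact_mod_cast this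
  have hx : y < n' - m * q := by
    have h5 : m * (N - q) ≤ n' - m * q := by
      rw [Nat.mul_sub]
      omega
    have h6 : N - q ≤ m * (N - q) := Nat.le_mul_of_pos_left _ (by omega)
    omega
  have hzx : z < n' - m * q := by omega
  have hr := fin_rough hmq hpr hzx hA
  have hr2 := fin_rough2 hwz hmq hpr hzx (by omega) hA
  have hpz : ∀ p : ℕ, p.Prime → p ∣ q → z < p := by
    intro p hp hd
    by_contra h5
    exact hr p (fin_mem_pr.2 ⟨by omega, hp⟩) hd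
  have hfe : ((pr y).filter (fun p => z < p)).filter (fun p => p ∣ q) =
      (pr y).filter (fun p => p ∣ q) := by
    rw [filter_filter]
    apply filter_congr
    intro p hp
    constructor
    · rintro ⟨-, h5⟩
      exact h5
    · intro h5
      exact ⟨hpz p (fin_mem_pr.1 hp).2 h5, h5⟩
  rw [hfe, not_le] at hW
  have hO := h2 z y q (by omega) (by omega) hpz ?_ hW
  · refine hcon q (by omega) hq1 hqE hpr hO ?_
    have h4q : 4 ≤ q := by omega
    have h5 : 2 < q ^ 2 := by nlinarith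
    have h6 : q ^ 2 - 2 ≤ N ^ 2 := (Nat.sub_le _ _).trans (Nat.pow_le_pow_left hq1 2)
    have h7 : ((q ^ 2 - 2 : ℕ) : ℝ) ≤ (N : ℝ) ^ (2 : ℝ) := by
      rw [Real.rpow_two]
      exact_mod_cast h6
    exact fin_Omega hN1 hδ (by omega) h7 hwδ (Nat.le_ceil _) hr2
  · intro p hp hpy hd
    exact hsq p (mem_filter.2 ⟨fin_mem_pr.2 ⟨hpy, hp⟩, hpz p hp ((dvd_pow_self p
      (by norm_num)).trans hd)⟩) hd

/-- the core with an exceptional set -/
theorem fin_coreE (h0 : ∃ A0 : ℝ, 0 < A0 ∧ St_SA A0 ∧ St_SP A0 ∧ St_SB A0) (h1 : St_cB)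
    (h2 : St_Wt) (h3 : St_V2A) (h4 : St_Dens) : ∃ (R : ℕ) (c₃ : ℝ), 0 < c₃ ∧ ∀ A₀ : ℕ,
    ∀ᶠ N : ℕ in atTop, ∀ m n' : ℕ, Sit N m n' A₀ →
      ∀ E : Finset ℕ, (E.card : ℝ) ≤ c₃ * ((m : ℝ) / m.totient * N / Real.log N ^ 3) →
      ∃ q : ℕ, 1 ≤ q ∧ q ≤ N ∧ q ∉ E ∧ (n' - m * q).Prime ∧
      Nat.IsAtMostAlmostPrime 2 q ∧ Nat.IsAtMostAlmostPrime R (q ^ 2 - 2) := by
  obtain ⟨A0, hA0, hSA, hSP, hSB⟩ := h0
  obtain ⟨η, hη⟩ := exists_wt
  obtain ⟨κ, hκdef⟩ : ∃ κ : ℝ, κ = A0 * (Real.log 3 / 4) - A0 * (Real.log 6 / 4) / 2 -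
    A0 * (cB / 4) / 2 := ⟨_, rfl⟩
  have hκ : 0 < κ := hκdef ▸ fin_kappa hA0 h1
  obtain ⟨ε, hεdef⟩ : ∃ ε : ℝ, ε = min (1 / 10) (κ / (2 * (3 + A0))) := ⟨_, rfl⟩
  have hε : 0 < ε := hεdef ▸ lt_min (by norm_num) (by positivity)
  have hε1 : ε ≤ 1 / 10 := hεdef ▸ min_le_left _ _
  have hε2 : ε * (3 + A0) ≤ κ / 2 := by
    have h5 : ε ≤ κ / (2 * (3 + A0)) := hεdef ▸ min_le_right _ _
    rw [le_div_iff₀ (by positivity)] at h5
    linarith
  obtain ⟨δa, hδa, hSA⟩ := hSA η hη ε hε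
  obtain ⟨δp, hδp, hSP⟩ := hSP η hη ε hε
  obtain ⟨δb, hδb, hSB⟩ := hSB η hη ε hε
  obtain ⟨δ, hδ, hδ1, hδ2, hδ3, hδ4⟩ : ∃ δ : ℝ, 0 < δ ∧ δ ≤ δa ∧ δ ≤ δp ∧ δ ≤ δb ∧
      δ ≤ 1 / 20 := ⟨min (min δa δp) (min δb (1 / 20)),
    lt_min (lt_min hδa hδp) (lt_min hδb (by norm_num)),
    (min_le_left _ _).trans (min_le_left _ _), (min_le_left _ _).trans (min_le_right _ _),
    (min_le_right _ _).trans (min_le_left _ _), (min_le_right _ _).trans (min_le_right _ _)⟩
  obtain ⟨c, hc, hVL⟩ := h3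
  obtain ⟨k, hk⟩ : ∃ k : ℕ, k = 2 := ⟨2, rfl⟩
  refine ⟨⌈2 / δ⌉₊, κ * c / 24, by positivity, fun A₀ => ?_⟩
  filter_upwards [hSA δ hδ hδ1 A₀, hSP δ hδ hδ2 A₀, hSB δ hδ hδ3 A₀, fin_log_pow 2 A₀ hε,
    fin_log_pow 2 0 (show (0 : ℝ) < 1 / 8 by norm_num),
    fin_log_pow 24 0 (show (0 : ℝ) < 2 / 3 by norm_num),
    fin_log_pow (96 / (κ / 2 * c)) (k + 2) (show (0 : ℝ) < 1 / 8 by norm_num),
    fin_log_pow 1 A₀ hδ,
    eventually_ge_atTop 100] with N hSA hSP hSB hE1 hE2 hE3 hE4 hE5 hN100 m n' hSit E hE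
  have hSA := hSA m n' hSit
  have hSP := hSP m n' hSit
  have hSB := hSB m n' hSit
  obtain ⟨hm, hmlog, hcop, hpar, hmN, hmN1⟩ := hSit
  have hNr : (100 : ℝ) ≤ N := by exact_mod_cast hN100
  have hN0 : (0 : ℝ) < N := by linarith
  have hN1 : (1 : ℝ) ≤ N := by linarith
  rw [pow_zero, mul_one] at hE2 hE3
  have hLg : 1 ≤ Real.log N := by
    rw [Real.le_log_iff_exp_le hN0]
    have := Real.exp_one_lt_d9
    linarith
  -- the parameters
  have hz2 : 2 ≤ zN N := by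
    unfold zN
    apply Nat.le_floor
    exact_mod_cast hE2.le
  have hzT : (N : ℝ) ^ (1 / 8 : ℝ) ≤ 2 * (zN N : ℝ) := by
    have h5 : (N : ℝ) ^ (1 / 8 : ℝ) < (zN N : ℝ) + 1 := Nat.lt_floor_add_one _
    have h6 : (2 : ℝ) ≤ zN N := by exact_mod_cast hz2
    linarith
  have hzN : (zN N : ℝ) ≤ (N : ℝ) ^ (1 / 8 : ℝ) := Nat.floor_le (Real.rpow_nonneg hN0.le _)
  have hyge : (N : ℝ) ^ (1 / 3 : ℝ) ≤ yN N := Nat.le_ceil _
  have hylt : (yN N : ℝ) < (N : ℝ) ^ (1 / 3 : ℝ) + 1 := Nat.ceil_lt_add_one (Real.rpow_nonneg hN0.le _)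
  have hT1 : 1 ≤ (N : ℝ) ^ (1 / 3 : ℝ) := Real.one_le_rpow hN1 (by norm_num)
  have hy8 : 8 * (yN N + 1) < N := by
    have h5 : (N : ℝ) ^ (1 / 3 : ℝ) * (N : ℝ) ^ (2 / 3 : ℝ) = N := by
      rw [← Real.rpow_add hN0]
      norm_num
    have h6 : (8 : ℝ) * (yN N + 1) < N := by nlinarith
    exact_mod_cast h6
  have hzy : zN N ≤ yN N := by
    have h5 : (N : ℝ) ^ (1 / 8 : ℝ) ≤ (N : ℝ) ^ (1 / 3 : ℝ) :=
      Real.rpow_le_rpow_of_exponent_le hN1 (by norm_num)
    have h6 : (zN N : ℝ) ≤ yN N := by linarith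
    exact_mod_cast h6
  have hwz : wN δ N ≤ zN N := by
    unfold wN zN
    exact Nat.floor_le_floor (Real.rpow_le_rpow_of_exponent_le hN1 (by linarith))
  have hwδ : (N : ℝ) ^ δ ≤ (wN δ N : ℝ) + 1 := (Nat.lt_floor_add_one _).le
  have hy3 : N ≤ yN N ^ 3 := by
    have h5 : ((N : ℝ) ^ (1 / 3 : ℝ)) ^ 3 = N := by
      rw [← Real.rpow_natCast, ← Real.rpow_mul hN0.le]
      norm_num
    have h6 : ((N : ℝ) ^ (1 / 3 : ℝ)) ^ 3 ≤ (yN N : ℝ) ^ 3 :=
      pow_le_pow_left₀ (by linarith) hyge 3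
    rw [h5] at h6
    exact_mod_cast h6
  -- size of n'
  have hn'1 : 1 ≤ n' := by nlinarith
  have hn'r : (n' : ℝ) ≤ (N : ℝ) ^ (1 + ε) := by
    have h5 : (n' : ℝ) ≤ m * (N + 1) := by exact_mod_cast hmN1.le
    have h6 : (m : ℝ) * (N + 1) ≤ Real.log N ^ A₀ * (2 * N) :=
      mul_le_mul hmlog (by linarith) (by linarith) (by positivity)
    have h7 : Real.log N ^ A₀ * (2 * N) = (2 * Real.log N ^ A₀) * N := by ring
    have h8 : (2 * Real.log N ^ A₀) * N ≤ (N : ℝ) ^ ε * N :=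
      mul_le_mul_of_nonneg_right hE1.le hN0.le
    have h9 : (N : ℝ) ^ (1 + ε) = (N : ℝ) ^ ε * N := by
      rw [add_comm, Real.rpow_add hN0, Real.rpow_one]
    rw [h9]
    linarith
  have hL0 : 0 ≤ Real.log n' := Real.log_natCast_nonneg n'
  have hn'0 : (0 : ℝ) < n' := by exact_mod_cast hn'1
  have hL : Real.log n' ≤ (1 + ε) * Real.log N := by
    rw [← Real.log_rpow hN0]
    exact Real.log_le_log hn'0 hn'r
  have hsn : Real.sqrt n' ≤ (N : ℝ) ^ (7 / 8 : ℝ) := by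
    rw [Real.sqrt_le_left (Real.rpow_nonneg hN0.le _), ← Real.rpow_natCast,
      ← Real.rpow_mul hN0.le]
    refine hn'r.trans (Real.rpow_le_rpow_of_exponent_le hN1 ?_)
    push_cast
    linarith
  -- the unit
  have hI := fin_int hη
  have hφ0 : (0 : ℝ) < m.totient := by exact_mod_cast Nat.totient_pos.2 (by omega)
  have hφm : (m.totient : ℝ) ≤ m := by exact_mod_cast Nat.totient_le m
  have hm0 : (0 : ℝ) < m := by linarith
  have hmφ : 1 ≤ (m : ℝ) / m.totient := by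
    rw [le_div_iff₀ hφ0]
    linarith
  have hmw : m ≤ wN δ N := by
    unfold wN
    apply Nat.le_floor
    rw [one_mul] at hE5
    linarith
  have hV : (m : ℝ) / m.totient * (c / Real.log N ^ k) ≤ VV (gB (wN δ N) m n') (zN N) := by
    have h5 : 0 < Real.log (zN N) := Real.log_pos (by exact_mod_cast hz2)
    have h6 : (zN N : ℝ) ≤ N := hzN.trans (by
      calc (N : ℝ) ^ (1 / 8 : ℝ) ≤ (N : ℝ) ^ (1 : ℝ) :=
            Real.rpow_le_rpow_of_exponent_le hN1 (by norm_num)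
        _ = N := Real.rpow_one _)
    have h7 : Real.log (zN N) ≤ Real.log N :=
      Real.log_le_log (by exact_mod_cast (by omega : 0 < zN N)) h6
    have h8 : c / Real.log N ^ k ≤ VV (gA (wN δ N) m n') (zN N) := by
      rw [hk]
      refine le_trans ?_ (hVL (wN δ N) m n' (zN N) hz2 hm hcop hpar)
      exact div_le_div_of_nonneg_left hc.le (pow_pos h5 2) (pow_le_pow_left₀ h5.le h7 2)
    rw [(h4 (wN δ N) m n' hm hcop hpar).2.2 (zN N) hmw hwz] at h8
    have h9 := mul_le_mul_of_nonneg_left h8 (le_trans zero_le_one hmφ)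
    refine h9.trans (le_of_eq ?_)
    field_simp
  have hcl : 0 ≤ c / Real.log N ^ k := by positivity
  have hUU : (1 / 2) * N * ((m : ℝ) / m.totient * (c / Real.log N ^ k)) ≤ UU η δ N m n' := by
    unfold UU
    apply mul_le_mul _ hV (by positivity) (by positivity)
    exact mul_le_mul_of_nonneg_right hI hN0.le
  have hU : (1 / 2) * N * (c / Real.log N ^ k) ≤ UU η δ N m n' := by
    refine le_trans ?_ hUU
    apply mul_le_mul_of_nonneg_left _ (by positivity)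
    exact le_mul_of_one_le_left hcl hmφ
  have hU0 : 0 ≤ UU η δ N m n' := le_trans (by positivity) hU
  by_contra hcon
  push Not at hcon
  have hno := fin_goodE h2 hη hm hmN (by omega) hwz hzy hy8 hy3 hδ hwδ (by linarith) E hcon
  have hmain := fin_ineqE hη E hm hmN (by omega : 1 ≤ zN N) hwz hzy hy8 hno
  have hSB0 := fin_SB_nonneg hη N (zN N) (yN N) (wN δ N) m n'
  have hcB : cB ≤ 2 / 5 := h1
  have hkey := fin_alg hA0 hκdef hε hε2 hcB (by linarith : 0 < Real.log N) hL hU0 hSB0 hSA hSP hSB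
    hmain hε1
  have hkey2 : κ / 2 / 2 * UU η δ N m n' ≤
      (3 / 2) * (Real.log n' * ((N : ℝ) / zN N + 3 * (Real.sqrt n' * Real.log n'))) := by
    have hLk : 0 < Real.log N ^ k := by positivity
    have h5 : (E.card : ℝ) * Real.log N ^ k * Real.log N ≤ κ * c / 24 * ((m : ℝ) / m.totient * N) := by
      have h6 : (E.card : ℝ) * Real.log N ^ 3 ≤ κ * c / 24 * ((m : ℝ) / m.totient * N) := by
        have h7 : κ * c / 24 * ((m : ℝ) / m.totient * N / Real.log N ^ 3) =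
            κ * c / 24 * ((m : ℝ) / m.totient * N) / Real.log N ^ 3 := by
          ring
        rw [h7, le_div_iff₀ (by positivity)] at hE
        exact hE
      rw [hk]
      refine le_trans (le_of_eq ?_) h6
      ring
    have h7 : Real.log n' ≤ 2 * Real.log N :=
      hL.trans (mul_le_mul_of_nonneg_right (by linarith) (by linarith))
    have h8 : (3 / 2) * (Real.log n' * (E.card : ℝ)) ≤ κ / 2 / 2 * UU η δ N m n' := by
      have h9 : Real.log n' * (E.card : ℝ) ≤ 2 * Real.log N * E.card :=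
        mul_le_mul_of_nonneg_right h7 (Nat.cast_nonneg _)
      have h10 : κ / 2 / 2 * ((1 / 2) * N * ((m : ℝ) / m.totient * (c / Real.log N ^ k))) ≤
          κ / 2 / 2 * UU η δ N m n' :=
        mul_le_mul_of_nonneg_left hUU (by linarith)
      refine le_trans ?_ h10
      have h11 : (3 / 2) * (2 * Real.log N * (E.card : ℝ)) * Real.log N ^ k ≤
          κ / 8 * c * ((m : ℝ) / m.totient * N) := by
        linarith
      have h12 : κ / 2 / 2 * ((1 / 2) * N * ((m : ℝ) / m.totient * (c / Real.log N ^ k))) =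
          κ / 8 * c * ((m : ℝ) / m.totient * N) / Real.log N ^ k := by
        ring
      rw [h12, le_div_iff₀ hLk]
      refine le_trans ?_ h11
      apply mul_le_mul_of_nonneg_right _ hLk.le
      linarith
    linarith
  refine fin_num (k := k) (N := N) (T := (N : ℝ) ^ (1 / 8 : ℝ)) (sq := (N : ℝ) ^ (7 / 8 : ℝ))
    (half_pos hκ) hc hN0 hLg hL0 ?_ (Real.rpow_pos_of_pos hN0 _) hzT ?_ hU (Real.sqrt_nonneg _)
    hsn hE4 hkey2
  · refine hL.trans (mul_le_mul_of_nonneg_right (by linarith) (by linarith))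
  · rw [← Real.rpow_add hN0]
    norm_num

/-- pigeonhole over the residues `r` -/
theorem pigeon {m n : ℕ} (hm : 1 ≤ m) (G E : Finset ℕ) (hG : ∀ r ∈ G, r < m) (hGn : ∀ r ∈ G, r ≤ n)
    (hne : G.Nonempty) : ∃ r ∈ G,
    ((Ioc 0 ((n - r) / m)).filter (fun q => n - r - m * q ∈ E)).card * G.card ≤ E.card := by
  by_contra hcon
  push Not at hcon
  have h1 : ∑ r ∈ G, ((Ioc 0 ((n - r) / m)).filter (fun q => n - r - m * q ∈ E)).card ≤ E.card := by
    rw [← card_sigma]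
    apply card_le_card_of_injOn (fun u : (_ : ℕ) × ℕ => n - u.1 - m * u.2)
    · intro u hu
      obtain ⟨hu1, hu2⟩ := mem_sigma.1 hu
      exact (mem_filter.1 hu2).2
    · intro u hu v hv huv
      obtain ⟨hu1, hu2⟩ := mem_sigma.1 hu
      obtain ⟨hv1, hv2⟩ := mem_sigma.1 hv
      have hu3 := (mem_Ioc.1 (mem_filter.1 hu2).1).2
      have hv3 := (mem_Ioc.1 (mem_filter.1 hv2).1).2
      have hu4 : m * u.2 ≤ n - u.1 := (Nat.mul_le_mul_left m hu3).trans (Nat.mul_div_le _ _)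
      have hv4 : m * v.2 ≤ n - v.1 := (Nat.mul_le_mul_left m hv3).trans (Nat.mul_div_le _ _)
      have hu5 := hGn _ hu1
      have hv5 := hGn _ hv1
      have hu6 := hG _ hu1
      have hv6 := hG _ hv1
      have huv' : n - u.1 - m * u.2 = n - v.1 - m * v.2 := huv
      have h2 : u.1 + m * u.2 = v.1 + m * v.2 := by omega
      have h3 : (u.1 + m * u.2) / m = (v.1 + m * v.2) / m := by rw [h2]
      rw [Nat.add_mul_div_left _ _ (by omega), Nat.add_mul_div_left _ _ (by omega),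
        Nat.div_eq_of_lt hu6, Nat.div_eq_of_lt hv6, zero_add, zero_add] at h3
      have h4 : u.1 = v.1 := by
        rw [h3] at h2
        omega
      obtain ⟨a, b⟩ := u
      obtain ⟨a', b'⟩ := v
      simp only at h3 h4
      subst h3 h4
      rfl
  have h2 : ∑ r ∈ G, E.card < ∑ r ∈ G,
      ((Ioc 0 ((n - r) / m)).filter (fun q => n - r - m * q ∈ E)).card * G.card :=
    sum_lt_sum_of_nonempty hne (fun r hr => hcon r hr)
  rw [← sum_mul, sum_const, smul_eq_mul] at h2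
  have h3 := Nat.mul_le_mul_right G.card h1
  rw [mul_comm] at h2
  omega

/-- small `m`, robust form -/
theorem thm_CH3 (h0 : ∃ A0 : ℝ, 0 < A0 ∧ St_SA A0 ∧ St_SP A0 ∧ St_SB A0) (h1 : St_cB)
    (h2 : St_Wt) (h3 : St_V2A) (h4 : St_Dens) (h5 : St_RedM) : St_CH3 := by
  obtain ⟨R, c₃, hc₃, hR⟩ := fin_coreE h0 h1 h2 h3 h4
  obtain ⟨cR, hcR, hRed⟩ := h5
  refine ⟨R, c₃ * cR / 3, by positivity, fun A₀ => ?_⟩
  obtain ⟨N₀, hN₀⟩ := eventually_atTop.1 (hR (A₀ + 1))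
  filter_upwards [fin_log_pow 2 A₀ (show (0 : ℝ) < 1 / 4 by norm_num),
    fin_log_pow ((N₀ : ℝ) + 6) 0 (show (0 : ℝ) < 1 / 4 by norm_num),
    fin_log_pow (2 * Real.exp (2 ^ A₀)) 0 (show (0 : ℝ) < 1 / 4 by norm_num),
    (Real.tendsto_log_atTop.comp tendsto_natCast_atTop_atTop).eventually_ge_atTop 3,
    eventually_ge_atTop 100] with n hE1 hE2 hE3 hE4 hn100 m hadm hmlog E hE
  have hE4 : (3 : ℝ) ≤ Real.log n := hE4
  rw [pow_zero, mul_one] at hE2 hE3
  have hnr : (100 : ℝ) ≤ n := by exact_mod_cast hn100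
  have hn0 : (0 : ℝ) < n := by linarith
  have hn1 : (1 : ℝ) ≤ n := by linarith
  have hm1 : 1 ≤ m := hadm.1
  have hφ0 : (0 : ℝ) < m.totient := by exact_mod_cast Nat.totient_pos.2 (by omega)
  obtain ⟨G, hGdef⟩ : ∃ G : Finset ℕ,
      G = (range m).filter (fun r => (n - r).Coprime m ∧ (n - r + m) % 2 = 1) := ⟨_, rfl⟩
  have hGc := hRed m n hadm
  rw [← hGdef] at hGc
  have hGpos : 0 < (G.card : ℝ) := lt_of_lt_of_le (by positivity) hGc
  have hGm : ∀ r ∈ G, r < m := fun r hr => by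
    rw [hGdef] at hr
    exact mem_range.1 (mem_filter.1 hr).1
  have hGn : ∀ r ∈ G, r ≤ n := fun r hr => by
    have := hGm r hr
    have := hadm.2.1
    omega
  obtain ⟨r, hrG, hrE⟩ := pigeon hm1 G E hGm hGn (card_pos.1 (by exact_mod_cast hGpos))
  have hrm : r < m := hGm r hrG
  have hrn : r < n := by
    have := hadm.2.1
    omega
  obtain ⟨hcop, hpar⟩ : (n - r).Coprime m ∧ (n - r + m) % 2 = 1 := by
    rw [hGdef] at hrG
    exact (mem_filter.1 hrG).2
  set n' := n - r with hn'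
  set N := n' / m with hN
  have hmN : m * N ≤ n' := Nat.mul_div_le n' m
  have hmN1 : n' < m * (N + 1) := Nat.lt_mul_div_succ n' (by omega)
  -- size of N
  have hmr : (m : ℝ) ≤ (n : ℝ) ^ (1 / 4 : ℝ) := by
    have : 0 ≤ Real.log n ^ A₀ := pow_nonneg (Real.log_natCast_nonneg n) _
    linarith
  have hr0 : (1 : ℝ) ≤ (n : ℝ) ^ (1 / 4 : ℝ) := Real.one_le_rpow hn1 (by norm_num)
  have hnp : (n : ℝ) - m ≤ n' := by
    have h6 : n ≤ n' + m := by omega
    have h7 : (n : ℝ) ≤ n' + m := by exact_mod_cast h6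
    linarith
  have hN2 : (n : ℝ) ≤ m * ((N : ℝ) + 2) := by
    have h6 : (n' : ℝ) < m * ((N : ℝ) + 1) := by exact_mod_cast hmN1
    linarith
  have hsplit : (n : ℝ) = (n : ℝ) ^ (1 / 4 : ℝ) * (n : ℝ) ^ (3 / 4 : ℝ) := by
    rw [← Real.rpow_add hn0]
    norm_num
  have hN3 : (n : ℝ) ^ (3 / 4 : ℝ) ≤ (N : ℝ) + 2 := by
    have h6 : (m : ℝ) * ((N : ℝ) + 2) ≤ (n : ℝ) ^ (1 / 4 : ℝ) * ((N : ℝ) + 2) :=
      mul_le_mul_of_nonneg_right hmr (by positivity)
    have h7 : (n : ℝ) ^ (1 / 4 : ℝ) * (n : ℝ) ^ (3 / 4 : ℝ) ≤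
        (n : ℝ) ^ (1 / 4 : ℝ) * ((N : ℝ) + 2) := by
      rw [← hsplit]
      linarith
    exact le_of_mul_le_mul_left h7 (by linarith)
  have hs34 : (n : ℝ) ^ (3 / 4 : ℝ) = (n : ℝ) ^ (1 / 4 : ℝ) * (n : ℝ) ^ (1 / 2 : ℝ) := by
    rw [← Real.rpow_add hn0]
    norm_num
  have hh0 : (1 : ℝ) ≤ (n : ℝ) ^ (1 / 2 : ℝ) := Real.one_le_rpow hn1 (by norm_num)
  have hNhalf : (n : ℝ) ^ (1 / 2 : ℝ) ≤ N := by
    have hN06 : (6 : ℝ) < (n : ℝ) ^ (1 / 4 : ℝ) := by
      have : (0 : ℝ) ≤ N₀ := Nat.cast_nonneg _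
      linarith
    rw [hs34] at hN3
    nlinarith
  have hNN0 : N₀ ≤ N := by
    have h6 : (N₀ : ℝ) ≤ N := by
      have h7 : (n : ℝ) ^ (1 / 4 : ℝ) ≤ (n : ℝ) ^ (1 / 2 : ℝ) :=
        Real.rpow_le_rpow_of_exponent_le hn1 (by norm_num)
      linarith
    exact_mod_cast h6
  have hlogN : Real.log n ≤ 2 * Real.log N := by
    have h6 : Real.log ((n : ℝ) ^ (1 / 2 : ℝ)) ≤ Real.log N :=
      Real.log_le_log (by linarith) hNhalf
    rw [Real.log_rpow hn0] at h6
    linarith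
  have hlogN2 : (2 : ℝ) ^ A₀ ≤ Real.log N := by
    have h6 : Real.exp (2 ^ A₀) ≤ N := by
      have h7 : (n : ℝ) ^ (1 / 4 : ℝ) ≤ (n : ℝ) ^ (1 / 2 : ℝ) :=
        Real.rpow_le_rpow_of_exponent_le hn1 (by norm_num)
      have h8 : 0 < Real.exp (2 ^ A₀) := Real.exp_pos _
      linarith
    rw [Real.le_log_iff_exp_le (by linarith)]
    exact h6
  have hlog0 : 0 ≤ Real.log n := Real.log_natCast_nonneg n
  have hlogN0 : 0 ≤ Real.log N := Real.log_natCast_nonneg N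
  have hmlogN : (m : ℝ) ≤ Real.log N ^ (A₀ + 1) := by
    calc (m : ℝ) ≤ Real.log n ^ A₀ := hmlog
      _ ≤ (2 * Real.log N) ^ A₀ := pow_le_pow_left₀ hlog0 hlogN A₀
      _ = 2 ^ A₀ * Real.log N ^ A₀ := mul_pow _ _ _
      _ ≤ Real.log N * Real.log N ^ A₀ :=
          mul_le_mul_of_nonneg_right hlogN2 (pow_nonneg hlogN0 _)
      _ = Real.log N ^ (A₀ + 1) := by ring
  -- the exceptional set of `q`
  obtain ⟨F, hF⟩ : ∃ F : Finset ℕ, F = (Ioc 0 N).filter (fun q => n' - m * q ∈ E) := ⟨_, rfl⟩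
  have hFc : (F.card : ℝ) * (cR * m.totient) ≤ E.card := by
    have h6 : (F.card : ℝ) * G.card ≤ E.card := by
      rw [hF]
      exact_mod_cast hrE
    exact (mul_le_mul_of_nonneg_left hGc (Nat.cast_nonneg _)).trans h6
  have hFN : (F.card : ℝ) ≤ c₃ * ((m : ℝ) / m.totient * N / Real.log N ^ 3) := by
    have hN6 : (6 : ℝ) < N := by
      have h6 : (0 : ℝ) ≤ N₀ := Nat.cast_nonneg _
      have h7 : (n : ℝ) ^ (1 / 4 : ℝ) ≤ (n : ℝ) ^ (1 / 2 : ℝ) :=
        Real.rpow_le_rpow_of_exponent_le hn1 (by norm_num)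
      linarith
    have hNpos : (1 : ℝ) ≤ N := by linarith
    have hNn : (N : ℝ) ≤ n := by
      have h6 : N ≤ n := (Nat.div_le_self _ _).trans (by omega)
      exact_mod_cast h6
    have hNone : (1 : ℝ) < N := by linarith
    have hl0 : 0 < Real.log N := Real.log_pos hNone
    have hl1 : Real.log N ≤ Real.log n := Real.log_le_log (by linarith) hNn
    have hm0 : (0 : ℝ) < m := by exact_mod_cast hm1
    have hn2 : (n : ℝ) ≤ 3 * (m * N) := by
      have h6 := mul_le_mul_of_nonneg_left (show (N : ℝ) + 2 ≤ 3 * N by linarith) hm0.le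
      linarith
    have h7 : (n : ℝ) / Real.log n ^ 3 ≤ 3 * (m * N) / Real.log N ^ 3 :=
      div_le_div₀ (by positivity) hn2 (pow_pos hl0 3) (pow_le_pow_left₀ hl0.le hl1 3)
    have h8 := mul_le_mul_of_nonneg_left h7 (show 0 ≤ c₃ * cR / 3 by positivity)
    have h9 : (F.card : ℝ) * (cR * m.totient) ≤ c₃ * cR / 3 * (3 * (m * N) / Real.log N ^ 3) :=
      hFc.trans (hE.trans h8)
    have h10 : c₃ * cR / 3 * (3 * (m * N) / Real.log N ^ 3) =
        c₃ * ((m : ℝ) / m.totient * N / Real.log N ^ 3) * (cR * m.totient) := by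
      field_simp
    rw [h10] at h9
    exact le_of_mul_le_mul_right h9 (by positivity)
  obtain ⟨q, hq1, hqN, hqF, hpr, hO2, hOR⟩ :=
    hN₀ N hNN0 m n' ⟨hm1, hmlogN, hcop, hpar, hmN, hmN1⟩ F hFN
  have hmq : m * q ≤ n' := (Nat.mul_le_mul_left m hqN).trans hmN
  have hmq1 : 1 ≤ m * q := Nat.one_le_iff_ne_zero.2 (Nat.mul_ne_zero (by omega) (by omega))
  have hdiv : (n - (n' - m * q)) / m = q := by
    have h6 : n - (n' - m * q) = r + m * q := by omega
    rw [h6, Nat.add_mul_div_left _ _ (by omega), Nat.div_eq_of_lt hrm, zero_add]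
  refine ⟨n' - m * q, ?_, hpr, by omega, ?_, ?_, ?_⟩
  · intro h
    apply hqF
    rw [hF, mem_filter, mem_Ioc]
    exact ⟨⟨by omega, hqN⟩, h⟩
  · rw [hdiv]
    by_contra hlt
    have h7 : q ^ 2 - 2 = 0 := by
      have h8 : q ^ 2 ≤ 1 ^ 2 := Nat.pow_le_pow_left (by omega) 2
      omega
    exact hOR.1 h7
  · rw [hdiv]
    exact hO2
  · rw [hdiv]
    exact hOR

end Pool.Agent.CAE.Rob
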