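import Mathlib
import Pool.Agent.CU.FinT
import Pool.Agent.CAE.RobC

set_option autoImplicit false

/-!
# CAE, robust forms: the tiles with an exceptional set

Robust form of CU / FinT: for every small set `E` there is a good `p` outside of `E`.
-/

namespace Pool.Agent.CAE.Rob

open Finset Filter Pool.Agent.MT Pool.Agent.CH Pool.Agent.CU

/-- the values of `r` for which `x` is in `E` -/
noncomputable def ft_exc (m n q : ℕ) (E : Finset ℕ) : Finset ℕ := by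
  classical exact (range m).filter (fun r => n - m * q - r ≠ 0 ∧ n - m * q - r ∈ E)

theorem ft_mem_exc {m n q r : ℕ} {E : Finset ℕ} : r ∈ ft_exc m n q E ↔
    r < m ∧ n - m * q - r ≠ 0 ∧ n - m * q - r ∈ E := by
  unfold ft_exc
  rw [mem_filter, mem_range]

/-- number of pairs for which `x` is in `E` -/
theorem ft_card_exc {N m n : ℕ} (E : Finset ℕ) :
    ∑ q ∈ range (N + 1), ((ft_exc m n q E).card : ℝ) ≤ E.card := by
  rw [← Nat.cast_sum, ← card_sigma]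
  norm_cast
  apply card_le_card_of_injOn (fun u : (_ : ℕ) × ℕ => n - m * u.1 - u.2)
  · intro u hu
    obtain ⟨hu1, hu2⟩ := mem_sigma.1 hu
    exact (ft_mem_exc.1 hu2).2.2
  · intro u hu v hv huv
    obtain ⟨hu1, hu2⟩ := mem_sigma.1 hu
    obtain ⟨hr1, hr2, hr3⟩ := ft_mem_exc.1 hu2
    obtain ⟨hv1, hv2⟩ := mem_sigma.1 hv
    obtain ⟨hs1, hs2, hs3⟩ := ft_mem_exc.1 hv2
    have huv' : n - m * u.1 - u.2 = n - m * v.1 - v.2 := huv
    have h1 : u.2 + m * u.1 = v.2 + m * v.1 := by omega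
    have hm : 0 < m := by omega
    have h2 : (u.2 + m * u.1) / m = (v.2 + m * v.1) / m := by rw [h1]
    rw [Nat.add_mul_div_left _ _ hm, Nat.add_mul_div_left _ _ hm, Nat.div_eq_of_lt hr1,
      Nat.div_eq_of_lt hs1, zero_add, zero_add] at h2
    have h3 : u.2 = v.2 := by
      rw [h2] at h1
      omega
    exact Sigma.ext h2 (heq_of_eq h3)

/-- the inequality between the three sums if there is no good pair outside of `E` -/
theorem ft_ineqE {η : ℝ → ℝ} (hη : IsWt η) {N m n w z y : ℕ} (E : Finset ℕ) (hm : 1 ≤ m)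
    (hn : m * N ≤ n)
    (hz : 1 ≤ z) (hwz : w ≤ z) (hzy : z ≤ y) (hy : 8 * (y + 1) < N)
    (hno : ∀ q ∈ range (N + 1), (∀ l ∈ pr z, q % l ∉ OmT w l) → η ((q : ℝ) / N) ≠ 0 →
      (∃ r, r < m ∧ (n - m * q - r).Prime ∧ n - m * q - r ∉ E) →
      (∀ p ∈ (pr y).filter (fun p => z < p), ¬ p ^ 2 ∣ q) →
      1 - (1 / 2) * ((((pr y).filter (fun p => z < p)).filter (fun p => p ∣ q)).card : ℝ) -
        (1 / 2) * bt z y q ≤ 0) :
    SS η w z N m n - (1 / 2) * ∑ p ∈ (pr y).filter (fun p => z < p), SSp η w z p N m n ≤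
      (1 / 2) * (Real.log n * SBT η w z y N m n) +
      (3 / 2) * (Real.log n * (m * ((N : ℝ) / z) + 3 * (Real.sqrt n * Real.log n)) +
        Real.log n * E.card) := by
  have hN0 : 0 < N := by omega
  have hn1 : 1 ≤ n := by nlinarith
  have hL : 0 ≤ Real.log n := Real.log_natCast_nonneg n
  have hNr : (0 : ℝ) < N := by exact_mod_cast hN0
  unfold SS SSp SBT
  set Q := (range (N + 1)).filter (fun q => ∀ l ∈ pr z, q % l ∉ OmT w l) with hQ
  set f : ℕ → ℝ := fun q => tl η N m n q with hf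
  set P := (pr y).filter (fun p => z < p) with hP
  set SQ := (Ioc 0 N).filter (fun q => ∃ p ∈ P, p ^ 2 ∣ q) with hSQ
  rw [fin_double (fun q => ∀ l ∈ pr z, q % l ∉ OmT w l) P f, ← hQ]
  have hlam0 : ∀ x, 0 ≤ lam x := fin_lam_nonneg
  have hlamL : ∀ q r, lam (n - m * q - r) ≤ Real.log n := fun q r =>
    fin_lam_le ((Nat.sub_le _ _).trans (Nat.sub_le _ _))
  have hη0 : ∀ q : ℕ, 0 ≤ η ((q : ℝ) / N) := fun q => hη.nonneg _
  have hη1 : ∀ q : ℕ, η ((q : ℝ) / N) ≤ 1 := fun q => hη.le_one _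
  have hf0 : ∀ q, 0 ≤ f q := fun q =>
    mul_nonneg (hη.nonneg _) (sum_nonneg (fun r _ => hlam0 _))
  have hfL : ∀ q, f q ≤ m * Real.log n := fun q => by
    have h1 : ∑ r ∈ range m, lam (n - m * q - r) ≤ m * Real.log n := by
      calc ∑ r ∈ range m, lam (n - m * q - r) ≤ ∑ _r ∈ range m, Real.log n :=
            sum_le_sum (fun r _ => hlamL q r)
        _ = m * Real.log n := by rw [sum_const, card_range, nsmul_eq_mul]
    have h2 : 0 ≤ ∑ r ∈ range m, lam (n - m * q - r) := sum_nonneg (fun r _ => hlam0 _)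
    calc f q = η ((q : ℝ) / N) * ∑ r ∈ range m, lam (n - m * q - r) := rfl
      _ ≤ 1 * (m * Real.log n) := mul_le_mul (hη1 q) h1 h2 zero_le_one
      _ = m * Real.log n := one_mul _
  -- the weights
  have hW : ∀ q ∈ Q, f q * (1 - (1 / 2) * ((P.filter (fun p => p ∣ q)).card : ℝ) -
      (1 / 2) * bt z y q) ≤ Real.log n * (m * (if q ∈ SQ then (1 : ℝ) else 0) +
        (((ft_bad m n q).card : ℝ) + ((ft_exc m n q E).card : ℝ))) := by
    intro q hq
    obtain ⟨hq1, hq2⟩ := mem_filter.1 hq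
    have hb0 : (0 : ℝ) ≤ ((ft_bad m n q).card : ℝ) + ((ft_exc m n q E).card : ℝ) :=
      add_nonneg (Nat.cast_nonneg _) (Nat.cast_nonneg _)
    have hsq0 : (0 : ℝ) ≤ m * (if q ∈ SQ then (1 : ℝ) else 0) := by
      apply mul_nonneg (Nat.cast_nonneg _)
      split_ifs <;> norm_num
    have hrhs : 0 ≤ Real.log n * (m * (if q ∈ SQ then (1 : ℝ) else 0) +
        (((ft_bad m n q).card : ℝ) + ((ft_exc m n q E).card : ℝ))) :=
      mul_nonneg hL (by linarith)
    have hW1 : (1 - (1 / 2) * ((P.filter (fun p => p ∣ q)).card : ℝ) -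
      (1 / 2) * bt z y q) ≤ 1 := by
      have := fin_bt_nonneg z y q
      have h2 : (0 : ℝ) ≤ ((P.filter (fun p => p ∣ q)).card : ℝ) := Nat.cast_nonneg _
      linarith
    have hfW : f q * (1 - (1 / 2) * ((P.filter (fun p => p ∣ q)).card : ℝ) -
      (1 / 2) * bt z y q) ≤ f q := by
      calc f q * (1 - (1 / 2) * ((P.filter (fun p => p ∣ q)).card : ℝ) - (1 / 2) * bt z y q)
          ≤ f q * 1 := mul_le_mul_of_nonneg_left hW1 (hf0 q)
        _ = f q := mul_one _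
    by_cases h1 : q ∈ SQ
    · refine (hfW.trans (hfL q)).trans ?_
      rw [if_pos h1, mul_one]
      have : 0 ≤ Real.log n * (((ft_bad m n q).card : ℝ) + ((ft_exc m n q E).card : ℝ)) :=
        mul_nonneg hL hb0
      nlinarith
    by_cases h0 : f q = 0
    · rw [h0, zero_mul]
      exact hrhs
    have hηq : η ((q : ℝ) / N) ≠ 0 := by
      intro h
      apply h0
      simp only [hf, tl, h, zero_mul]
    have hqpos : 0 < q := by
      rcases Nat.eq_zero_or_pos q with h | h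
      · exfalso
        apply hηq
        rw [h]
        apply wt_zero_of_small η hη
        norm_num
      · exact h
    have hsq : ∀ p ∈ P, ¬ p ^ 2 ∣ q := by
      intro p hp hd
      apply h1
      rw [hSQ, mem_filter, mem_Ioc]
      exact ⟨⟨hqpos, Nat.lt_succ_iff.1 (mem_range.1 hq1)⟩, p, hp, hd⟩
    by_cases hex : ∃ r, r < m ∧ (n - m * q - r).Prime ∧ n - m * q - r ∉ E
    · exact (mul_nonpos_of_nonneg_of_nonpos (hf0 q) (hno q hq1 hq2 hηq hex hsq)).trans hrhs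
    · refine hfW.trans ?_
      have h2 : ∑ r ∈ range m, lam (n - m * q - r) ≤
          Real.log n * (((ft_bad m n q).card : ℝ) + ((ft_exc m n q E).card : ℝ)) := by
        have hpt : ∀ r ∈ range m, lam (n - m * q - r) ≤ Real.log n *
            ((if r ∈ ft_bad m n q then (1 : ℝ) else 0) +
              (if r ∈ ft_exc m n q E then (1 : ℝ) else 0)) := by
          intro r hr
          have hr1 := mem_range.1 hr
          by_cases hl0 : lam (n - m * q - r) = 0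
          · rw [hl0]
            apply mul_nonneg hL
            split_ifs <;> norm_num
          by_cases hp : (n - m * q - r).Prime
          · have h3 : n - m * q - r ∈ E := by
              by_contra h
              exact hex ⟨r, hr1, hp, h⟩
            have h4 : r ∈ ft_exc m n q E := ft_mem_exc.2 ⟨hr1, hp.ne_zero, h3⟩
            rw [if_pos h4]
            have h5 : (0 : ℝ) ≤ (if r ∈ ft_bad m n q then (1 : ℝ) else 0) := by
              split_ifs <;> norm_num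
            nlinarith [hlamL q r]
          · have h4 : r ∈ ft_bad m n q := ft_mem_bad.2 ⟨hr1, hl0, hp⟩
            rw [if_pos h4]
            have h5 : (0 : ℝ) ≤ (if r ∈ ft_exc m n q E then (1 : ℝ) else 0) := by
              split_ifs <;> norm_num
            nlinarith [hlamL q r]
        refine (sum_le_sum hpt).trans ?_
        rw [← mul_sum, sum_add_distrib, ← sum_filter, ← sum_filter, sum_const, sum_const,
          nsmul_eq_mul, nsmul_eq_mul, mul_one, mul_one]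
        apply mul_le_mul_of_nonneg_left _ hL
        apply add_le_add
        · exact_mod_cast card_le_card (fun r hr => (mem_filter.1 hr).2)
        · exact_mod_cast card_le_card (fun r hr => (mem_filter.1 hr).2)
      have h4 : 0 ≤ ∑ r ∈ range m, lam (n - m * q - r) := sum_nonneg (fun r _ => hlam0 _)
      have h5 : f q ≤ Real.log n * (((ft_bad m n q).card : ℝ) + ((ft_exc m n q E).card : ℝ)) := by
        calc f q = η ((q : ℝ) / N) * ∑ r ∈ range m, lam (n - m * q - r) := rfl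
          _ ≤ 1 * (Real.log n * (((ft_bad m n q).card : ℝ) + ((ft_exc m n q E).card : ℝ))) := mul_le_mul (hη1 q) h2 h4 zero_le_one
          _ = Real.log n * (((ft_bad m n q).card : ℝ) + ((ft_exc m n q E).card : ℝ)) := one_mul _
      rw [if_neg h1, mul_zero, zero_add]
      exact h5
  -- the switched part
  have hB : ∀ q ∈ Q, f q * bt z y q ≤ Real.log n *
      (bt z y q * η ((q : ℝ) / N) * (((range m).filter (fun r => (n - r).Coprime m ∧
        ∀ l ∈ pr y, q % l ∉ OmB w m (n - r) l)).card : ℝ)) +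
      Real.log n * ((ft_bad m n q).card : ℝ) := by
    intro q hq
    obtain ⟨hq1, hq2⟩ := mem_filter.1 hq
    have hb0 := fin_bt_nonneg z y q
    have hb1 := fin_bt_le_one z y q
    set G := (range m).filter (fun r => (n - r).Coprime m ∧
        ∀ l ∈ pr y, q % l ∉ OmB w m (n - r) l) with hG
    have hc0 : (0 : ℝ) ≤ ((ft_bad m n q).card : ℝ) := Nat.cast_nonneg _
    have hg0 : (0 : ℝ) ≤ (G.card : ℝ) := Nat.cast_nonneg _
    by_cases hηq : η ((q : ℝ) / N) = 0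
    · have h1 : f q = 0 := by simp only [hf, tl, hηq, zero_mul]
      rw [h1, zero_mul]
      have h2 : 0 ≤ bt z y q * η ((q : ℝ) / N) * (G.card : ℝ) :=
        mul_nonneg (mul_nonneg hb0 (hη0 q)) hg0
      have := mul_nonneg hL h2
      have := mul_nonneg hL hc0
      linarith
    have h8 : 8 * q < 7 * N := by
      have h1 := (hη.supp _ hηq).2
      rw [div_lt_iff₀ hNr] at h1
      have : (8 : ℝ) * q < 7 * N := by linarith
      exact_mod_cast this
    have hpt : ∀ r ∈ range m, lam (n - m * q - r) ≤ Real.log n *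
        ((if r ∈ G then (1 : ℝ) else 0) + (if r ∈ ft_bad m n q then (1 : ℝ) else 0)) := by
      intro r hr
      have hr1 := mem_range.1 hr
      by_cases hl0 : lam (n - m * q - r) = 0
      · rw [hl0]
        apply mul_nonneg hL
        split_ifs <;> norm_num
      by_cases hp : (n - m * q - r).Prime
      · obtain ⟨h1, h2, h3⟩ := ft_big hm hn hr1 h8 hy
        have h4 : r ∈ G := by
          rw [hG, mem_filter]
          exact ⟨hr, ft_OmB (by omega) hwz h1 hp h2 h3 hq2⟩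
        rw [if_pos h4]
        have h5 : (0 : ℝ) ≤ (if r ∈ ft_bad m n q then (1 : ℝ) else 0) := by
          split_ifs <;> norm_num
        nlinarith [hlamL q r]
      · have h4 : r ∈ ft_bad m n q := ft_mem_bad.2 ⟨hr1, hl0, hp⟩
        rw [if_pos h4]
        have h5 : (0 : ℝ) ≤ (if r ∈ G then (1 : ℝ) else 0) := by
          split_ifs <;> norm_num
        nlinarith [hlamL q r]
    have hsum : ∑ r ∈ range m, lam (n - m * q - r) ≤
        Real.log n * ((G.card : ℝ) + ((ft_bad m n q).card : ℝ)) := by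
      refine (sum_le_sum hpt).trans ?_
      rw [← mul_sum, sum_add_distrib, ← sum_filter, ← sum_filter, sum_const, sum_const,
        nsmul_eq_mul, nsmul_eq_mul, mul_one, mul_one]
      apply mul_le_mul_of_nonneg_left _ hL
      apply add_le_add
      · exact_mod_cast card_le_card (fun r hr => (mem_filter.1 hr).2)
      · exact_mod_cast card_le_card (fun r hr => (mem_filter.1 hr).2)
    have hbη : 0 ≤ bt z y q * η ((q : ℝ) / N) := mul_nonneg hb0 (hη0 q)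
    have hbη1 : bt z y q * η ((q : ℝ) / N) ≤ 1 := mul_le_one₀ hb1 (hη0 q) (hη1 q)
    calc f q * bt z y q = (bt z y q * η ((q : ℝ) / N)) * ∑ r ∈ range m, lam (n - m * q - r) := by
          simp only [hf, tl]
          ring
      _ ≤ (bt z y q * η ((q : ℝ) / N)) *
          (Real.log n * ((G.card : ℝ) + ((ft_bad m n q).card : ℝ))) :=
          mul_le_mul_of_nonneg_left hsum hbη
      _ = Real.log n * (bt z y q * η ((q : ℝ) / N) * (G.card : ℝ)) +
          (bt z y q * η ((q : ℝ) / N)) * (Real.log n * ((ft_bad m n q).card : ℝ)) := by ring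
      _ ≤ Real.log n * (bt z y q * η ((q : ℝ) / N) * (G.card : ℝ)) +
          1 * (Real.log n * ((ft_bad m n q).card : ℝ)) :=
          add_le_add le_rfl (mul_le_mul_of_nonneg_right hbη1 (mul_nonneg hL hc0))
      _ = _ := by rw [one_mul]
  have hsumSQ : ∑ q ∈ Q, (m : ℝ) * (if q ∈ SQ then (1 : ℝ) else 0) ≤ m * ((N : ℝ) / z) := by
    rw [← mul_sum]
    apply mul_le_mul_of_nonneg_left _ (Nat.cast_nonneg _)
    refine le_trans ?_ (fin_card_sq (N := N) (z := z) (y := y) hz)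
    rw [← sum_filter, sum_const, nsmul_eq_mul, mul_one]
    exact_mod_cast card_le_card (fun q hq => (mem_filter.1 hq).2)
  have hsumPP : ∑ q ∈ Q, ((ft_bad m n q).card : ℝ) ≤ 3 * (Real.sqrt n * Real.log n) := by
    refine le_trans ?_ (ft_card_pp (N := N) (m := m) hn1)
    apply sum_le_sum_of_subset_of_nonneg (filter_subset _ _)
    intro q _ _
    exact Nat.cast_nonneg _
  have hsumE : ∑ q ∈ Q, ((ft_exc m n q E).card : ℝ) ≤ (E.card : ℝ) := by
    refine le_trans ?_ (ft_card_exc (N := N) (m := m) (n := n) E)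
    apply sum_le_sum_of_subset_of_nonneg (filter_subset _ _)
    intro q _ _
    exact Nat.cast_nonneg _
  have hBsum : ∑ q ∈ Q, (bt z y q * η ((q : ℝ) / N) * (((range m).filter (fun r =>
      (n - r).Coprime m ∧ ∀ l ∈ pr y, q % l ∉ OmB w m (n - r) l)).card : ℝ)) ≤
      ∑ q ∈ range (N + 1), bt z y q * η ((q : ℝ) / N) * (((range m).filter (fun r =>
      (n - r).Coprime m ∧ ∀ l ∈ pr y, q % l ∉ OmB w m (n - r) l)).card : ℝ) := by
    apply sum_le_sum_of_subset_of_nonneg (filter_subset _ _)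
    intro q _ _
    exact mul_nonneg (mul_nonneg (fin_bt_nonneg z y q) (hη.nonneg _)) (Nat.cast_nonneg _)
  have hS1 := sum_le_sum hW
  have hS2 := sum_le_sum hB
  rw [← mul_sum, sum_add_distrib, sum_add_distrib] at hS1
  rw [sum_add_distrib, ← mul_sum, ← mul_sum] at hS2
  have hS3 : ∑ q ∈ Q, f q * (1 - (1 / 2) * ((P.filter (fun p => p ∣ q)).card : ℝ) -
      (1 / 2) * bt z y q) = ∑ q ∈ Q, f q -
        (1 / 2) * ∑ q ∈ Q, f q * ((P.filter (fun p => p ∣ q)).card : ℝ) -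
        (1 / 2) * ∑ q ∈ Q, f q * bt z y q := by
    rw [mul_sum, mul_sum, ← sum_sub_distrib, ← sum_sub_distrib]
    apply sum_congr rfl
    intro q _
    ring
  rw [hS3] at hS1
  have hm1 := mul_le_mul_of_nonneg_left hsumSQ hL
  have hm2 := mul_le_mul_of_nonneg_left hsumPP hL
  have hm3 := mul_le_mul_of_nonneg_left hBsum hL
  have hm4 := mul_le_mul_of_nonneg_left hsumE hL
  have hnn : 0 ≤ Real.log n * (m * ((N : ℝ) / z)) := by positivity
  have hnn4 : 0 ≤ Real.log n * (E.card : ℝ) := mul_nonneg hL (Nat.cast_nonneg _)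
  rw [mul_add, mul_add] at hS1
  rw [mul_add (Real.log n)]
  linarith [hS1, hS2, hm1, hm2, hm3, hm4, hnn, hnn4]

/-- a `q` of positive weight is good -/
theorem ft_goodE (h2 : St_Wt) {η : ℝ → ℝ} (hη : IsWt η) {N m n w z y : ℕ} {δ : ℝ}
    (hN100 : 100 ≤ N) (hwz : w ≤ z) (hy3 : N ≤ y ^ 3) (hδ : 0 < δ)
    (hwδ : (N : ℝ) ^ δ ≤ (w : ℝ) + 1) (hN1 : (1 : ℝ) < N)
    (E : Finset ℕ)
    (hcon : ∀ q r : ℕ, 2 ≤ q → q ≤ N → r < m → n - m * q - r ∉ E → (n - m * q - r).Prime →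
      Nat.IsAtMostAlmostPrime 2 q → ¬ Nat.IsAtMostAlmostPrime ⌈2 / δ⌉₊ (q ^ 2 - 2)) :
    ∀ q ∈ range (N + 1), (∀ l ∈ pr z, q % l ∉ OmT w l) →
      η ((q : ℝ) / N) ≠ 0 → (∃ r, r < m ∧ (n - m * q - r).Prime ∧ n - m * q - r ∉ E) →
      (∀ p ∈ (pr y).filter (fun p => z < p), ¬ p ^ 2 ∣ q) →
      1 - (1 / 2) * ((((pr y).filter (fun p => z < p)).filter
        (fun p => p ∣ q)).card : ℝ) - (1 / 2) * bt z y q ≤ 0 := by
  rintro q hq hA hη0 ⟨r, hrm, hpr, hrE⟩ hsq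
  by_contra hW
  have hN0 : (0 : ℝ) < N := by linarith
  have hq1 : q ≤ N := Nat.lt_succ_iff.1 (mem_range.1 hq)
  obtain ⟨hs1, hs2⟩ := hη.supp _ hη0
  rw [lt_div_iff₀ hN0] at hs1
  rw [div_lt_iff₀ hN0] at hs2
  have hq2 : 8 * q < 7 * N := by
    have : (8 : ℝ) * q < 7 * N := by linarith
    exact_mod_cast this
  have hq3 : N < 8 * q := by
    have : (N : ℝ) < 8 * q := by linarith
    exact_mod_cast this
  have hr := ft_rough hA
  have hr2 := ft_rough2 hwz (by omega) hA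
  have hpz : ∀ p : ℕ, p.Prime → p ∣ q → z < p := by
    intro p hp hd
    by_contra h5
    exact hr p (fin_mem_pr.2 ⟨by omega, hp⟩) hd
  have hfe : ((pr y).filter (fun p => z < p)).filter (fun p => p ∣ q) =
      (pr y).filter (fun p => p ∣ q) := by
    rw [filter_filter]
    apply filter_congr
    intro p hp
    constructor
    · rintro ⟨-, h5⟩
      exact h5
    · intro h5
      exact ⟨hpz p (fin_mem_pr.1 hp).2 h5, h5⟩
  rw [hfe, not_le] at hW
  have hO := h2 z y q (by omega) (by omega) hpz ?_ hW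
  · refine hcon q r (by omega) hq1 hrm hrE hpr hO ?_
    have h4q : 4 ≤ q := by omega
    have h5 : 2 < q ^ 2 := by nlinarith
    have h6 : q ^ 2 - 2 ≤ N ^ 2 := (Nat.sub_le _ _).trans (Nat.pow_le_pow_left hq1 2)
    have h7 : ((q ^ 2 - 2 : ℕ) : ℝ) ≤ (N : ℝ) ^ (2 : ℝ) := by
      rw [Real.rpow_two]
      exact_mod_cast h6
    exact fin_Omega hN1 hδ (by omega) h7 hwδ (Nat.le_ceil _) hr2
  · intro p hp hpy hd
    exact hsq p (mem_filter.2 ⟨fin_mem_pr.2 ⟨hpy, hp⟩, hpz p hp ((dvd_pow_self p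
      (by norm_num)).trans hd)⟩) hd

/-- the core with an exceptional set -/
theorem ft_coreE {A0 : ℝ} (hA0 : 0 < A0) (hSA : St_TSA A0) (hSP : St_TSP A0) (hSB : St_TSB A0)
    (h1 : St_cB) (h2 : St_Wt) (h3 : St_V2T) {η : ℝ → ℝ} (hη : IsWt η) :
    ∃ (R : ℕ) (c₃ δ ε θ₁ θ₂ : ℝ) (A₁ K₁ A₂ K₂ B : ℕ), 0 < c₃ ∧ 0 < δ ∧ 0 < ε ∧ ε ≤ 1 / 10 ∧ 0 < θ₁ ∧
      θ₁ < 1 / 2 ∧ 0 < θ₂ ∧ θ₂ < 1 / 2 ∧ ∀ᶠ N : ℕ in atTop, ∀ m n : ℕ, Tile N m n →
      Lev η N m n θ₁ K₁ (m * N / Real.log N ^ A₁) → Lev η N m n θ₂ K₂ (m * N / Real.log N ^ A₂) →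
      Real.log N ^ B ≤ m → m ≤ wN δ N → Real.log n ≤ (1 + ε) * Real.log N →
      ∀ E : Finset ℕ, (E.card : ℝ) ≤ c₃ * (m * N / Real.log N ^ 3) →
      ∃ q r : ℕ, 2 ≤ q ∧ q ≤ N ∧ r < m ∧ n - m * q - r ∉ E ∧ (n - m * q - r).Prime ∧
        Nat.IsAtMostAlmostPrime 2 q ∧ Nat.IsAtMostAlmostPrime R (q ^ 2 - 2) := by
  obtain ⟨κ, hκdef⟩ : ∃ κ : ℝ, κ = A0 * (Real.log 3 / 4) - A0 * (Real.log 6 / 4) / 2 -
    A0 * (cB / 4) / 2 := ⟨_, rfl⟩
  have hκ : 0 < κ := hκdef ▸ fin_kappa hA0 h1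
  obtain ⟨ε, hεdef⟩ : ∃ ε : ℝ, ε = min (1 / 10) (κ / (2 * (3 + A0))) := ⟨_, rfl⟩
  have hε : 0 < ε := hεdef ▸ lt_min (by norm_num) (by positivity)
  have hε1 : ε ≤ 1 / 10 := hεdef ▸ min_le_left _ _
  have hε2 : ε * (3 + A0) ≤ κ / 2 := by
    have h5 : ε ≤ κ / (2 * (3 + A0)) := hεdef ▸ min_le_right _ _
    rw [le_div_iff₀ (by positivity)] at h5
    linarith
  obtain ⟨δa, hδa, hSA⟩ := hSA η hη ε hε
  obtain ⟨δp, hδp, hSP⟩ := hSP η hη ε hε
  obtain ⟨δb, hδb, hSB⟩ := hSB η hη ε hε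
  obtain ⟨δ, hδ, hδ1, hδ2, hδ3, hδ4⟩ : ∃ δ : ℝ, 0 < δ ∧ δ ≤ δa ∧ δ ≤ δp ∧ δ ≤ δb ∧
      δ ≤ 1 / 20 := ⟨min (min δa δp) (min δb (1 / 20)),
    lt_min (lt_min hδa hδp) (lt_min hδb (by norm_num)),
    (min_le_left _ _).trans (min_le_left _ _), (min_le_left _ _).trans (min_le_right _ _),
    (min_le_right _ _).trans (min_le_left _ _), (min_le_right _ _).trans (min_le_right _ _)⟩
  obtain ⟨θ₁, A₁, K₁, hθ₁, hθ₁', hSA⟩ := hSA δ hδ hδ1
  obtain ⟨θ₂, A₂, K₂, hθ₂, hθ₂', hSP⟩ := hSP δ hδ hδ2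
  obtain ⟨B, hSB⟩ := hSB δ hδ hδ3
  obtain ⟨c, hc, hVL⟩ := h3
  obtain ⟨k, hk⟩ : ∃ k : ℕ, k = 2 := ⟨2, rfl⟩
  refine ⟨⌈2 / δ⌉₊, κ * c / 24, δ, ε, θ₁, θ₂, A₁, K₁, A₂, K₂, B, by positivity, hδ, hε, hε1, hθ₁, hθ₁', hθ₂, hθ₂', ?_⟩
  filter_upwards [hSA, hSP, hSB,
    fin_log_pow 2 0 (show (0 : ℝ) < 1 / 8 by norm_num),
    fin_log_pow 24 0 (show (0 : ℝ) < 2 / 3 by norm_num),
    fin_log_pow (96 / (κ / 2 * c)) (k + 2) (show (0 : ℝ) < 1 / 8 by norm_num),
    eventually_ge_atTop 100] with N hSA hSP hSB hE2 hE3 hE4 hN100 m n hT hL1 hL2 hmlog hmw hL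
      E hE
  have hSA := hSA m n hT hL1
  have hSP := hSP m n hT hL2
  have hSB := hSB m n hT hmlog hmw
  obtain ⟨hm, hmN, hmN1⟩ := hT
  have hNr : (100 : ℝ) ≤ N := by exact_mod_cast hN100
  have hN0 : (0 : ℝ) < N := by linarith
  have hN1 : (1 : ℝ) ≤ N := by linarith
  have hm0 : (0 : ℝ) < m := by exact_mod_cast hm
  have hm1 : (1 : ℝ) ≤ m := by exact_mod_cast hm
  rw [pow_zero, mul_one] at hE2 hE3
  have hLg : 1 ≤ Real.log N := by
    rw [Real.le_log_iff_exp_le hN0]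
    have := Real.exp_one_lt_d9
    linarith
  -- the parameters
  have hz2 : 2 ≤ zN N := by
    unfold zN
    apply Nat.le_floor
    exact_mod_cast hE2.le
  have hzT : (N : ℝ) ^ (1 / 8 : ℝ) ≤ 2 * (zN N : ℝ) := by
    have h5 : (N : ℝ) ^ (1 / 8 : ℝ) < (zN N : ℝ) + 1 := Nat.lt_floor_add_one _
    have h6 : (2 : ℝ) ≤ zN N := by exact_mod_cast hz2
    linarith
  have hzN : (zN N : ℝ) ≤ (N : ℝ) ^ (1 / 8 : ℝ) := Nat.floor_le (Real.rpow_nonneg hN0.le _)
  have hyge : (N : ℝ) ^ (1 / 3 : ℝ) ≤ yN N := Nat.le_ceil _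
  have hylt : (yN N : ℝ) < (N : ℝ) ^ (1 / 3 : ℝ) + 1 := Nat.ceil_lt_add_one (Real.rpow_nonneg hN0.le _)
  have hT1 : 1 ≤ (N : ℝ) ^ (1 / 3 : ℝ) := Real.one_le_rpow hN1 (by norm_num)
  have hy8 : 8 * (yN N + 1) < N := by
    have h5 : (N : ℝ) ^ (1 / 3 : ℝ) * (N : ℝ) ^ (2 / 3 : ℝ) = N := by
      rw [← Real.rpow_add hN0]
      norm_num
    have h6 : (8 : ℝ) * (yN N + 1) < N := by nlinarith
    exact_mod_cast h6
  have hzy : zN N ≤ yN N := by
    have h5 : (N : ℝ) ^ (1 / 8 : ℝ) ≤ (N : ℝ) ^ (1 / 3 : ℝ) :=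
      Real.rpow_le_rpow_of_exponent_le hN1 (by norm_num)
    have h6 : (zN N : ℝ) ≤ yN N := by linarith
    exact_mod_cast h6
  have hwz : wN δ N ≤ zN N := by
    unfold wN zN
    exact Nat.floor_le_floor (Real.rpow_le_rpow_of_exponent_le hN1 (by linarith))
  have hwδ : (N : ℝ) ^ δ ≤ (wN δ N : ℝ) + 1 := (Nat.lt_floor_add_one _).le
  have hy3 : N ≤ yN N ^ 3 := by
    have h5 : ((N : ℝ) ^ (1 / 3 : ℝ)) ^ 3 = N := by
      rw [← Real.rpow_natCast, ← Real.rpow_mul hN0.le]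
      norm_num
    have h6 : ((N : ℝ) ^ (1 / 3 : ℝ)) ^ 3 ≤ (yN N : ℝ) ^ 3 :=
      pow_le_pow_left₀ (by linarith) hyge 3
    rw [h5] at h6
    exact_mod_cast h6
  -- size of n
  have hn1 : 1 ≤ n := by nlinarith
  have hL0 : 0 ≤ Real.log n := Real.log_natCast_nonneg n
  have hn0 : (0 : ℝ) < n := by exact_mod_cast hn1
  have hsn : Real.sqrt n ≤ m * (N : ℝ) ^ (7 / 8 : ℝ) := by
    have hp0 : 0 ≤ (N : ℝ) ^ (7 / 8 : ℝ) := Real.rpow_nonneg hN0.le _
    rw [Real.sqrt_le_left (by positivity)]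
    have h5 : (n : ℝ) ≤ m * (N + 1) := by exact_mod_cast hmN1.le
    have h6 : (m * (N : ℝ) ^ (7 / 8 : ℝ)) ^ 2 = m * (m * ((N : ℝ) ^ (3 / 4 : ℝ) * N)) := by
      have h7 : (N : ℝ) ^ (3 / 4 : ℝ) * N = (N : ℝ) ^ (7 / 8 : ℝ) * (N : ℝ) ^ (7 / 8 : ℝ) := by
        rw [← Real.rpow_add hN0]
        conv_lhs => rw [← Real.rpow_one (N : ℝ)]
        rw [← Real.rpow_mul hN0.le, ← Real.rpow_add hN0]
        norm_num
      rw [h7]
      ring
    rw [h6]
    have h8 : (2 : ℝ) ≤ (N : ℝ) ^ (3 / 4 : ℝ) :=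
      hE2.le.trans (Real.rpow_le_rpow_of_exponent_le hN1 (by norm_num))
    have h9 : (N : ℝ) + 1 ≤ (N : ℝ) ^ (3 / 4 : ℝ) * N := by nlinarith
    have h10 : (N : ℝ) ^ (3 / 4 : ℝ) * N ≤ m * ((N : ℝ) ^ (3 / 4 : ℝ) * N) :=
      le_mul_of_one_le_left (by positivity) hm1
    exact h5.trans (mul_le_mul_of_nonneg_left (h9.trans h10) hm0.le)
  have hsn' : Real.sqrt n / m ≤ (N : ℝ) ^ (7 / 8 : ℝ) := by
    rw [div_le_iff₀ hm0]
    linarith
  -- the unit
  have hI := fin_int hη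
  have hV : c / Real.log N ^ k ≤ VV (gT (wN δ N)) (zN N) := by
    rw [hk]
    refine le_trans ?_ (hVL (wN δ N) (zN N) hz2)
    have h5 : 0 < Real.log (zN N) := Real.log_pos (by exact_mod_cast hz2)
    have h6 : (zN N : ℝ) ≤ N := hzN.trans (by
      calc (N : ℝ) ^ (1 / 8 : ℝ) ≤ (N : ℝ) ^ (1 : ℝ) :=
            Real.rpow_le_rpow_of_exponent_le hN1 (by norm_num)
        _ = N := Real.rpow_one _)
    have h7 : Real.log (zN N) ≤ Real.log N :=
      Real.log_le_log (by exact_mod_cast (by omega : 0 < zN N)) h6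
    exact div_le_div_of_nonneg_left hc.le (pow_pos h5 2) (pow_le_pow_left₀ h5.le h7 2)
  have hcl : 0 ≤ c / Real.log N ^ k := by positivity
  have hUm : (1 / 2) * (m * N) * (c / Real.log N ^ k) ≤ UT η δ N m (zN N) := by
    unfold UT
    apply mul_le_mul _ hV hcl (by positivity)
    exact mul_le_mul_of_nonneg_right hI (by positivity)
  have hU0 : 0 ≤ UT η δ N m (zN N) := le_trans (by positivity) hUm
  have hU : (1 / 2) * N * (c / Real.log N ^ k) ≤ UT η δ N m (zN N) / m := by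
    rw [le_div_iff₀ hm0]
    linarith
  by_contra hcon
  push Not at hcon
  have hno := ft_goodE (m := m) (n := n) h2 hη (by omega) hwz hy3 hδ hwδ (by linarith) E hcon
  have hmain := ft_ineqE hη E hm hmN (by omega : 1 ≤ zN N) hwz hzy hy8 hno
  have hSB0 := ft_SBT_nonneg hη (wN δ N) (zN N) (yN N) N m n
  have hcB : cB ≤ 2 / 5 := h1
  have hkey := fin_alg hA0 hκdef hε hε2 hcB (by linarith : 0 < Real.log N) hL hU0 hSB0 hSA hSP hSB
    hmain hε1
  have hkey2 : κ / 2 / 2 * UT η δ N m (zN N) ≤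
      (3 / 2) * (Real.log n * (m * ((N : ℝ) / zN N) + 3 * (Real.sqrt n * Real.log n))) := by
    have hLk : 0 < Real.log N ^ k := by positivity
    have hmN0 : (0 : ℝ) < m * N := by positivity
    have h5 : (E.card : ℝ) * Real.log N ^ k * Real.log N ≤ κ * c / 24 * (m * N) := by
      have h6 : (E.card : ℝ) * Real.log N ^ 3 ≤ κ * c / 24 * (m * N) := by
        have h7 : κ * c / 24 * (m * N / Real.log N ^ 3) = κ * c / 24 * (m * N) / Real.log N ^ 3 := by
          ring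
        rw [h7, le_div_iff₀ (by positivity)] at hE
        exact hE
      rw [hk]
      refine le_trans (le_of_eq ?_) h6
      ring
    have h7 : Real.log n ≤ 2 * Real.log N :=
      hL.trans (mul_le_mul_of_nonneg_right (by linarith) (by linarith))
    have h8 : (3 / 2) * (Real.log n * (E.card : ℝ)) ≤ κ / 2 / 2 * UT η δ N m (zN N) := by
      have h9 : Real.log n * (E.card : ℝ) ≤ 2 * Real.log N * E.card :=
        mul_le_mul_of_nonneg_right h7 (Nat.cast_nonneg _)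
      have h10 : κ / 2 / 2 * ((1 / 2) * (m * N) * (c / Real.log N ^ k)) ≤
          κ / 2 / 2 * UT η δ N m (zN N) :=
        mul_le_mul_of_nonneg_left hUm (by linarith)
      refine le_trans ?_ h10
      have h11 : (3 / 2) * (2 * Real.log N * (E.card : ℝ)) * Real.log N ^ k ≤
          κ / 8 * c * (m * N) := by
        linarith
      have h12 : κ / 2 / 2 * ((1 / 2) * (m * N) * (c / Real.log N ^ k)) =
          κ / 8 * c * (m * N) / Real.log N ^ k := by
        ring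
      rw [h12, le_div_iff₀ hLk]
      refine le_trans ?_ h11
      apply mul_le_mul_of_nonneg_right _ hLk.le
      linarith
    linarith
  have hkey' : κ / 2 / 2 * (UT η δ N m (zN N) / m) ≤
      (3 / 2) * (Real.log n * ((N : ℝ) / zN N + 3 * ((Real.sqrt n / m) * Real.log n))) := by
    have h5 : κ / 2 / 2 * (UT η δ N m (zN N) / m) = κ / 2 / 2 * UT η δ N m (zN N) / m := by
      ring
    have h6 : (3 / 2) * (Real.log n * ((N : ℝ) / zN N + 3 * ((Real.sqrt n / m) * Real.log n))) =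
        (3 / 2) * (Real.log n * (m * ((N : ℝ) / zN N) + 3 * (Real.sqrt n * Real.log n))) / m := by
      have hmne : (m : ℝ) ≠ 0 := hm0.ne'
      field_simp
    rw [h5, h6]
    exact div_le_div_of_nonneg_right hkey2 hm0.le
  refine fin_num (k := k) (N := N) (T := (N : ℝ) ^ (1 / 8 : ℝ)) (sq := (N : ℝ) ^ (7 / 8 : ℝ))
    (half_pos hκ) hc hN0 hLg hL0 ?_ (Real.rpow_pos_of_pos hN0 _) hzT ?_ hU
    (div_nonneg (Real.sqrt_nonneg _) hm0.le) hsn' hE4 hkey'
  · refine hL.trans (mul_le_mul_of_nonneg_right (by linarith) (by linarith))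
  · rw [← Real.rpow_add hN0]
    norm_num

/-- `(log n)^B ≤ m ≤ n^κ`, robust form -/
theorem thm_FT3 (h0 : ∃ A0 : ℝ, 0 < A0 ∧ St_TSA A0 ∧ St_TSP A0 ∧ St_TSB A0) (h1 : St_cB) (h2 : St_Wt)
    (h3 : St_TBV2) (h4 : St_V2T) : St_FT3 := by
  obtain ⟨A0, hA0, hSA, hSP, hSB⟩ := h0
  obtain ⟨η, hη⟩ := exists_wt
  obtain ⟨R, c₃, δ, ε, θ₁, θ₂, A₁, K₁, A₂, K₂, B₀, hc₃, hδ, hε, hε1, hθ₁, hθ₁', hθ₂, hθ₂', hcore⟩ :=
    ft_coreE hA0 hSA hSP hSB h1 h2 h4 hη
  obtain ⟨κ₁, hκ₁, hlev1⟩ := h3 η hη θ₁ hθ₁ hθ₁'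
  obtain ⟨κ₂, hκ₂, hlev2⟩ := h3 η hη θ₂ hθ₂ hθ₂'
  obtain ⟨B₁, hlev1⟩ := hlev1 A₁ K₁
  obtain ⟨B₂, hlev2⟩ := hlev2 A₂ K₂
  obtain ⟨κ, hκ, hk1, hk2, hk3, hk4⟩ : ∃ κ : ℝ, 0 < κ ∧ κ ≤ κ₁ ∧ κ ≤ κ₂ ∧ κ ≤ δ / 2 ∧
      κ ≤ ε / 4 := ⟨min (min κ₁ κ₂) (min (δ / 2) (ε / 4)),
    lt_min (lt_min hκ₁ hκ₂) (lt_min (by linarith) (by linarith)),
    (min_le_left _ _).trans (min_le_left _ _), (min_le_left _ _).trans (min_le_right _ _),
    (min_le_right _ _).trans (min_le_left _ _), (min_le_right _ _).trans (min_le_right _ _)⟩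
  refine ⟨R, max B₀ (max B₁ B₂), κ, c₃ / 2, hκ, half_pos hc₃, ?_⟩
  obtain ⟨N₀, hN₀⟩ := eventually_atTop.1 hcore
  filter_upwards [hlev1, hlev2, fin_log_pow 2 0 hκ, fin_log_pow ((N₀ : ℝ) + 100) 0
    (show (0 : ℝ) < 1 / 2 by norm_num),
    eventually_ge_atTop 100] with
    n hlev1 hlev2 hE1 hE2 hn100 m N hT hmlog hmκ E hE
  rw [pow_zero, mul_one] at hE1 hE2
  have hnr : (100 : ℝ) ≤ n := by exact_mod_cast hn100
  have hn0 : (0 : ℝ) < n := by linarith
  have hn1 : (1 : ℝ) ≤ n := by linarith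
  obtain ⟨hm, hmN, hmN1⟩ := id hT
  have hm1 : (1 : ℝ) ≤ m := by exact_mod_cast hm
  have hm0 : (0 : ℝ) < m := by linarith
  have hlogn : 1 ≤ Real.log n := by
    rw [Real.le_log_iff_exp_le hn0]
    have := Real.exp_one_lt_d9
    linarith
  -- size of N
  have hN2 : (n : ℝ) < m * ((N : ℝ) + 1) := by exact_mod_cast hmN1
  have hsp : (n : ℝ) ^ κ * (n : ℝ) ^ (1 - κ) = n := by
    rw [← Real.rpow_add hn0]
    norm_num
  have hN3 : (n : ℝ) ^ (1 - κ) < (N : ℝ) + 1 := by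
    have h6 : (n : ℝ) ^ κ * (n : ℝ) ^ (1 - κ) < (n : ℝ) ^ κ * ((N : ℝ) + 1) := by
      rw [hsp]
      exact hN2.trans_le (mul_le_mul_of_nonneg_right hmκ (by positivity))
    exact lt_of_mul_lt_mul_left h6 (Real.rpow_nonneg hn0.le _)
  have hsp2 : (n : ℝ) ^ κ * (n : ℝ) ^ (1 - 2 * κ) = (n : ℝ) ^ (1 - κ) := by
    rw [← Real.rpow_add hn0]
    congr 1
    ring
  have hhalf : (n : ℝ) ^ (1 / 2 : ℝ) ≤ (n : ℝ) ^ (1 - 2 * κ) :=
    Real.rpow_le_rpow_of_exponent_le hn1 (by linarith)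
  have hN00 : (0 : ℝ) ≤ N₀ := Nat.cast_nonneg _
  have hNge : (n : ℝ) ^ (1 - 2 * κ) ≤ N := by
    have h6 : 1 ≤ (n : ℝ) ^ (1 - 2 * κ) := by linarith
    nlinarith
  have hNN0 : N₀ ≤ N := by
    have h6 : (N₀ : ℝ) ≤ N := by linarith
    exact_mod_cast h6
  have hN0 : (0 : ℝ) < N := by linarith
  have hN1 : (1 : ℝ) < N := by linarith
  have hlogN0 : 0 < Real.log N := Real.log_pos hN1
  have hNn : (N : ℝ) ≤ n := by
    have h6 : (m : ℝ) * N ≤ n := by exact_mod_cast hmN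
    nlinarith
  have hlogNn : Real.log N ≤ Real.log n := Real.log_le_log hN0 hNn
  have hlog : Real.log n ≤ (1 + ε) * Real.log N := by
    have h6 : Real.log ((n : ℝ) ^ (1 - 2 * κ)) ≤ Real.log N :=
      Real.log_le_log (Real.rpow_pos_of_pos hn0 _) hNge
    rw [Real.log_rpow hn0] at h6
    have h7 : (1 : ℝ) ≤ (1 + ε) * (1 - 2 * κ) := by nlinarith
    calc Real.log n = 1 * Real.log n := (one_mul _).symm
      _ ≤ ((1 + ε) * (1 - 2 * κ)) * Real.log n := mul_le_mul_of_nonneg_right h7 (by linarith)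
      _ = (1 + ε) * ((1 - 2 * κ) * Real.log n) := by ring
      _ ≤ (1 + ε) * Real.log N := mul_le_mul_of_nonneg_left h6 (by linarith)
  have hmw : m ≤ wN δ N := by
    unfold wN
    apply Nat.le_floor
    have h6 : (n : ℝ) ^ κ ≤ (n : ℝ) ^ (δ * (1 / 2)) :=
      Real.rpow_le_rpow_of_exponent_le hn1 (by linarith)
    have h7 : (n : ℝ) ^ (δ * (1 / 2)) = ((n : ℝ) ^ (1 / 2 : ℝ)) ^ δ := by
      rw [← Real.rpow_mul hn0.le]
      congr 1
      ring
    have h8 : ((n : ℝ) ^ (1 / 2 : ℝ)) ^ δ ≤ (N : ℝ) ^ δ :=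
      Real.rpow_le_rpow (Real.rpow_nonneg hn0.le _) (hhalf.trans hNge) hδ.le
    linarith
  have hpow : ∀ B' : ℕ, B' ≤ max B₀ (max B₁ B₂) → Real.log n ^ B' ≤ m := fun B' hB' =>
    (pow_le_pow_right₀ hlogn hB').trans hmlog
  have hmlogN : Real.log N ^ B₀ ≤ m :=
    (pow_le_pow_left₀ hlogN0.le hlogNn B₀).trans (hpow B₀ (le_max_left _ _))
  have hκm : ∀ κ' : ℝ, κ ≤ κ' → (m : ℝ) ≤ (n : ℝ) ^ κ' := fun κ' hκ' =>
    hmκ.trans (Real.rpow_le_rpow_of_exponent_le hn1 hκ')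
  have herr : ∀ A : ℕ, (m : ℝ) * N / Real.log n ^ A ≤ m * N / Real.log N ^ A := fun A =>
    div_le_div_of_nonneg_left (by positivity) (pow_pos hlogN0 A)
      (pow_le_pow_left₀ hlogN0.le hlogNn A)
  have hl1 := ft_Lev_mono (herr A₁) (hlev1 m N hT
    (hpow B₁ ((le_max_left _ _).trans (le_max_right _ _))) (hκm κ₁ hk1))
  have hl2 := ft_Lev_mono (herr A₂) (hlev2 m N hT
    (hpow B₂ ((le_max_right _ _).trans (le_max_right _ _))) (hκm κ₂ hk2))
  have hEN : (E.card : ℝ) ≤ c₃ * (m * N / Real.log N ^ 3) := by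
    have h6 : (n : ℝ) ≤ 2 * (m * N) := by
      have h7 : (N : ℝ) + 1 ≤ 2 * N := by linarith
      have h8 := mul_le_mul_of_nonneg_left h7 hm0.le
      linarith
    have h7 : (n : ℝ) / Real.log n ^ 3 ≤ 2 * (m * N) / Real.log N ^ 3 :=
      div_le_div₀ (by positivity) h6 (pow_pos hlogN0 3) (pow_le_pow_left₀ hlogN0.le hlogNn 3)
    have h8 := mul_le_mul_of_nonneg_left h7 (half_pos hc₃).le
    have h9 : c₃ / 2 * (2 * (m * N) / Real.log N ^ 3) = c₃ * (m * N / Real.log N ^ 3) := by ring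
    rw [h9] at h8
    exact hE.trans h8
  obtain ⟨q, r, hq2, hqN, hrm, hrE, hpr, hO2, hOR⟩ :=
    hN₀ N hNN0 m n hT hl1 hl2 hmlogN hmw hlog E hEN
  have hmq : m * q ≤ n := (Nat.mul_le_mul_left m hqN).trans hmN
  have hx1 := hpr.pos
  have hmq1 : 1 ≤ m * q := Nat.one_le_iff_ne_zero.2 (Nat.mul_ne_zero (by omega) (by omega))
  have hdiv : (n - (n - m * q - r)) / m = q := by
    have h6 : n - (n - m * q - r) = r + m * q := by omega
    rw [h6, Nat.add_mul_div_left _ _ (by omega), Nat.div_eq_of_lt hrm, zero_add]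
  refine ⟨n - m * q - r, hrE, hpr, by omega, ?_, ?_, ?_⟩
  · rw [hdiv]
    exact hq2
  · rw [hdiv]
    exact hO2
  · rw [hdiv]
    exact hOR

end Pool.Agent.CAE.Rob
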