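import Mathlib
import Pool.Agent.CAE.RobZ
import Pool.Agent.CV.Main

set_option autoImplicit false

/-!
# CAE: all `m ≤ n^(1/3+ρ)`, with an exceptional set of the expected order
-/

namespace Pool.Agent.CAE.Rob

open Finset Filter Pool.Agent.MT Pool.Agent.CH Pool.Agent.CU Pool.Agent.CV

theorem third_mono {R R' m n : ℕ} {E : Finset ℕ} (h : SolE R m n E) (hR : R ≤ R') :
    SolE R' m n E := by
  obtain ⟨p, h1, h2, h3, h4, h5, h6⟩ := h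
  exact ⟨p, h1, h2, h3, h4, h5, final_mono hR h6⟩

theorem third_card {c c' : ℝ} (hcc : c ≤ c') {n : ℕ} {E : Finset ℕ}
    (hE : (E.card : ℝ) ≤ c * (n / Real.log n ^ 3)) :
    (E.card : ℝ) ≤ c' * (n / Real.log n ^ 3) := by
  refine hE.trans (mul_le_mul_of_nonneg_right hcc ?_)
  exact div_nonneg (Nat.cast_nonneg _) (pow_nonneg (Real.log_natCast_nonneg _) _)

/-- all ranges together -/
theorem thm_Third3 (hC : St_CH3) (hT : St_FT3) (hZ : St_ZF3) : St_Third3 := by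
  obtain ⟨R1, c1, hc1, hC⟩ := hC
  obtain ⟨R2, B2, κ, c2, hκ, hc2, hT⟩ := hT
  obtain ⟨ρ, hρ, hZ⟩ := hZ
  obtain ⟨R3, c3, hc3, hZ⟩ := hZ κ hκ
  obtain ⟨c, hc, hcc1, hcc2, hcc3⟩ : ∃ c : ℝ, 0 < c ∧ c ≤ c1 ∧ c ≤ c2 ∧ c ≤ c3 :=
    ⟨min c1 (min c2 c3), lt_min hc1 (lt_min hc2 hc3), min_le_left _ _,
      (min_le_right _ _).trans (min_le_left _ _), (min_le_right _ _).trans (min_le_right _ _)⟩
  refine ⟨R1 + R2 + R3, c, ρ, hc, hρ, ?_⟩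
  filter_upwards [hT, hC B2, hZ] with n hT hC hZ m hm hmle E hE
  have hm1 : 1 ≤ m := hm.1
  have htile : Tile (n / m) m n := by
    refine ⟨hm1, Nat.mul_div_le n m, ?_⟩
    exact Nat.lt_mul_div_succ n (by omega)
  rcases le_or_gt (m : ℝ) (Real.log n ^ B2) with hs | hs
  · exact third_mono (hC m hm hs E (third_card hcc1 hE)) (by omega)
  rcases le_or_gt (m : ℝ) ((n : ℝ) ^ κ) with hk | hk
  · exact third_mono (hT m (n / m) htile hs.le hk E (third_card hcc2 hE)) (by omega)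
  · exact third_mono (hZ m (n / m) htile hk.le hmle E (third_card hcc3 hE)) (by omega)

theorem ch3 (hV : St_V2A) (hR : St_RedM) : St_CH3 := by
  obtain ⟨A0, hA0, hU, hL⟩ := (thm_LinG Pool.Agent.LIN.sve Pool.Agent.LIN.thm_Cv2).2
  have hPBVW := thm_PBVW (thm_PBV thm_PRed thm_PLC thm_PSW)
  exact thm_CH3 ⟨A0, hA0, thm_SA A0 hA0 hL thm_ABV thm_Gen thm_VLow thm_Dens thm_P1,
    thm_SP A0 hA0 hU thm_ABV thm_Gen thm_VLow thm_Dens thm_P1 (thm_ASum thm_MR),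
    thm_SB A0 hA0 hU hPBVW thm_Gen thm_VLow thm_Dens (thm_BMass thm_MR thm_P2) thm_VR⟩
    thm_cB thm_Wt hV thm_Dens hR

theorem ft3 (hV : St_V2T) : St_FT3 := by
  obtain ⟨A0, hA0, hU, hL⟩ := (thm_LinG Pool.Agent.LIN.sve Pool.Agent.LIN.thm_Cv2).1
  have hPBVW := thm_PBVW (thm_PBV thm_PRed thm_PLC thm_PSW)
  exact thm_FT3 ⟨A0, hA0, thm_TSA A0 hA0 hL thm_Gen thm_VLow thm_DensT thm_P1,
    thm_TSP A0 hA0 hU thm_Gen thm_VLow thm_DensT thm_P1 (thm_ASum thm_MR),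
    thm_TSB A0 hA0 hU hPBVW thm_Gen thm_VLow thm_DensT (thm_BMass thm_MR thm_P2) thm_VRG
      thm_AvgR⟩ thm_cB thm_Wt (thm_TBV2 thm_TRed (thm_JB thm_PV) thm_TSum) hV

theorem zf3 (hV : St_V2T) : St_ZF3 := by
  obtain ⟨A0, hA0, hU, hL⟩ := thm_LR
  have hPBVW := thm_PBVW (thm_PBV thm_PRed thm_PLC thm_PSW)
  exact thm_ZF3 ⟨A0, hA0, thm_ZSA A0 hA0 hL levZ thm_GenZ thm_VLow thm_DensT thm_P1,
    thm_ZSP A0 hA0 hU levZ thm_GenZ thm_VLow thm_DensT thm_P1 (thm_ASum thm_MR),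
    thm_ZSB A0 hA0 hU hPBVW (thm_LevB thm_RedB thm_PV thm_LSm) (thm_GenB thm_DensT) thm_VLow
      thm_DensT (thm_BMass thm_MR thm_P2) thm_VRn⟩ thm_cB thm_Wt hV thm_DensT

/-- all `m ≤ n^(1/3+ρ)` -/
theorem third3 (hVT : St_V2T) (hVA : St_V2A) (hR : St_RedM) : St_Third3 :=
  thm_Third3 (ch3 hVA hR) (ft3 hVT) (zf3 hVT)

end Pool.Agent.CAE.Rob
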