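import Mathlib
import Pool.Agent.CAE.Third
import Pool.Agent.EVN.Asm2

set_option autoImplicit false

/-!
# CAE: the number of solutions for all but finitely many admissible pairs

`G` is the set of the solutions in the problem (any set which contains the good primes outside of
`badOm`).
-/

namespace Pool.Agent.CAE

open Finset Filter Pool.Agent.MT Pool.Agent.CH Pool.Agent.CU Pool.Agent.CV

/-- the conclusion for `m ≤ n^(1/3+ρ)`: every finite set `G` that contains all `p ∉ badOm m n` that are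
good has at least the expected order of elements -/
theorem all_third (h : Rob.St_Third3) (h8 : St_Om8) : ∃ (R : ℕ) (c ρ : ℝ), 0 < c ∧ 0 < ρ ∧
    ∀ᶠ n : ℕ in atTop, ∀ m : ℕ, Admissible m n → (m : ℝ) ≤ (n : ℝ) ^ (1 / 3 + ρ) →
    ∀ G : Finset ℕ, (∀ p : ℕ, p.Prime → p < n → 2 ≤ (n - p) / m →
      ArithmeticFunction.cardFactors ((n - p) / m) ≤ 2 →
      ArithmeticFunction.cardFactors (((n - p) / m) ^ 2 - 2) ≤ R →
      (ArithmeticFunction.cardFactors
        (Nat.nth Nat.Prime ((n - p) / m - 1) - (n - p) / m + 1) : ℝ) ≤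
          8 * Real.log (Real.log n) → p ∈ G) → c * (n / Real.log n ^ 3) < (G.card : ℝ) := by
  classical
  obtain ⟨R, c, ρ, hc, hρ, h⟩ := h
  refine ⟨R, c / 2, ρ, half_pos hc, hρ, ?_⟩
  filter_upwards [h, h8 (c / 2) (half_pos hc)] with n h h8 m hm hmρ G hG
  by_contra hlt
  rw [not_lt] at hlt
  have h8 := h8 m hm.1
  have hE : (((G ∪ badOm m n).card : ℕ) : ℝ) ≤ c * (n / Real.log n ^ 3) := by
    have h5 : (((G ∪ badOm m n).card : ℕ) : ℝ) ≤ (G.card : ℝ) + ((badOm m n).card : ℝ) := by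
      exact_mod_cast card_union_le _ _
    linarith
  obtain ⟨p, hpE, hp, hpn, hq, h2, hR⟩ := h m hm hmρ (G ∪ badOm m n) hE
  rw [mem_union, not_or] at hpE
  obtain ⟨hpG, hpb⟩ := hpE
  apply hpG
  refine hG p hp hpn hq h2.2 hR.2 ?_
  by_contra hΩ
  apply hpb
  rw [badOm, mem_filter, mem_range]
  exact ⟨hpn, hq, not_le.1 hΩ⟩

end Pool.Agent.CAE
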