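import Pool.Agent.CAE.Stmts
import Pool.Agent.CH.Fin

/-!
# CAE, module C: `m ≤ (log n)^{A₀}`, a solution outside of a small set `E`

Adaptation of `Pool/Agent/CH/Fin.lean`.
-/

set_option autoImplicit false

namespace Pool.Agent.CAE

open Finset Filter Pool.Agent.MT Pool.Agent.CH

/-- number of `q ≤ N` such that `x = n' - m q` is a proper prime power or in `E` -/
theorem cae_card_pp (E : Finset ℕ) {N m n' : ℕ} (hm : 1 ≤ m) (hn : m * N ≤ n') (hn1 : 1 ≤ n') :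
    (((range (N + 1)).filter (fun q => lam (n' - m * q) ≠ 0 ∧
      (¬ (n' - m * q).Prime ∨ n' - m * q ∈ E))).card : ℝ) ≤
      3 * (Real.sqrt n' * Real.log n') + E.card := by
  have h1 := fin_card_pp hm hn hn1
  have h2 : ((range (N + 1)).filter (fun q => n' - m * q ∈ E)).card ≤ E.card := by
    apply card_le_card_of_injOn (fun q => n' - m * q)
    · intro q hq
      exact (mem_filter.1 hq).2
    · intro a ha b hb hab
      have hle : ∀ q ∈ range (N + 1), m * q ≤ n' := fun q hq =>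
        (Nat.mul_le_mul_left m (Nat.lt_succ_iff.1 (mem_range.1 hq))).trans hn
      have ha1 := hle a (mem_filter.1 ha).1
      have hb1 := hle b (mem_filter.1 hb).1
      have hab' : n' - m * a = n' - m * b := hab
      have h : m * a = m * b := by omega
      exact Nat.eq_of_mul_eq_mul_left (by omega) h
  have h3 : (range (N + 1)).filter (fun q => lam (n' - m * q) ≠ 0 ∧
      (¬ (n' - m * q).Prime ∨ n' - m * q ∈ E)) ⊆
      (range (N + 1)).filter (fun q => lam (n' - m * q) ≠ 0 ∧ ¬ (n' - m * q).Prime) ∪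
        (range (N + 1)).filter (fun q => n' - m * q ∈ E) := by
    intro q hq
    obtain ⟨hq1, hq2, hq3⟩ := mem_filter.1 hq
    rw [mem_union]
    rcases hq3 with h | h
    · exact Or.inl (mem_filter.2 ⟨hq1, hq2, h⟩)
    · exact Or.inr (mem_filter.2 ⟨hq1, h⟩)
  have h4 := (card_le_card h3).trans (card_union_le _ _)
  have h5 : (((range (N + 1)).filter (fun q => lam (n' - m * q) ≠ 0 ∧
      (¬ (n' - m * q).Prime ∨ n' - m * q ∈ E))).card : ℝ) ≤
      (((range (N + 1)).filter (fun q => lam (n' - m * q) ≠ 0 ∧ ¬ (n' - m * q).Prime)).card : ℝ) +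
        (((range (N + 1)).filter (fun q => n' - m * q ∈ E)).card : ℝ) := by
    exact_mod_cast h4
  have h6 : (((range (N + 1)).filter (fun q => n' - m * q ∈ E)).card : ℝ) ≤ E.card := by
    exact_mod_cast h2
  linarith

/-- the additional error is at most half of the main term -/
theorem cae_num {κ c : ℝ} {k : ℕ} {N L Lg U e F : ℝ} (hκ : 0 < κ) (hc : 0 < c) (hN : 0 < N)
    (hLg : 1 ≤ Lg) (hL0 : 0 ≤ L) (hL : L ≤ 2 * Lg) (hU : (1 / 2) * N * (c / Lg ^ k) ≤ U)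
    (he0 : 0 ≤ e) (he : e ≤ N / Lg ^ (k + 3)) (hLg2 : 24 / (κ * c) ≤ Lg)
    (h : κ / 2 * U ≤ (3 / 2) * (L * (F + e))) : κ / 2 / 2 * U ≤ (3 / 2) * (L * F) := by
  have hLp : 0 < Lg := by linarith
  have h1 : L * e ≤ 2 * Lg * (N / Lg ^ (k + 3)) := mul_le_mul hL he he0 (by linarith)
  have h2 : 2 * Lg * (N / Lg ^ (k + 3)) = 2 * N / Lg ^ k / Lg ^ 2 := by
    rw [pow_add]
    field_simp
  have h3 : 24 ≤ κ * c * Lg := by
    rw [div_le_iff₀ (mul_pos hκ hc)] at hLg2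
    linarith
  have h4 : 24 ≤ κ * c * Lg ^ 2 := by
    have h5 : κ * c * Lg ≤ κ * c * Lg ^ 2 := by
      apply mul_le_mul_of_nonneg_left _ (mul_pos hκ hc).le
      nlinarith
    linarith
  have h5 : 2 * N / Lg ^ k / Lg ^ 2 ≤ κ * c * N / Lg ^ k / 12 := by
    rw [div_le_iff₀ (by positivity)]
    have h6 : κ * c * N / Lg ^ k / 12 * Lg ^ 2 = (κ * c * Lg ^ 2 / 12) * (N / Lg ^ k) := by
      field_simp
    have h7 : 2 * N / Lg ^ k = 2 * (N / Lg ^ k) := by ring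
    rw [h6, h7]
    apply mul_le_mul_of_nonneg_right _ (by positivity)
    linarith
  have h6 : κ * c * N / Lg ^ k / 12 ≤ κ / 6 * U := by
    have h7 : κ / 6 * ((1 / 2) * N * (c / Lg ^ k)) ≤ κ / 6 * U :=
      mul_le_mul_of_nonneg_left hU (by linarith)
    have h8 : κ / 6 * ((1 / 2) * N * (c / Lg ^ k)) = κ * c * N / Lg ^ k / 12 := by ring
    linarith
  have h7 : L * e ≤ κ / 6 * U := by
    rw [h2] at h1
    linarith
  have h8 : L * (F + e) = L * F + L * e := by ring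
  rw [h8] at h
  linarith

/-- the inequality between the three sums if there is no good `q` -/
theorem cae_ineq (E : Finset ℕ) {η : ℝ → ℝ} (hη : IsWt η) {N m n' w z y : ℕ} (hm : 1 ≤ m) (hn : m * N ≤ n')
    (hz : 1 ≤ z) (hwz : w ≤ z) (hzy : z ≤ y) (hy : 8 * (y + 1) < N)
    (hno : ∀ q ∈ range (N + 1), (∀ l ∈ pr z, q % l ∉ OmA w m n' l) → η ((q : ℝ) / N) ≠ 0 →
      (n' - m * q).Prime → n' - m * q ∉ E → (∀ p ∈ (pr y).filter (fun p => z < p), ¬ p ^ 2 ∣ q) →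
      1 - (1 / 2) * ((((pr y).filter (fun p => z < p)).filter (fun p => p ∣ q)).card : ℝ) -
        (1 / 2) * bt z y q ≤ 0) :
    ∑ q ∈ (range (N + 1)).filter (fun q => ∀ l ∈ pr z, q % l ∉ OmA w m n' l),
        lam (n' - m * q) * η ((q : ℝ) / N) -
      (1 / 2) * ∑ p ∈ (pr y).filter (fun p => z < p), ∑ q ∈ (range (N + 1)).filter
        (fun q => (∀ l ∈ pr z, q % l ∉ OmA w m n' l) ∧ p ∣ q),
          lam (n' - m * q) * η ((q : ℝ) / N) ≤
      (1 / 2) * (Real.log n' * ∑ q ∈ (range (N + 1)).filter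
        (fun q => ∀ l ∈ pr y, q % l ∉ OmB w m n' l), bt z y q * η ((q : ℝ) / N)) +
      (3 / 2) * (Real.log n' * ((N : ℝ) / z + 3 * (Real.sqrt n' * Real.log n') + E.card)) := by
  have hN0 : 0 < N := by omega
  have hn1 : 1 ≤ n' := by nlinarith
  have hL : 0 ≤ Real.log n' := Real.log_natCast_nonneg n'
  set Q := (range (N + 1)).filter (fun q => ∀ l ∈ pr z, q % l ∉ OmA w m n' l) with hQ
  set f : ℕ → ℝ := fun q => lam (n' - m * q) * η ((q : ℝ) / N) with hf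
  set P := (pr y).filter (fun p => z < p) with hP
  set SQ := (Ioc 0 N).filter (fun q => ∃ p ∈ P, p ^ 2 ∣ q) with hSQ
  set PP := (range (N + 1)).filter (fun q => lam (n' - m * q) ≠ 0 ∧
    (¬ (n' - m * q).Prime ∨ n' - m * q ∈ E)) with hPP
  rw [fin_double (fun q => ∀ l ∈ pr z, q % l ∉ OmA w m n' l) P f, ← hQ]
  have hmq : ∀ q ∈ range (N + 1), m * q ≤ n' := fun q hq =>
    (Nat.mul_le_mul_left m (Nat.lt_succ_iff.1 (mem_range.1 hq))).trans hn
  have hf0 : ∀ q, 0 ≤ f q := fun q => mul_nonneg (fin_lam_nonneg _) (hη.nonneg _)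
  have hfL : ∀ q, f q ≤ Real.log n' := fun q => by
    have h1 := fin_lam_le (Nat.sub_le n' (m * q))
    have h2 := hη.le_one ((q : ℝ) / N)
    have h3 := hη.nonneg ((q : ℝ) / N)
    have h4 := fin_lam_nonneg (n' - m * q)
    calc f q = lam (n' - m * q) * η ((q : ℝ) / N) := rfl
      _ ≤ Real.log n' * 1 := mul_le_mul h1 h2 h3 hL
      _ = Real.log n' := mul_one _
  have hbig : ∀ q ∈ range (N + 1), η ((q : ℝ) / N) ≠ 0 → y < n' - m * q := by
    intro q hq hq2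
    have h1 := (hη.supp _ hq2).2
    have hNr : (0 : ℝ) < N := by exact_mod_cast hN0
    rw [div_lt_iff₀ hNr] at h1
    have h2 : 8 * q < 7 * N := by
      have : (8 : ℝ) * q < 7 * N := by linarith
      exact_mod_cast this
    have h3 : m * (N - q) ≤ n' - m * q := by
      rw [Nat.mul_sub]
      omega
    have h4 : N - q ≤ m * (N - q) := Nat.le_mul_of_pos_left _ (by omega)
    omega
  -- the weights
  have hW : ∀ q ∈ Q, f q * (1 - (1 / 2) * ((P.filter (fun p => p ∣ q)).card : ℝ) -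
      (1 / 2) * bt z y q) ≤ Real.log n' * ((if q ∈ SQ then (1 : ℝ) else 0) +
        (if q ∈ PP then (1 : ℝ) else 0)) := by
    intro q hq
    obtain ⟨hq1, hq2⟩ := mem_filter.1 hq
    have hrhs : 0 ≤ Real.log n' * ((if q ∈ SQ then (1 : ℝ) else 0) +
        (if q ∈ PP then (1 : ℝ) else 0)) := by
      apply mul_nonneg hL
      split_ifs <;> norm_num
    have hW1 : (1 - (1 / 2) * ((P.filter (fun p => p ∣ q)).card : ℝ) -
      (1 / 2) * bt z y q) ≤ 1 := by
      have := fin_bt_nonneg z y q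
      have h2 : (0 : ℝ) ≤ ((P.filter (fun p => p ∣ q)).card : ℝ) := Nat.cast_nonneg _
      linarith
    have hfull : f q * (1 - (1 / 2) * ((P.filter (fun p => p ∣ q)).card : ℝ) -
      (1 / 2) * bt z y q) ≤ Real.log n' := by
      calc f q * (1 - (1 / 2) * ((P.filter (fun p => p ∣ q)).card : ℝ) - (1 / 2) * bt z y q)
          ≤ f q * 1 := mul_le_mul_of_nonneg_left hW1 (hf0 q)
        _ ≤ Real.log n' := by rw [mul_one]; exact hfL q
    by_cases h0 : f q = 0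
    · rw [h0, zero_mul]
      exact hrhs
    have hη0 : η ((q : ℝ) / N) ≠ 0 := by
      intro h
      apply h0
      simp only [hf, h, mul_zero]
    have hlam0 : lam (n' - m * q) ≠ 0 := by
      intro h
      apply h0
      simp only [hf, h, zero_mul]
    by_cases h1 : q ∈ SQ
    · refine hfull.trans ?_
      rw [if_pos h1]
      have : (0 : ℝ) ≤ (if q ∈ PP then (1 : ℝ) else 0) := by split_ifs <;> norm_num
      nlinarith
    by_cases h2 : q ∈ PP
    · refine hfull.trans ?_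
      rw [if_pos h2, if_neg h1]
      linarith
    have hpr : (n' - m * q).Prime := by
      by_contra hcon
      exact h2 (mem_filter.2 ⟨hq1, hlam0, Or.inl hcon⟩)
    have hqpos : 0 < q := by
      rcases Nat.eq_zero_or_pos q with h | h
      · exfalso
        apply hη0
        rw [h]
        apply wt_zero_of_small η hη
        norm_num
      · exact h
    have hsq : ∀ p ∈ P, ¬ p ^ 2 ∣ q := by
      intro p hp hd
      apply h1
      rw [hSQ, mem_filter, mem_Ioc]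
      exact ⟨⟨hqpos, Nat.lt_succ_iff.1 (mem_range.1 hq1)⟩, p, hp, hd⟩
    have hE : n' - m * q ∉ E := fun hcon =>
      h2 (mem_filter.2 ⟨hq1, hlam0, Or.inr hcon⟩)
    have h3 := hno q hq1 hq2 hη0 hpr hE hsq
    exact (mul_nonpos_of_nonneg_of_nonpos (hf0 q) h3).trans hrhs
  -- the switched part
  have hB : ∀ q ∈ Q, f q * bt z y q ≤ Real.log n' *
      (if ∀ l ∈ pr y, q % l ∉ OmB w m n' l then bt z y q * η ((q : ℝ) / N) else 0) +
      Real.log n' * (if q ∈ PP then (1 : ℝ) else 0) := by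
    intro q hq
    obtain ⟨hq1, hq2⟩ := mem_filter.1 hq
    have hb0 := fin_bt_nonneg z y q
    have hη1 := hη.nonneg ((q : ℝ) / N)
    have hr1 : 0 ≤ Real.log n' *
      (if ∀ l ∈ pr y, q % l ∉ OmB w m n' l then bt z y q * η ((q : ℝ) / N) else 0) := by
      apply mul_nonneg hL
      split_ifs
      · exact mul_nonneg hb0 hη1
      · exact le_refl 0
    have hr2 : 0 ≤ Real.log n' * (if q ∈ PP then (1 : ℝ) else 0) := by
      apply mul_nonneg hL
      split_ifs <;> norm_num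
    by_cases h0 : f q = 0
    · rw [h0, zero_mul]
      linarith
    have hη0 : η ((q : ℝ) / N) ≠ 0 := by
      intro h
      apply h0
      simp only [hf, h, mul_zero]
    have hlam0 : lam (n' - m * q) ≠ 0 := by
      intro h
      apply h0
      simp only [hf, h, zero_mul]
    by_cases h2 : q ∈ PP
    · rw [if_pos h2, mul_one]
      have h3 : f q * bt z y q ≤ Real.log n' * 1 :=
        mul_le_mul (hfL q) (fin_bt_le_one z y q) hb0 hL
      linarith
    have hpr : (n' - m * q).Prime := by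
      by_contra hcon
      exact h2 (mem_filter.2 ⟨hq1, hlam0, Or.inl hcon⟩)
    have hyx := hbig q hq1 hη0
    rw [if_pos (fin_OmB hwz (hmq q hq1) hpr hyx (by omega) hq2)]
    have h3 : f q * bt z y q ≤ Real.log n' * (bt z y q * η ((q : ℝ) / N)) := by
      have h4 := fin_lam_le (Nat.sub_le n' (m * q))
      calc f q * bt z y q = lam (n' - m * q) * (bt z y q * η ((q : ℝ) / N)) := by
            simp only [hf]
            ring
        _ ≤ Real.log n' * (bt z y q * η ((q : ℝ) / N)) :=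
            mul_le_mul_of_nonneg_right h4 (mul_nonneg hb0 hη1)
    linarith
  have hsumSQ : ∑ q ∈ Q, (if q ∈ SQ then (1 : ℝ) else 0) ≤ (N : ℝ) / z := by
    refine le_trans ?_ (fin_card_sq (N := N) (z := z) (y := y) hz)
    rw [← sum_filter, sum_const, nsmul_eq_mul, mul_one]
    exact_mod_cast card_le_card (fun q hq => (mem_filter.1 hq).2)
  have hsumPP : ∑ q ∈ Q, (if q ∈ PP then (1 : ℝ) else 0) ≤
      3 * (Real.sqrt n' * Real.log n') + E.card := by
    refine le_trans ?_ (cae_card_pp E hm hn hn1)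
    rw [← sum_filter, sum_const, nsmul_eq_mul, mul_one]
    exact_mod_cast card_le_card (fun q hq => (mem_filter.1 hq).2)
  have hBsum : ∑ q ∈ Q, (if ∀ l ∈ pr y, q % l ∉ OmB w m n' l then bt z y q * η ((q : ℝ) / N)
      else 0) ≤ ∑ q ∈ (range (N + 1)).filter (fun q => ∀ l ∈ pr y, q % l ∉ OmB w m n' l),
        bt z y q * η ((q : ℝ) / N) := by
    rw [← sum_filter]
    apply sum_le_sum_of_subset_of_nonneg
    · intro q hq
      obtain ⟨hq1, hq2⟩ := mem_filter.1 hq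
      exact mem_filter.2 ⟨(mem_filter.1 hq1).1, hq2⟩
    · intro q _ _
      exact mul_nonneg (fin_bt_nonneg z y q) (hη.nonneg _)
  have hS1 := sum_le_sum hW
  have hS2 := sum_le_sum hB
  rw [← mul_sum, sum_add_distrib] at hS1
  rw [sum_add_distrib, ← mul_sum, ← mul_sum] at hS2
  have hS3 : ∑ q ∈ Q, f q * (1 - (1 / 2) * ((P.filter (fun p => p ∣ q)).card : ℝ) -
      (1 / 2) * bt z y q) = ∑ q ∈ Q, f q -
        (1 / 2) * ∑ q ∈ Q, f q * ((P.filter (fun p => p ∣ q)).card : ℝ) -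
        (1 / 2) * ∑ q ∈ Q, f q * bt z y q := by
    rw [mul_sum, mul_sum, ← sum_sub_distrib, ← sum_sub_distrib]
    apply sum_congr rfl
    intro q _
    ring
  rw [hS3] at hS1
  have hm1 := mul_le_mul_of_nonneg_left hsumSQ hL
  have hm2 := mul_le_mul_of_nonneg_left hsumPP hL
  have hm3 := mul_le_mul_of_nonneg_left hBsum hL
  have hnn : 0 ≤ Real.log n' * ((N : ℝ) / z) := by positivity
  nlinarith [hS1, hS2, hm1, hm2, hm3, hnn]

/-- a `q` of positive weight is good -/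
theorem cae_good (E : Finset ℕ) (h2 : St_Wt) {η : ℝ → ℝ} (hη : IsWt η) {N m n' w z y : ℕ} {δ : ℝ} (hm : 1 ≤ m)
    (hmN : m * N ≤ n') (hN100 : 100 ≤ N) (hwz : w ≤ z) (hzy : z ≤ y) (hy8 : 8 * (y + 1) < N)
    (hy3 : N ≤ y ^ 3) (hδ : 0 < δ) (hwδ : (N : ℝ) ^ δ ≤ (w : ℝ) + 1) (hN1 : (1 : ℝ) < N)
    (hcon : ∀ q : ℕ, 1 ≤ q → q ≤ N → (n' - m * q).Prime → n' - m * q ∉ E →
      Nat.IsAtMostAlmostPrime 2 q → ¬ Nat.IsAtMostAlmostPrime ⌈2 / δ⌉₊ (q ^ 2 - 2)) :
    ∀ q ∈ range (N + 1), (∀ l ∈ pr z, q % l ∉ OmA w m n' l) →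
      η ((q : ℝ) / N) ≠ 0 → (n' - m * q).Prime → n' - m * q ∉ E →
      (∀ p ∈ (pr y).filter (fun p => z < p), ¬ p ^ 2 ∣ q) →
      1 - (1 / 2) * ((((pr y).filter (fun p => z < p)).filter
        (fun p => p ∣ q)).card : ℝ) - (1 / 2) * bt z y q ≤ 0 := by
  intro q hq hA hη0 hpr hE hsq
  by_contra hW
  have hN0 : (0 : ℝ) < N := by linarith
  have hq1 : q ≤ N := Nat.lt_succ_iff.1 (mem_range.1 hq)
  have hmq : m * q ≤ n' := (Nat.mul_le_mul_left m hq1).trans hmN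
  obtain ⟨hs1, hs2⟩ := hη.supp _ hη0
  rw [lt_div_iff₀ hN0] at hs1
  rw [div_lt_iff₀ hN0] at hs2
  have hq2 : 8 * q < 7 * N := by
    have : (8 : ℝ) * q < 7 * N := by linarith
    exact_mod_cast this
  have hq3 : N < 8 * q := by
    have : (N : ℝ) < 8 * q := by linarith
    exact_mod_cast this
  have hx : y < n' - m * q := by
    have h5 : m * (N - q) ≤ n' - m * q := by
      rw [Nat.mul_sub]
      omega
    have h6 : N - q ≤ m * (N - q) := Nat.le_mul_of_pos_left _ (by omega)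
    omega
  have hzx : z < n' - m * q := by omega
  have hr := fin_rough hmq hpr hzx hA
  have hr2 := fin_rough2 hwz hmq hpr hzx (by omega) hA
  have hpz : ∀ p : ℕ, p.Prime → p ∣ q → z < p := by
    intro p hp hd
    by_contra h5
    exact hr p (fin_mem_pr.2 ⟨by omega, hp⟩) hd
  have hfe : ((pr y).filter (fun p => z < p)).filter (fun p => p ∣ q) =
      (pr y).filter (fun p => p ∣ q) := by
    rw [filter_filter]
    apply filter_congr
    intro p hp
    constructor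
    · rintro ⟨-, h5⟩
      exact h5
    · intro h5
      exact ⟨hpz p (fin_mem_pr.1 hp).2 h5, h5⟩
  rw [hfe, not_le] at hW
  have hO := h2 z y q (by omega) (by omega) hpz ?_ hW
  · refine hcon q (by omega) hq1 hpr hE hO ?_
    have h4q : 4 ≤ q := by omega
    have h5 : 2 < q ^ 2 := by nlinarith
    have h6 : q ^ 2 - 2 ≤ N ^ 2 := (Nat.sub_le _ _).trans (Nat.pow_le_pow_left hq1 2)
    have h7 : ((q ^ 2 - 2 : ℕ) : ℝ) ≤ (N : ℝ) ^ (2 : ℝ) := by
      rw [Real.rpow_two]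
      exact_mod_cast h6
    exact fin_Omega hN1 hδ (by omega) h7 hwδ (Nat.le_ceil _) hr2
  · intro p hp hpy hd
    exact hsq p (mem_filter.2 ⟨fin_mem_pr.2 ⟨hpy, hp⟩, hpz p hp ((dvd_pow_self p
      (by norm_num)).trans hd)⟩) hd

theorem cae_core (h0 : ∃ A0 : ℝ, 0 < A0 ∧ St_SA A0 ∧ St_SP A0 ∧ St_SB A0) (h1 : St_cB)
    (h2 : St_Wt) (h3 : St_VLow) (h4 : St_Dens) : ∃ R C : ℕ, ∀ A₀ : ℕ, ∀ᶠ N : ℕ in atTop,
    ∀ m n' : ℕ, Sit N m n' A₀ → ∀ E : Finset ℕ, (E.card : ℝ) ≤ N / Real.log N ^ C →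
      ∃ q : ℕ, 1 ≤ q ∧ q ≤ N ∧ (n' - m * q).Prime ∧ n' - m * q ∉ E ∧
      Nat.IsAtMostAlmostPrime 2 q ∧ Nat.IsAtMostAlmostPrime R (q ^ 2 - 2) := by
  obtain ⟨A0, hA0, hSA, hSP, hSB⟩ := h0
  obtain ⟨η, hη⟩ := exists_wt
  obtain ⟨κ, hκdef⟩ : ∃ κ : ℝ, κ = A0 * (Real.log 3 / 4) - A0 * (Real.log 6 / 4) / 2 -
    A0 * (cB / 4) / 2 := ⟨_, rfl⟩
  have hκ : 0 < κ := hκdef ▸ fin_kappa hA0 h1
  obtain ⟨ε, hεdef⟩ : ∃ ε : ℝ, ε = min (1 / 10) (κ / (2 * (3 + A0))) := ⟨_, rfl⟩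
  have hε : 0 < ε := hεdef ▸ lt_min (by norm_num) (by positivity)
  have hε1 : ε ≤ 1 / 10 := hεdef ▸ min_le_left _ _
  have hε2 : ε * (3 + A0) ≤ κ / 2 := by
    have h5 : ε ≤ κ / (2 * (3 + A0)) := hεdef ▸ min_le_right _ _
    rw [le_div_iff₀ (by positivity)] at h5
    linarith
  obtain ⟨δa, hδa, hSA⟩ := hSA η hη ε hε
  obtain ⟨δp, hδp, hSP⟩ := hSP η hη ε hε
  obtain ⟨δb, hδb, hSB⟩ := hSB η hη ε hε
  obtain ⟨δ, hδ, hδ1, hδ2, hδ3, hδ4⟩ : ∃ δ : ℝ, 0 < δ ∧ δ ≤ δa ∧ δ ≤ δp ∧ δ ≤ δb ∧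
      δ ≤ 1 / 20 := ⟨min (min δa δp) (min δb (1 / 20)),
    lt_min (lt_min hδa hδp) (lt_min hδb (by norm_num)),
    (min_le_left _ _).trans (min_le_left _ _), (min_le_left _ _).trans (min_le_right _ _),
    (min_le_right _ _).trans (min_le_left _ _), (min_le_right _ _).trans (min_le_right _ _)⟩
  obtain ⟨c, k, hc, hVL⟩ := h3
  refine ⟨⌈2 / δ⌉₊, k + 3, fun A₀ => ?_⟩
  have hκ2 : 0 < κ / 2 := by linarith
  filter_upwards [hSA δ hδ hδ1 A₀, hSP δ hδ hδ2 A₀, hSB δ hδ hδ3 A₀, fin_log_pow 2 A₀ hε,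
    fin_log_pow 2 0 (show (0 : ℝ) < 1 / 8 by norm_num),
    fin_log_pow 24 0 (show (0 : ℝ) < 2 / 3 by norm_num),
    fin_log_pow (96 / (κ / 2 * c)) (k + 2) (show (0 : ℝ) < 1 / 8 by norm_num),
    (Real.tendsto_log_atTop.comp tendsto_natCast_atTop_atTop).eventually_ge_atTop
      (24 / (κ * c)),
    eventually_ge_atTop 100] with N hSA hSP hSB hE1 hE2 hE3 hE4 hE5 hN100 m n' hSit E hE
  have hSA := hSA m n' hSit
  have hSP := hSP m n' hSit
  have hSB := hSB m n' hSit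
  obtain ⟨hm, hmlog, hcop, hpar, hmN, hmN1⟩ := hSit
  have hNr : (100 : ℝ) ≤ N := by exact_mod_cast hN100
  have hN0 : (0 : ℝ) < N := by linarith
  have hN1 : (1 : ℝ) ≤ N := by linarith
  rw [pow_zero, mul_one] at hE2 hE3
  have hLg : 1 ≤ Real.log N := by
    rw [Real.le_log_iff_exp_le hN0]
    have := Real.exp_one_lt_d9
    linarith
  -- the parameters
  have hz2 : 2 ≤ zN N := by
    unfold zN
    apply Nat.le_floor
    exact_mod_cast hE2.le
  have hzT : (N : ℝ) ^ (1 / 8 : ℝ) ≤ 2 * (zN N : ℝ) := by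
    have h5 : (N : ℝ) ^ (1 / 8 : ℝ) < (zN N : ℝ) + 1 := Nat.lt_floor_add_one _
    have h6 : (2 : ℝ) ≤ zN N := by exact_mod_cast hz2
    linarith
  have hzN : (zN N : ℝ) ≤ (N : ℝ) ^ (1 / 8 : ℝ) := Nat.floor_le (Real.rpow_nonneg hN0.le _)
  have hyge : (N : ℝ) ^ (1 / 3 : ℝ) ≤ yN N := Nat.le_ceil _
  have hylt : (yN N : ℝ) < (N : ℝ) ^ (1 / 3 : ℝ) + 1 := Nat.ceil_lt_add_one (Real.rpow_nonneg hN0.le _)
  have hT1 : 1 ≤ (N : ℝ) ^ (1 / 3 : ℝ) := Real.one_le_rpow hN1 (by norm_num)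
  have hy8 : 8 * (yN N + 1) < N := by
    have h5 : (N : ℝ) ^ (1 / 3 : ℝ) * (N : ℝ) ^ (2 / 3 : ℝ) = N := by
      rw [← Real.rpow_add hN0]
      norm_num
    have h6 : (8 : ℝ) * (yN N + 1) < N := by nlinarith
    exact_mod_cast h6
  have hzy : zN N ≤ yN N := by
    have h5 : (N : ℝ) ^ (1 / 8 : ℝ) ≤ (N : ℝ) ^ (1 / 3 : ℝ) :=
      Real.rpow_le_rpow_of_exponent_le hN1 (by norm_num)
    have h6 : (zN N : ℝ) ≤ yN N := by linarith
    exact_mod_cast h6
  have hwz : wN δ N ≤ zN N := by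
    unfold wN zN
    exact Nat.floor_le_floor (Real.rpow_le_rpow_of_exponent_le hN1 (by linarith))
  have hwδ : (N : ℝ) ^ δ ≤ (wN δ N : ℝ) + 1 := (Nat.lt_floor_add_one _).le
  have hy3 : N ≤ yN N ^ 3 := by
    have h5 : ((N : ℝ) ^ (1 / 3 : ℝ)) ^ 3 = N := by
      rw [← Real.rpow_natCast, ← Real.rpow_mul hN0.le]
      norm_num
    have h6 : ((N : ℝ) ^ (1 / 3 : ℝ)) ^ 3 ≤ (yN N : ℝ) ^ 3 :=
      pow_le_pow_left₀ (by linarith) hyge 3
    rw [h5] at h6
    exact_mod_cast h6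
  -- size of n'
  have hn'1 : 1 ≤ n' := by nlinarith
  have hn'r : (n' : ℝ) ≤ (N : ℝ) ^ (1 + ε) := by
    have h5 : (n' : ℝ) ≤ m * (N + 1) := by exact_mod_cast hmN1.le
    have h6 : (m : ℝ) * (N + 1) ≤ Real.log N ^ A₀ * (2 * N) :=
      mul_le_mul hmlog (by linarith) (by linarith) (by positivity)
    have h7 : Real.log N ^ A₀ * (2 * N) = (2 * Real.log N ^ A₀) * N := by ring
    have h8 : (2 * Real.log N ^ A₀) * N ≤ (N : ℝ) ^ ε * N :=
      mul_le_mul_of_nonneg_right hE1.le hN0.le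
    have h9 : (N : ℝ) ^ (1 + ε) = (N : ℝ) ^ ε * N := by
      rw [add_comm, Real.rpow_add hN0, Real.rpow_one]
    rw [h9]
    linarith
  have hL0 : 0 ≤ Real.log n' := Real.log_natCast_nonneg n'
  have hn'0 : (0 : ℝ) < n' := by exact_mod_cast hn'1
  have hL : Real.log n' ≤ (1 + ε) * Real.log N := by
    rw [← Real.log_rpow hN0]
    exact Real.log_le_log hn'0 hn'r
  have hsn : Real.sqrt n' ≤ (N : ℝ) ^ (7 / 8 : ℝ) := by
    rw [Real.sqrt_le_left (Real.rpow_nonneg hN0.le _), ← Real.rpow_natCast,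
      ← Real.rpow_mul hN0.le]
    refine hn'r.trans (Real.rpow_le_rpow_of_exponent_le hN1 ?_)
    push_cast
    linarith
  -- the unit
  have hI := fin_int hη
  have hV : c / Real.log N ^ k ≤ VV (gB (wN δ N) m n') (zN N) := by
    refine le_trans ?_ (hVL (zN N) (gB (wN δ N) m n') hz2 ?_)
    · have h5 : 0 < Real.log (zN N) := Real.log_pos (by exact_mod_cast hz2)
      have h6 : (zN N : ℝ) ≤ N := hzN.trans (by
        calc (N : ℝ) ^ (1 / 8 : ℝ) ≤ (N : ℝ) ^ (1 : ℝ) :=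
              Real.rpow_le_rpow_of_exponent_le hN1 (by norm_num)
          _ = N := Real.rpow_one _)
      have h7 : Real.log (zN N) ≤ Real.log N :=
        Real.log_le_log (by exact_mod_cast (by omega : 0 < zN N)) h6
      exact div_le_div_of_nonneg_left hc.le (pow_pos h5 k) (pow_le_pow_left₀ h5.le h7 k)
    · intro l hl
      obtain ⟨hD, -, -⟩ := h4 (wN δ N) m n' hm hcop hpar
      obtain ⟨-, -, -, -, -, h5, h6, h7⟩ := hD l hl
      exact ⟨h5, h6, h7⟩
  have hcl : 0 ≤ c / Real.log N ^ k := by positivity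
  have hU : (1 / 2) * N * (c / Real.log N ^ k) ≤ UU η δ N m n' := by
    unfold UU
    apply mul_le_mul _ hV hcl (by positivity)
    exact mul_le_mul_of_nonneg_right hI hN0.le
  have hU0 : 0 ≤ UU η δ N m n' := le_trans (by positivity) hU
  by_contra hcon
  push Not at hcon
  have hno := cae_good E h2 hη hm hmN (by omega) hwz hzy hy8 hy3 hδ hwδ (by linarith) hcon
  have hmain := cae_ineq E hη hm hmN (by omega : 1 ≤ zN N) hwz hzy hy8 hno
  have hSB0 := fin_SB_nonneg hη N (zN N) (yN N) (wN δ N) m n'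
  have hcB : cB ≤ 2 / 5 := h1
  have hkey := fin_alg hA0 hκdef hε hε2 hcB (by linarith : 0 < Real.log N) hL hU0 hSB0 hSA hSP hSB
    hmain hε1
  have hLg2 : Real.log n' ≤ 2 * Real.log N :=
    hL.trans (mul_le_mul_of_nonneg_right (by linarith) (by linarith))
  have hkey2 := cae_num hκ hc hN0 hLg hL0 hLg2 hU (Nat.cast_nonneg E.card) hE hE5 hkey
  refine fin_num (k := k) (N := N) (T := (N : ℝ) ^ (1 / 8 : ℝ)) (sq := (N : ℝ) ^ (7 / 8 : ℝ))
    hκ2 hc hN0 hLg hL0 hLg2 (Real.rpow_pos_of_pos hN0 _) hzT ?_ hU (Real.sqrt_nonneg _) hsn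
    hE4 hkey2
  rw [← Real.rpow_add hN0]
  norm_num

/-- keep this signature -/
theorem thm_ChenE (h0 : ∃ A0 : ℝ, 0 < A0 ∧ St_SA A0 ∧ St_SP A0 ∧ St_SB A0) (h1 : St_cB) (h2 : St_Wt) (h3 : St_VLow) (h4 : St_Dens) (h5 : Pool.Agent.GBQ.St_Red) : St_ChenE := by
  obtain ⟨R, C, hR⟩ := cae_core h0 h1 h2 h3 h4
  refine ⟨R, fun A₀ => ⟨C + A₀ + 1, ?_⟩⟩
  obtain ⟨N₀, hN₀⟩ := eventually_atTop.1 (hR (A₀ + 1))
  filter_upwards [fin_log_pow 2 A₀ (show (0 : ℝ) < 1 / 4 by norm_num),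
    fin_log_pow ((N₀ : ℝ) + 6) 0 (show (0 : ℝ) < 1 / 4 by norm_num),
    fin_log_pow (2 * Real.exp (2 ^ A₀)) 0 (show (0 : ℝ) < 1 / 4 by norm_num),
    eventually_ge_atTop 100] with n hE1 hE2 hE3 hn100 m hadm hmlog E hE
  rw [pow_zero, mul_one] at hE2 hE3
  have hnr : (100 : ℝ) ≤ n := by exact_mod_cast hn100
  have hn0 : (0 : ℝ) < n := by linarith
  have hn1 : (1 : ℝ) ≤ n := by linarith
  obtain ⟨r, hrm, hrn, hcop, hpar⟩ := h5 m n hadm
  have hm1 : 1 ≤ m := hadm.1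
  set n' := n - r with hn'
  set N := n' / m with hN
  have hmN : m * N ≤ n' := Nat.mul_div_le n' m
  have hmN1 : n' < m * (N + 1) := Nat.lt_mul_div_succ n' (by omega)
  -- size of N
  have hmr : (m : ℝ) ≤ (n : ℝ) ^ (1 / 4 : ℝ) := by
    have : 0 ≤ Real.log n ^ A₀ := pow_nonneg (Real.log_natCast_nonneg n) _
    linarith
  have hr0 : (1 : ℝ) ≤ (n : ℝ) ^ (1 / 4 : ℝ) := Real.one_le_rpow hn1 (by norm_num)
  have hnp : (n : ℝ) - m ≤ n' := by
    have h6 : n ≤ n' + m := by omega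
    have h7 : (n : ℝ) ≤ n' + m := by exact_mod_cast h6
    linarith
  have hN2 : (n : ℝ) ≤ m * ((N : ℝ) + 2) := by
    have h6 : (n' : ℝ) < m * ((N : ℝ) + 1) := by exact_mod_cast hmN1
    linarith
  have hsplit : (n : ℝ) = (n : ℝ) ^ (1 / 4 : ℝ) * (n : ℝ) ^ (3 / 4 : ℝ) := by
    rw [← Real.rpow_add hn0]
    norm_num
  have hN3 : (n : ℝ) ^ (3 / 4 : ℝ) ≤ (N : ℝ) + 2 := by
    have h6 : (m : ℝ) * ((N : ℝ) + 2) ≤ (n : ℝ) ^ (1 / 4 : ℝ) * ((N : ℝ) + 2) :=
      mul_le_mul_of_nonneg_right hmr (by positivity)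
    have h7 : (n : ℝ) ^ (1 / 4 : ℝ) * (n : ℝ) ^ (3 / 4 : ℝ) ≤
        (n : ℝ) ^ (1 / 4 : ℝ) * ((N : ℝ) + 2) := by
      rw [← hsplit]
      linarith
    exact le_of_mul_le_mul_left h7 (by linarith)
  have hs34 : (n : ℝ) ^ (3 / 4 : ℝ) = (n : ℝ) ^ (1 / 4 : ℝ) * (n : ℝ) ^ (1 / 2 : ℝ) := by
    rw [← Real.rpow_add hn0]
    norm_num
  have hh0 : (1 : ℝ) ≤ (n : ℝ) ^ (1 / 2 : ℝ) := Real.one_le_rpow hn1 (by norm_num)
  have hNhalf : (n : ℝ) ^ (1 / 2 : ℝ) ≤ N := by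
    have hN06 : (6 : ℝ) < (n : ℝ) ^ (1 / 4 : ℝ) := by
      have : (0 : ℝ) ≤ N₀ := Nat.cast_nonneg _
      linarith
    rw [hs34] at hN3
    nlinarith
  have hNN0 : N₀ ≤ N := by
    have h6 : (N₀ : ℝ) ≤ N := by
      have h7 : (n : ℝ) ^ (1 / 4 : ℝ) ≤ (n : ℝ) ^ (1 / 2 : ℝ) :=
        Real.rpow_le_rpow_of_exponent_le hn1 (by norm_num)
      linarith
    exact_mod_cast h6
  have hlogN : Real.log n ≤ 2 * Real.log N := by
    have h6 : Real.log ((n : ℝ) ^ (1 / 2 : ℝ)) ≤ Real.log N :=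
      Real.log_le_log (by linarith) hNhalf
    rw [Real.log_rpow hn0] at h6
    linarith
  have hlogN2 : (2 : ℝ) ^ A₀ ≤ Real.log N := by
    have h6 : Real.exp (2 ^ A₀) ≤ N := by
      have h7 : (n : ℝ) ^ (1 / 4 : ℝ) ≤ (n : ℝ) ^ (1 / 2 : ℝ) :=
        Real.rpow_le_rpow_of_exponent_le hn1 (by norm_num)
      have h8 : 0 < Real.exp (2 ^ A₀) := Real.exp_pos _
      linarith
    rw [Real.le_log_iff_exp_le (by linarith)]
    exact h6
  have hlog0 : 0 ≤ Real.log n := Real.log_natCast_nonneg n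
  have hlogN0 : 0 ≤ Real.log N := Real.log_natCast_nonneg N
  have hmlogN : (m : ℝ) ≤ Real.log N ^ (A₀ + 1) := by
    calc (m : ℝ) ≤ Real.log n ^ A₀ := hmlog
      _ ≤ (2 * Real.log N) ^ A₀ := pow_le_pow_left₀ hlog0 hlogN A₀
      _ = 2 ^ A₀ * Real.log N ^ A₀ := mul_pow _ _ _
      _ ≤ Real.log N * Real.log N ^ A₀ :=
          mul_le_mul_of_nonneg_right hlogN2 (pow_nonneg hlogN0 _)
      _ = Real.log N ^ (A₀ + 1) := by ring
  have hN6 : (6 : ℝ) ≤ N := by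
    have h7 : (n : ℝ) ^ (1 / 4 : ℝ) ≤ (n : ℝ) ^ (1 / 2 : ℝ) :=
      Real.rpow_le_rpow_of_exponent_le hn1 (by norm_num)
    have : (0 : ℝ) ≤ N₀ := Nat.cast_nonneg _
    linarith
  have hEN : (E.card : ℝ) ≤ N / Real.log N ^ C := by
    have h6 : (n : ℝ) ≤ Real.log n ^ A₀ * (2 * N) :=
      hN2.trans (mul_le_mul hmlog (by linarith) (by linarith) (pow_nonneg hlog0 _))
    have hNn : (N : ℝ) ≤ n := by
      have h7 : N ≤ n := by
        have h8 : N ≤ m * N := Nat.le_mul_of_pos_left _ (by omega)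
        omega
      exact_mod_cast h7
    have hlog2 : (2 : ℝ) ≤ Real.log n := by
      rw [Real.le_log_iff_exp_le hn0]
      have h8 : Real.exp 2 = Real.exp 1 * Real.exp 1 := by
        rw [← Real.exp_add]
        norm_num
      have h9 := Real.exp_one_lt_d9
      have h10 : 0 < Real.exp 1 := Real.exp_pos 1
      rw [h8]
      nlinarith
    have hlogNn : Real.log N ≤ Real.log n := Real.log_le_log (by linarith) hNn
    have hlogNp : 0 < Real.log N := Real.log_pos (by linarith)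
    have hlp : 0 < Real.log n := by linarith
    refine hE.trans ?_
    calc (n : ℝ) / Real.log n ^ (C + A₀ + 1)
        ≤ (Real.log n ^ A₀ * (2 * N)) / Real.log n ^ (C + A₀ + 1) :=
          div_le_div_of_nonneg_right h6 (pow_nonneg hlog0 _)
      _ = (2 / Real.log n) * (N / Real.log n ^ C) := by
          rw [pow_succ, pow_add]
          field_simp
      _ ≤ 1 * (N / Real.log n ^ C) := by
          apply mul_le_mul_of_nonneg_right _ (by positivity)
          rw [div_le_one hlp]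
          exact hlog2
      _ = N / Real.log n ^ C := one_mul _
      _ ≤ N / Real.log N ^ C :=
          div_le_div_of_nonneg_left (by linarith) (pow_pos hlogNp _)
            (pow_le_pow_left₀ hlogNp.le hlogNn _)
  obtain ⟨q, hq1, hqN, hpr, hqE, hO2, hOR⟩ :=
    hN₀ N hNN0 m n' ⟨hm1, hmlogN, hcop, hpar, hmN, hmN1⟩ E hEN
  have hmq : m * q ≤ n' := (Nat.mul_le_mul_left m hqN).trans hmN
  have hmq1 : 1 ≤ m * q := Nat.one_le_iff_ne_zero.2 (Nat.mul_ne_zero (by omega) (by omega))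
  have hdiv : (n - (n' - m * q)) / m = q := by
    have h6 : n - (n' - m * q) = r + m * q := by omega
    rw [h6, Nat.add_mul_div_left _ _ (by omega), Nat.div_eq_of_lt hrm, zero_add]
  have hq2 : 2 ≤ q := by
    by_contra hlt
    have h5 : q ≤ 1 := by omega
    have h6 : q ^ 2 - 2 = 0 := by
      have : q ^ 2 ≤ 1 ^ 2 := Nat.pow_le_pow_left h5 2
      omega
    exact hOR.1 h6
  refine ⟨n' - m * q, hqE, hpr, by omega, ?_, ?_, ?_⟩
  · rw [hdiv]
    exact hq2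
  · rw [hdiv]
    exact hO2
  · rw [hdiv]
    exact hOR

end Pool.Agent.CAE
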