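import Mathlib
import Pool.Agent.CAE.Stmts2
import Pool.Agent.EVN.QKO
import Pool.Agent.EVN.Ome

set_option autoImplicit false

/-!
# CAE / Om8: few `p` with many prime factors of `p_q - q + 1`
-/

namespace Pool.Agent.CAE

open Finset Filter Pool.Agent.EVN
open Pool.Agent.Helper20.TwinIndex (pr pr_prime pr_strictMono pr_mono pi_pr lt_pr cheb)

private theorem Om8_mem {m n x : ℕ} : x ∈ badOm m n ↔ x < n ∧ 2 ≤ (n - x) / m ∧
    8 * Real.log (Real.log n) < (ArithmeticFunction.cardFactors (qko_f ((n - x) / m)) : ℝ) := by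
  unfold badOm qko_f
  rw [mem_filter, mem_range]

private theorem Om8_card {m n : ℕ} (hm : 1 ≤ m) :
    (badOm m n).card ≤ m * ((Icc 2 (n / m)).filter
      (fun q => 8 * Real.log (Real.log n) <
        (ArithmeticFunction.cardFactors (qko_f q) : ℝ))).card := by
  classical
  refine card_le_mul_card_image_of_maps_to (f := fun x => (n - x) / m) ?_ m ?_
  · intro x hx
    obtain ⟨h1, h2, h3⟩ := Om8_mem.1 hx
    exact mem_filter.2 ⟨mem_Icc.2 ⟨h2, Nat.div_le_div_right (Nat.sub_le _ _)⟩, h3⟩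
  · intro q _
    have h1 : ((badOm m n).filter (fun x => (n - x) / m = q)).card ≤
        (Ico (m * q) (m * q + m)).card := by
      apply card_le_card_of_injOn (fun x => n - x)
      · intro x hx
        obtain ⟨h2, h3⟩ := mem_filter.1 hx
        have h4 : m * ((n - x) / m) ≤ n - x := Nat.mul_div_le _ _
        have h5 : n - x < m * ((n - x) / m + 1) := Nat.lt_mul_div_succ _ (by omega)
        rw [mem_coe, mem_Ico]
        rw [h3] at h4 h5
        exact ⟨h4, by rwa [Nat.mul_add, Nat.mul_one] at h5⟩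
      · intro a ha b hb hab
        have h2 := (Om8_mem.1 (mem_filter.1 ha).1).1
        have h3 := (Om8_mem.1 (mem_filter.1 hb).1).1
        have hab' : n - a = n - b := hab
        omega
    rwa [Nat.card_Ico, Nat.add_sub_cancel_left] at h1

theorem thm_Om8 : St_Om8 := by
  intro ε hε
  classical
  obtain ⟨C, hC, hO⟩ := thm_Ome
  have hL : Tendsto (fun n : ℕ => Real.log n) atTop atTop :=
    Real.tendsto_log_atTop.comp tendsto_natCast_atTop_atTop
  have e1 : ∀ᶠ n : ℕ in atTop, 360 * C / ε ≤ Real.log n ^ (1 / 10 : ℝ) :=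
    ((tendsto_rpow_atTop (by norm_num : (0 : ℝ) < 1 / 10)).comp hL).eventually_ge_atTop _
  filter_upwards [e1, hL.eventually_ge_atTop 6] with n he hL6 m hm
  have hcard := Om8_card (n := n) hm
  set L := Real.log n with hLdef
  set N := n / m with hN
  have hL0 : (0 : ℝ) < L := by linarith
  have hRHS : 0 ≤ ε * ((n : ℝ) / L ^ 3) := by positivity
  rcases Nat.lt_or_ge N 2 with h2 | h2
  · have h3 : (Icc 2 N) = ∅ := Icc_eq_empty (by omega)
    rw [h3, filter_empty, card_empty, mul_zero] at hcard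
    have h4 : (badOm m n).card = 0 := by omega
    rw [h4]
    simpa using hRHS
  have hn0 : 0 < n := by
    rcases Nat.eq_zero_or_pos n with h | h
    · rw [hN, h, Nat.zero_div] at h2
      omega
    · exact h
  have hNr : (2 : ℝ) ≤ N := by exact_mod_cast h2
  have hNn : (N : ℝ) ≤ n := by exact_mod_cast Nat.div_le_self n m
  have hlK : 0 ≤ Real.log N := Real.log_nonneg (by linarith)
  have hlKL : Real.log N ≤ L := Real.log_le_log (by linarith) hNn
  obtain ⟨hp1, hp2⟩ := qko_pr h2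
  set T := 8 * Real.log L with hT
  set B := (Icc 2 N).filter (fun q => T < (ArithmeticFunction.cardFactors (qko_f q) : ℝ)) with hB
  have hX : 2 ≤ pr N := (pr_prime N).two_le
  have hB1 : B.card ≤ ((Icc 1 (pr N)).filter
      (fun v => T < (ArithmeticFunction.cardFactors v : ℝ))).card := by
    refine card_le_card_of_injOn qko_f ?_ ?_
    · intro q hq
      rw [hB, mem_coe, mem_filter, mem_Icc] at hq
      rw [mem_coe, mem_filter, mem_Icc]
      refine ⟨⟨?_, ?_⟩, hq.2⟩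
      · exact Nat.succ_le_of_lt (Nat.succ_pos _)
      · have h4 : pr q ≤ pr N := pr_mono hq.1.2
        have h6 : q < pr q := lt_pr (by omega)
        have h7 := hq.1.1
        change pr q - q + 1 ≤ pr N
        omega
    · intro q hq q' hq' h
      rw [hB, mem_coe, mem_filter, mem_Icc] at hq hq'
      exact qko_inj hq.1.1 hq'.1.1 h
  have hB2 : (B.card : ℝ) ≤ C * pr N * Real.log (pr N) ^ (9 / 10 : ℝ) * (19 / 10 : ℝ) ^ (-T) :=
    (Nat.cast_le.2 hB1).trans (hO (pr N) T hX)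
  have hk : 0 < 1 + Real.log N := by linarith
  have hlp : 0 ≤ Real.log (pr N) := Real.log_natCast_nonneg _
  have g0 : (0 : ℝ) < L ^ (9 / 10 : ℝ) := Real.rpow_pos_of_pos hL0 _
  have g1 : Real.log (pr N) ^ (9 / 10 : ℝ) ≤ 3 * L ^ (9 / 10 : ℝ) := by
    calc Real.log (pr N) ^ (9 / 10 : ℝ) ≤ (3 * L) ^ (9 / 10 : ℝ) :=
          Real.rpow_le_rpow hlp (by linarith) (by norm_num)
      _ = 3 ^ (9 / 10 : ℝ) * L ^ (9 / 10 : ℝ) := Real.mul_rpow (by norm_num) hL0.le
      _ ≤ 3 * L ^ (9 / 10 : ℝ) := by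
          refine mul_le_mul_of_nonneg_right ?_ g0.le
          calc (3 : ℝ) ^ (9 / 10 : ℝ) ≤ 3 ^ (1 : ℝ) :=
                Real.rpow_le_rpow_of_exponent_le (by norm_num) (by norm_num)
            _ = 3 := Real.rpow_one _
  have g2 : (19 / 10 : ℝ) ^ (-T) ≤ (L ^ 5)⁻¹ := qko_z L (by linarith)
  have g3 : (B.card : ℝ) ≤ C * (60 * N * (2 * L)) * (3 * L ^ (9 / 10 : ℝ)) * (L ^ 5)⁻¹ := by
    refine hB2.trans ?_
    have g4 : (pr N : ℝ) ≤ 60 * N * (2 * L) :=
      hp2.trans (mul_le_mul_of_nonneg_left (by linarith) (by positivity))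
    refine mul_le_mul (mul_le_mul (mul_le_mul_of_nonneg_left g4 hC.le) g1
      (Real.rpow_nonneg hlp _) (by positivity)) g2 (by positivity) (by positivity)
  have g5 : L * L ^ (9 / 10 : ℝ) * (L ^ 5)⁻¹ = (L ^ 3)⁻¹ * (L ^ (1 / 10 : ℝ))⁻¹ := by
    have g6 : L ^ 5 = L * L ^ 3 * (L ^ (9 / 10 : ℝ) * L ^ (1 / 10 : ℝ)) := by
      rw [← Real.rpow_add hL0]
      norm_num
      ring
    have g8 : (0 : ℝ) < L ^ (1 / 10 : ℝ) := Real.rpow_pos_of_pos hL0 _
    rw [g6]
    field_simp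
  have g8 : (0 : ℝ) < L ^ (1 / 10 : ℝ) := Real.rpow_pos_of_pos hL0 _
  have hmN : (m : ℝ) * N ≤ n := by exact_mod_cast Nat.mul_div_le n m
  have g9 : 360 * C * (L ^ (1 / 10 : ℝ))⁻¹ ≤ ε := by
    rw [← div_eq_mul_inv, div_le_iff₀ g8, mul_comm ε]
    exact (div_le_iff₀ hε).1 he
  calc ((badOm m n).card : ℝ) ≤ m * B.card := by exact_mod_cast hcard
    _ ≤ m * (C * (60 * N * (2 * L)) * (3 * L ^ (9 / 10 : ℝ)) * (L ^ 5)⁻¹) :=
        mul_le_mul_of_nonneg_left g3 (Nat.cast_nonneg m)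
    _ = 360 * C * (m * N) * (L * L ^ (9 / 10 : ℝ) * (L ^ 5)⁻¹) := by ring
    _ = (360 * C * (L ^ (1 / 10 : ℝ))⁻¹) * ((m * N) * (L ^ 3)⁻¹) := by
        rw [g5]
        ring
    _ ≤ ε * (n * (L ^ 3)⁻¹) := by
        apply mul_le_mul g9 _ (by positivity) hε.le
        exact mul_le_mul_of_nonneg_right hmN (by positivity)
    _ = ε * (n / L ^ 3) := by rw [div_eq_mul_inv]

end Pool.Agent.CAE
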