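import Mathlib
import Pool.Agent.CAE.Stmts2
import Pool.Agent.GBQ.Red

set_option autoImplicit false

/-!
# CAE / RedM

Sieve of Eratosthenes and Legendre in an interval (as in `GBQ/Good.lean`): among `L` consecutive
integers at least `L φ(m)/m - 2^ω(m)` are coprime to `m`.  For small `m` the set is not empty
(`GBQ.thm_Red`).
-/

namespace Pool.Agent.CAE

open Finset Filter Pool.Agent.MT Pool.Agent.CH Pool.Agent.CU Pool.Agent.CV

private theorem redM_card_mul {p : ℕ} (hp : p.Prime) (S : Finset ℕ) (hS : ∀ q ∈ S, q.Prime)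
    (hpS : p ∉ S) (a b : ℕ) :
    ((Ioc a b).filter (fun j => p ∣ j ∧ ∀ q ∈ S, ¬ q ∣ j)).card =
      ((Ioc (a / p) (b / p)).filter (fun j => ∀ q ∈ S, ¬ q ∣ j)).card := by
  symm
  refine Finset.card_bij (fun j _ => p * j) ?_ ?_ ?_
  · intro j hj
    rw [Finset.mem_filter, Finset.mem_Ioc] at hj
    rw [Finset.mem_filter, Finset.mem_Ioc]
    obtain ⟨⟨h1, h2⟩, h3⟩ := hj
    refine ⟨⟨?_, ?_⟩, dvd_mul_right p j, ?_⟩
    · rw [Nat.div_lt_iff_lt_mul hp.pos] at h1
      rw [mul_comm]
      exact h1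
    · rw [Nat.le_div_iff_mul_le hp.pos] at h2
      rw [mul_comm]
      exact h2
    · intro q hq hd
      rcases (hS q hq).dvd_mul.mp hd with h | h
      · rw [Nat.prime_dvd_prime_iff_eq (hS q hq) hp] at h
        exact hpS (h ▸ hq)
      · exact h3 q hq h
  · intro j _ j' _ h
    exact Nat.eq_of_mul_eq_mul_left hp.pos h
  · intro x hx
    rw [Finset.mem_filter, Finset.mem_Ioc] at hx
    obtain ⟨⟨h1, h2⟩, ⟨j, rfl⟩, h3⟩ := hx
    refine ⟨j, ?_, rfl⟩
    rw [Finset.mem_filter, Finset.mem_Ioc]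
    refine ⟨⟨?_, ?_⟩, ?_⟩
    · rw [Nat.div_lt_iff_lt_mul hp.pos, mul_comm]
      exact h1
    · rw [Nat.le_div_iff_mul_le hp.pos, mul_comm]
      exact h2
    · intro q hq hd
      exact h3 q hq (Dvd.dvd.mul_left hd p)

private theorem redM_rho (S : Finset ℕ) (hS : ∀ p ∈ S, 2 ≤ p) :
    0 ≤ ∏ p ∈ S, (1 - 1 / (p : ℝ)) ∧ ∏ p ∈ S, (1 - 1 / (p : ℝ)) ≤ 1 := by
  have h : ∀ p ∈ S, 0 ≤ 1 - 1 / (p : ℝ) ∧ 1 - 1 / (p : ℝ) ≤ 1 := by
    intro p hp
    have h2 : (2 : ℝ) ≤ p := by exact_mod_cast hS p hp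
    have h3 : 1 / (p : ℝ) ≤ 1 := by
      rw [div_le_one (by linarith)]
      linarith
    have h4 : 0 ≤ 1 / (p : ℝ) := by positivity
    exact ⟨by linarith, by linarith⟩
  exact ⟨Finset.prod_nonneg fun p hp => (h p hp).1,
    Finset.prod_le_one (fun p hp => (h p hp).1) fun p hp => (h p hp).2⟩

private theorem redM_sieve (S : Finset ℕ) : (∀ p ∈ S, p.Prime) → ∀ a b : ℕ, a ≤ b →
    |(((Ioc a b).filter (fun j => ∀ p ∈ S, ¬ p ∣ j)).card : ℝ) -
      ((b : ℝ) - a) * ∏ p ∈ S, (1 - 1 / (p : ℝ))| ≤ 2 ^ S.card - 1 := by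
  induction S using Finset.induction_on with
  | empty =>
    intro _ a b hab
    simp [Nat.cast_sub hab]
  | insert p S hpS ih =>
    intro hS a b hab
    have hp : p.Prime := hS p (Finset.mem_insert_self p S)
    have hS' : ∀ q ∈ S, q.Prime := fun q hq => hS q (Finset.mem_insert_of_mem hq)
    have hsplit : ((Ioc a b).filter (fun j => ∀ q ∈ S, ¬ q ∣ j)).card =
        ((Ioc a b).filter (fun j => p ∣ j ∧ ∀ q ∈ S, ¬ q ∣ j)).card +
        ((Ioc a b).filter (fun j => ∀ q ∈ insert p S, ¬ q ∣ j)).card := by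
      rw [← Finset.card_union_of_disjoint]
      · congr 1
        ext j
        simp only [Finset.mem_filter, Finset.mem_union, Finset.forall_mem_insert]
        tauto
      · rw [Finset.disjoint_left]
        intro j h1 h2
        rw [Finset.mem_filter] at h1 h2
        exact h2.2 p (Finset.mem_insert_self p S) h1.2.1
    rw [redM_card_mul hp S hS' hpS a b] at hsplit
    have h1 := ih hS' a b hab
    have h2 := ih hS' (a / p) (b / p) (Nat.div_le_div_right hab)
    have hρ := redM_rho S fun q hq => (hS' q hq).two_le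
    rw [Finset.prod_insert hpS, Finset.card_insert_of_notMem hpS, pow_succ]
    set ρ := ∏ q ∈ S, (1 - 1 / (q : ℝ)) with hρd
    have hsplit' : (((Ioc a b).filter (fun j => ∀ q ∈ insert p S, ¬ q ∣ j)).card : ℝ) =
        (((Ioc a b).filter (fun j => ∀ q ∈ S, ¬ q ∣ j)).card : ℝ) -
        (((Ioc (a / p) (b / p)).filter (fun j => ∀ q ∈ S, ¬ q ∣ j)).card : ℝ) := by
      rw [hsplit]
      push_cast
      ring
    have hp0 : (0 : ℝ) < p := by exact_mod_cast hp.pos
    have hb1 : ((b / p : ℕ) : ℝ) ≤ b / p := Nat.cast_div_le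
    have hb2 : (b : ℝ) / p < ((b / p : ℕ) : ℝ) + 1 := by
      rw [div_lt_iff₀ hp0]
      have := Nat.lt_mul_div_succ b hp.pos
      have h3 : (b : ℝ) < p * (((b / p : ℕ) : ℝ) + 1) := by exact_mod_cast this
      linarith
    have ha1 : ((a / p : ℕ) : ℝ) ≤ a / p := Nat.cast_div_le
    have ha2 : (a : ℝ) / p < ((a / p : ℕ) : ℝ) + 1 := by
      rw [div_lt_iff₀ hp0]
      have := Nat.lt_mul_div_succ a hp.pos
      have h3 : (a : ℝ) < p * (((a / p : ℕ) : ℝ) + 1) := by exact_mod_cast this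
      linarith
    have h3 : |(((b / p : ℕ) : ℝ) - ((a / p : ℕ) : ℝ)) - ((b : ℝ) - a) / p| ≤ 1 := by
      rw [abs_le, sub_div]
      constructor <;> linarith
    have h4 : |((((b / p : ℕ) : ℝ) - ((a / p : ℕ) : ℝ)) - ((b : ℝ) - a) / p) * ρ| ≤ 1 := by
      rw [abs_mul, abs_of_nonneg hρ.1]
      exact mul_le_one₀ h3 hρ.1 hρ.2
    rw [hsplit']
    rw [abs_le] at h1 h2 h4 ⊢
    have e1 : ((b : ℝ) - a) * ((1 - 1 / (p : ℝ)) * ρ) =
        ((b : ℝ) - a) * ρ - ((b : ℝ) - a) / p * ρ := by ring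
    rw [e1]
    constructor <;> nlinarith [h1.1, h1.2, h2.1, h2.2, h4.1, h4.2]

private theorem redM_prod_ge (S : Finset ℕ) : (∀ p ∈ S, 2 ≤ p) →
    1 / ((S.card : ℝ) + 1) ≤ ∏ p ∈ S, (1 - 1 / (p : ℝ)) ∧ 4 ^ S.card ≤ 4 * ∏ p ∈ S, p := by
  induction S using Finset.induction_on_max with
  | empty => intro _; simp
  | insert a S hmax ih =>
    intro hS
    have haS : a ∉ S := fun h => lt_irrefl a (hmax a h)
    have ha2 : 2 ≤ a := hS a (Finset.mem_insert_self a S)
    have hS' : ∀ p ∈ S, 2 ≤ p := fun p hp => hS p (Finset.mem_insert_of_mem hp)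
    obtain ⟨h1, h2⟩ := ih hS'
    have hsub : S ⊆ Ico 2 a := by
      intro p hp
      rw [Finset.mem_Ico]
      exact ⟨hS' p hp, hmax p hp⟩
    have hcard : S.card ≤ a - 2 := by
      have := Finset.card_le_card hsub
      rwa [Nat.card_Ico] at this
    rw [Finset.prod_insert haS, Finset.prod_insert haS, Finset.card_insert_of_notMem haS]
    constructor
    · have hc : (S.card : ℝ) + 2 ≤ a := by
        have : S.card + 2 ≤ a := by omega
        exact_mod_cast this
      have h3 : 1 - 1 / ((S.card : ℝ) + 2) ≤ 1 - 1 / (a : ℝ) := by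
        have : 1 / (a : ℝ) ≤ 1 / ((S.card : ℝ) + 2) :=
          one_div_le_one_div_of_le (by positivity) hc
        linarith
      have h4 : 0 ≤ 1 - 1 / ((S.card : ℝ) + 2) := by
        have : 1 / ((S.card : ℝ) + 2) ≤ 1 := by
          rw [div_le_one (by positivity)]
          have : (0 : ℝ) ≤ S.card := Nat.cast_nonneg _
          linarith
        linarith
      have h5 : 1 / (((S.card + 1 : ℕ) : ℝ) + 1) =
          (1 - 1 / ((S.card : ℝ) + 2)) * (1 / ((S.card : ℝ) + 1)) := by
        push_cast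
        have h6 : (S.card : ℝ) + 2 ≠ 0 := by positivity
        have h7 : (S.card : ℝ) + 1 ≠ 0 := by positivity
        have h8 : (S.card : ℝ) + 1 + 1 ≠ 0 := by positivity
        field_simp
        ring
      rw [h5]
      exact mul_le_mul h3 h1 (by positivity) (h4.trans h3)
    · rw [pow_succ]
      rcases Nat.lt_or_ge a 4 with h4 | h4
      · have h5 : S.card ≤ 1 := by omega
        have hpos : 1 ≤ ∏ p ∈ S, p := Finset.one_le_prod' fun p hp => (by
          have := hS' p hp
          omega)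
        rcases Nat.lt_or_ge a 3 with h6 | h6
        · have h7 : S.card = 0 := by omega
          rw [h7]
          nlinarith
        · have h7 : a = 3 := by omega
          subst h7
          rcases Nat.eq_zero_or_pos S.card with h8 | h8
          · rw [h8]
            nlinarith
          · have h9 : S.card = 1 := by omega
            obtain ⟨x, hx⟩ := Finset.card_eq_one.mp h9
            subst hx
            have := hS' x (by simp)
            simp only [Finset.card_singleton, Finset.prod_singleton, pow_one]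
            omega
      · have h5 := Nat.mul_le_mul h2 h4
        have h6 : 4 * (a * ∏ x ∈ S, x) = (4 * ∏ p ∈ S, p) * a := by
          ring
        rw [h6]
        exact h5

private theorem redM_count (m a b : ℕ) (hm : 100000000 ≤ m) (hab : a ≤ b)
    (hL : (m : ℝ) - 1 ≤ 2 * ((b : ℝ) - a)) :
    1 / 4 * (m.totient : ℝ) ≤ (((Ioc a b).filter (fun j => j.Coprime m)).card : ℝ) := by
  have hm0 : m ≠ 0 := by omega
  have hmr : (100000000 : ℝ) ≤ m := by exact_mod_cast hm
  set S := m.primeFactors with hS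
  have hSp : ∀ p ∈ S, p.Prime := fun p hp => Nat.prime_of_mem_primeFactors hp
  have hS2 : ∀ p ∈ S, 2 ≤ p := fun p hp => (hSp p hp).two_le
  obtain ⟨h1, h2⟩ := redM_prod_ge S hS2
  have h3 := redM_sieve S hSp a b hab
  have hfil : (Ioc a b).filter (fun j => ∀ p ∈ S, ¬ p ∣ j) =
      (Ioc a b).filter (fun j => j.Coprime m) := by
    refine Finset.filter_congr fun j hj => ?_
    rw [Finset.mem_Ioc] at hj
    constructor
    · intro h
      refine Nat.Coprime.symm (Nat.Coprime.symm ?_)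
      rw [Nat.coprime_iff_gcd_eq_one]
      by_contra hne
      obtain ⟨p, hp, hpd⟩ := Nat.exists_prime_and_dvd hne
      refine h p ?_ (hpd.trans (Nat.gcd_dvd_left j m))
      rw [hS, Nat.mem_primeFactors]
      exact ⟨hp, hpd.trans (Nat.gcd_dvd_right j m), hm0⟩
    · intro h p hp hpj
      rw [hS, Nat.mem_primeFactors] at hp
      have := Nat.dvd_gcd hpj hp.2.1
      rw [Nat.coprime_iff_gcd_eq_one.mp h] at this
      exact hp.1.one_lt.ne' (Nat.dvd_one.mp this)
  rw [hfil] at h3
  set cnt : ℝ := (((Ioc a b).filter (fun j => j.Coprime m)).card : ℝ) with hcnt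
  set ρ : ℝ := ∏ p ∈ S, (1 - 1 / (p : ℝ)) with hρ
  have hprod : ∏ p ∈ S, p ≤ m := Nat.le_of_dvd (by omega) (Nat.prod_primeFactors_dvd m)
  have h4 : (4 : ℝ) ^ S.card ≤ 4 * m := by
    have : 4 ^ S.card ≤ 4 * m := h2.trans (Nat.mul_le_mul_left 4 hprod)
    exact_mod_cast this
  have h5 : (2 : ℝ) ^ S.card ≤ 2 * Real.sqrt m := by
    have h6 : ((2 : ℝ) ^ S.card) ^ 2 ≤ (2 * Real.sqrt m) ^ 2 := by
      rw [mul_pow, Real.sq_sqrt (by linarith), ← pow_mul, mul_comm, pow_mul]
      norm_num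
      linarith
    exact le_of_sq_le_sq h6 (by positivity)
  -- number of prime factors
  have h7 : (S.card : ℝ) + 1 ≤ 2 * (1 + Real.log m) := by
    have h8 : (2 : ℝ) ^ S.card ≤ m := by
      have h9 : 2 ^ S.card ≤ ∏ p ∈ S, p := by
        rw [← Finset.prod_const]
        exact Finset.prod_le_prod' hS2
      exact_mod_cast h9.trans hprod
    have h10 : (S.card : ℝ) * Real.log 2 ≤ Real.log m := by
      rw [← Real.log_pow]
      exact Real.log_le_log (by positivity) h8
    have h11 := Real.log_two_gt_d9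
    have h12 : (0 : ℝ) ≤ S.card := Nat.cast_nonneg _
    nlinarith
  have hlog0 : 0 ≤ Real.log m := Real.log_nonneg (by linarith)
  have h13 : 1 / (2 * (1 + Real.log m)) ≤ ρ :=
    (one_div_le_one_div_of_le (by positivity) h7).trans h1
  -- the size
  have hlog : 1 + Real.log m ≤ 5 * (m : ℝ) ^ (1 / 4 : ℝ) := by
    have h14 : Real.log m ≤ (m : ℝ) ^ (1 / 4 : ℝ) / (1 / 4 : ℝ) :=
      Real.log_le_rpow_div (by linarith) (by norm_num)
    have h15 : (1 : ℝ) ≤ (m : ℝ) ^ (1 / 4 : ℝ) :=
      Real.one_le_rpow (by linarith) (by norm_num)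
    linarith
  have hq : Real.sqrt m = (m : ℝ) ^ (1 / 4 : ℝ) * (m : ℝ) ^ (1 / 4 : ℝ) := by
    rw [Real.sqrt_eq_rpow, ← Real.rpow_add (by linarith)]
    norm_num
  have hq2 : Real.sqrt m * Real.sqrt m = m := Real.mul_self_sqrt (by linarith)
  set w : ℝ := (m : ℝ) ^ (1 / 4 : ℝ) with hw
  have hw100 : 100 ≤ w := by
    have h16 : ((100 : ℝ) ^ (4 : ℝ)) ^ (1 / 4 : ℝ) ≤ w := by
      refine Real.rpow_le_rpow (by positivity) ?_ (by norm_num)
      have : (100 : ℝ) ^ (4 : ℝ) = 100000000 := by norm_num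
      rw [this]
      exact hmr
    rw [← Real.rpow_mul (by norm_num)] at h16
    norm_num at h16
    exact h16
  have hmw : (m : ℝ) = w * w * (w * w) := by rw [← hq2, hq]
  -- conclusion: `cnt ≥ (m - 1)/2 ρ - 2 √m ≥ m ρ / 4`
  have h17 : ((b : ℝ) - a) * ρ - 2 * Real.sqrt m ≤ cnt := by
    rw [abs_le] at h3
    linarith [h3.1]
  have hρ0 : 0 ≤ ρ := le_trans (by positivity) h13
  have h18 : ((m : ℝ) - 1) / 2 * ρ ≤ ((b : ℝ) - a) * ρ :=
    mul_le_mul_of_nonneg_right (by linarith) hρ0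
  have h19 : 1 ≤ ρ * (2 * (1 + Real.log m)) := by
    rw [div_le_iff₀ (by positivity)] at h13
    exact h13
  have h20 : 1 ≤ ρ * (10 * w) := by
    refine h19.trans ?_
    refine mul_le_mul_of_nonneg_left ?_ hρ0
    linarith
  have h21 : 2 * Real.sqrt m ≤ ((m : ℝ) - 2) / 4 * ρ := by
    have h22 : 2 * Real.sqrt m ≤ 2 * Real.sqrt m * (ρ * (10 * w)) := by
      have : 0 ≤ 2 * Real.sqrt m := by positivity
      nlinarith
    refine h22.trans ?_
    have h23 : 2 * Real.sqrt m * (10 * w) ≤ ((m : ℝ) - 2) / 4 := by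
      rw [hq, hmw]
      have hw0 : 0 < w := by linarith
      have : 0 ≤ w * w * w := by positivity
      nlinarith
    calc 2 * Real.sqrt m * (ρ * (10 * w)) = ρ * (2 * Real.sqrt m * (10 * w)) := by ring
      _ ≤ ρ * (((m : ℝ) - 2) / 4) := mul_le_mul_of_nonneg_left h23 hρ0
      _ = ((m : ℝ) - 2) / 4 * ρ := by ring
  have h24 : (m : ℝ) / 4 * ρ ≤ cnt := by
    have : ((m : ℝ) - 1) / 2 * ρ - ((m : ℝ) - 2) / 4 * ρ = (m : ℝ) / 4 * ρ := by ring
    linarith
  have h25 : (m.totient : ℝ) = m * ρ := by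
    have h26 := Nat.totient_eq_mul_prod_factors m
    have h27 : ((m.totient : ℚ) : ℝ) = ((m * ∏ p ∈ m.primeFactors, (1 - (p : ℚ)⁻¹) : ℚ) : ℝ) := by
      rw [h26]
    push_cast at h27
    rw [h27, hρ]
    refine congrArg _ (Finset.prod_congr rfl fun p _ => ?_)
    rw [one_div]
  rw [h25]
  linarith

private theorem redM_window (m n : ℕ) (hmn : m ≤ n) :
    ((Ioc (n - m) n).filter (fun x => x.Coprime m ∧ (x + m) % 2 = 1)).card ≤
      ((range m).filter (fun r => (n - r).Coprime m ∧ (n - r + m) % 2 = 1)).card := by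
  refine Finset.card_le_card_of_injOn (fun x => n - x) ?_ ?_
  · intro x hx
    simp only [Finset.coe_filter, Finset.mem_Ioc, Set.mem_ofPred_eq] at hx
    simp only [Finset.coe_filter, Finset.mem_range, Set.mem_ofPred_eq]
    have e : n - (n - x) = x := by omega
    rw [e]
    exact ⟨by omega, hx.2⟩
  · intro x hx y hy h
    simp only [Finset.coe_filter, Finset.mem_Ioc, Set.mem_ofPred_eq] at hx hy
    simp only [] at h
    omega

private theorem redM_large (m n : ℕ) (hm : 100000000 ≤ m) (hmn : m ≤ n) :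
    1 / 4 * (m.totient : ℝ) ≤
      (((range m).filter (fun r => (n - r).Coprime m ∧ (n - r + m) % 2 = 1)).card : ℝ) := by
  have hmn' := redM_window m n hmn
  have hmr : (100000000 : ℝ) ≤ m := by exact_mod_cast hm
  rcases Nat.even_or_odd m with he | ho
  · have h1 := redM_count m (n - m) n hm (by omega) (by
      rw [Nat.cast_sub hmn]
      linarith)
    refine h1.trans ?_
    have h2 : ((Ioc (n - m) n).filter (fun j => j.Coprime m)).card ≤
        ((Ioc (n - m) n).filter (fun x => x.Coprime m ∧ (x + m) % 2 = 1)).card := by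
      refine Finset.card_le_card ?_
      intro x hx
      rw [Finset.mem_filter] at hx ⊢
      refine ⟨hx.1, hx.2, ?_⟩
      have h2m : 2 ∣ m := he.two_dvd
      have hx2 : ¬ 2 ∣ x := by
        intro h
        have := Nat.dvd_gcd h h2m
        rw [Nat.coprime_iff_gcd_eq_one.mp hx.2] at this
        omega
      omega
    exact_mod_cast h2.trans hmn'
  · have h1 := redM_count m ((n - m) / 2) (n / 2) hm (by omega) (by
      have h3 : m ≤ 2 * (n / 2 - (n - m) / 2) + 1 := by omega
      have h4 : (m : ℝ) ≤ 2 * ((n / 2 - (n - m) / 2 : ℕ) : ℝ) + 1 := by exact_mod_cast h3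
      rw [Nat.cast_sub (by omega)] at h4
      linarith)
    refine h1.trans ?_
    have h2 : ((Ioc ((n - m) / 2) (n / 2)).filter (fun j => j.Coprime m)).card ≤
        ((Ioc (n - m) n).filter (fun x => x.Coprime m ∧ (x + m) % 2 = 1)).card := by
      refine Finset.card_le_card_of_injOn (fun j => 2 * j) ?_ ?_
      · intro j hj
        simp only [Finset.coe_filter, Finset.mem_Ioc, Set.mem_ofPred_eq] at hj ⊢
        obtain ⟨k, hk⟩ := ho
        refine ⟨⟨by omega, by omega⟩, ?_, by omega⟩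
        refine Nat.Coprime.mul_left ?_ hj.2
        rw [Nat.coprime_two_left]
        exact ⟨k, hk⟩
      · intro x _ y _ h
        simp only [] at h
        omega
    exact_mod_cast h2.trans hmn'

/-- see `St_RedM` in `Stmts2.lean` -/
theorem thm_RedM : St_RedM := by
  refine ⟨1 / 100000000, by norm_num, fun m n h => ?_⟩
  have hφ0 : (0 : ℝ) ≤ m.totient := Nat.cast_nonneg _
  rcases Nat.lt_or_ge m 100000000 with hm | hm
  · obtain ⟨r, hr1, -, hr2, hr3⟩ := Pool.Agent.GBQ.thm_Red m n h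
    have h1 : 1 ≤ ((range m).filter
        (fun r => (n - r).Coprime m ∧ (n - r + m) % 2 = 1)).card :=
      Finset.card_pos.2 ⟨r, Finset.mem_filter.2 ⟨Finset.mem_range.2 hr1, hr2, hr3⟩⟩
    have h2 : (m.totient : ℝ) ≤ 100000000 := by
      have : m.totient ≤ 100000000 := (Nat.totient_le m).trans hm.le
      exact_mod_cast this
    have h3 : (1 : ℝ) ≤ (((range m).filter
        (fun r => (n - r).Coprime m ∧ (n - r + m) % 2 = 1)).card : ℝ) := by exact_mod_cast h1
    linarith
  · have h1 := redM_large m n hm (by have := h.2.1; omega)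
    linarith

end Pool.Agent.CAE
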