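import Mathlib
import Pool.Agent.CAE.Stmts2
import Pool.Agent.CU.DensT
import Pool.Agent.GBQ.RhoLow
import Pool.Agent.GBQ.LowA
import Pool.Agent.GBQ.M8

set_option autoImplicit false

/-!
# CAE / V2: the products of dimension two
-/

namespace Pool.Agent.CAE

open Finset Filter Pool.Agent.MT Pool.Agent.CH Pool.Agent.CU Pool.Agent.CV

/-- the sum of `1/l` -/
private theorem v2_recip : ∃ C : ℝ, ∀ z : ℕ, 2 ≤ z →
    ∑ l ∈ pr z, 1 / (l : ℝ) ≤ Real.log (Real.log z) + C := by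
  obtain ⟨c, hc, h⟩ := GBQ.thm_RhoLow
  refine ⟨-Real.log c, fun z hz => ?_⟩
  have h1 := h z hz
  have hz1 : (1 : ℝ) < z := by exact_mod_cast (by omega : 1 < z)
  have hlz : 0 < Real.log z := Real.log_pos hz1
  have h2 : GBQ.rho z ≤ Real.exp (-∑ l ∈ pr z, 1 / (l : ℝ)) := by
    unfold GBQ.rho
    rw [← sum_neg_distrib, Real.exp_sum]
    refine prod_le_prod (fun i hi => ?_) fun i hi => ?_
    · have hi2 : (2 : ℝ) ≤ i := by
        have := (GBQ.mem_pr.1 hi).2.two_le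
        exact_mod_cast this
      rw [sub_nonneg, div_le_one (by linarith)]
      linarith
    · have := Real.add_one_le_exp (-(1 / (i : ℝ)))
      linarith
  have h3 : 0 < c / Real.log z := div_pos hc hlz
  have h4 := Real.log_le_log h3 (h1.trans h2)
  rw [Real.log_exp, Real.log_div hc.ne' hlz.ne'] at h4
  linarith

/-- the sum of `g8` -/
private theorem v2_g8 : ∃ C : ℝ, ∀ z : ℕ, 2 ≤ z →
    ∑ l ∈ pr z, GBQ.g8 l ≤ Real.log (Real.log z) + C := by
  obtain ⟨C, h⟩ := GBQ.thm_G8 GBQ.thm_M8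
  refine ⟨C, fun z hz => ?_⟩
  refine le_trans (le_of_eq ?_) (h z hz)
  have hsub : GBQ.W8 0 z ⊆ pr z := by
    intro l hl
    unfold GBQ.W8 at hl
    unfold pr
    rw [mem_filter] at hl ⊢
    exact ⟨hl.1, hl.2.1⟩
  refine (sum_subset hsub fun l hl hn => ?_).symm
  unfold GBQ.g8
  rw [if_neg]
  intro h8
  apply hn
  unfold pr at hl
  unfold GBQ.W8
  rw [mem_filter] at hl ⊢
  exact ⟨hl.1, hl.2, hl.2.pos, h8⟩

/-- the sum of `1/(l (l-1))` -/
private theorem v2_tel (z : ℕ) (hz : 2 ≤ z) :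
    ∑ l ∈ pr z, 1 / ((l : ℝ) * (l - 1)) ≤ 1 := by
  have hsub : pr z ⊆ insert 2 (Ioc 2 z) := by
    intro l hl
    unfold pr at hl
    rw [mem_filter, mem_range] at hl
    rw [mem_insert, mem_Ioc]
    have := hl.2.two_le
    omega
  refine (sum_le_sum_of_subset_of_nonneg hsub fun i hi _ => ?_).trans ?_
  · have h2 : (2 : ℝ) ≤ i := by
      rw [mem_insert, mem_Ioc] at hi
      exact_mod_cast (by omega : 2 ≤ i)
    have : 0 < (i : ℝ) - 1 := by linarith
    positivity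
  · rw [sum_insert (by simp)]
    have h1 := GBQ.rhl_tel z hz
    have h2 : (0 : ℝ) ≤ 1 / z := by positivity
    have h3 : 1 / (((2 : ℕ) : ℝ) * (((2 : ℕ) : ℝ) - 1)) = 1 / 2 := by norm_num
    rw [h3]
    linarith

/-- one factor -/
private theorem v2_factor {g : ℝ} (h0 : 0 ≤ g) (h1 : g ≤ 1 / 2) :
    Real.exp (-(g + 2 * g ^ 2)) ≤ 1 - g := by
  have h2 : 0 < 1 - g := by linarith
  have h3 : 1 / (1 - g) ≤ Real.exp (g + 2 * g ^ 2) := by
    refine le_trans ?_ (Real.add_one_le_exp _)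
    rw [div_le_iff₀ h2]
    nlinarith [mul_nonneg h0 h0, mul_nonneg (mul_nonneg h0 h0) (by linarith : 0 ≤ 1 - 2 * g)]
  rw [Real.exp_neg]
  have h4 := inv_anti₀ (by positivity) h3
  rwa [one_div, inv_inv] at h4

/-- the general lower bound -/
private theorem v2_gen : ∃ c : ℝ, 0 < c ∧ ∀ (g : ℕ → ℝ) (z : ℕ), 2 ≤ z →
    (∀ l : ℕ, l.Prime → 0 ≤ g l ∧ g l ≤ 1 / 2 ∧ g l ≤ 4 / (l : ℝ)) →
    (∀ l : ℕ, l.Prime → g l ≤ 1 / (l : ℝ) + 1 / ((l : ℝ) * (l - 1)) + GBQ.g8 l) →
    c / Real.log z ^ 2 ≤ VV g z := by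
  obtain ⟨C₁, h1⟩ := v2_recip
  obtain ⟨C₂, h2⟩ := v2_g8
  refine ⟨Real.exp (-(C₁ + C₂ + 33)), Real.exp_pos _, fun g z hz hg hg2 => ?_⟩
  have hz1 : (1 : ℝ) < z := by exact_mod_cast (by omega : 1 < z)
  have hlz : 0 < Real.log z := Real.log_pos hz1
  have hmem : ∀ l ∈ pr z, l.Prime := by
    intro l hl
    unfold pr at hl
    exact (mem_filter.1 hl).2
  have h3 : Real.exp (-∑ l ∈ pr z, (g l + 2 * g l ^ 2)) ≤ VV g z := by
    unfold VV
    rw [← sum_neg_distrib, Real.exp_sum]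
    refine prod_le_prod (fun i _ => (Real.exp_pos _).le) fun l hl => ?_
    obtain ⟨h4, h5, -⟩ := hg l (hmem l hl)
    exact v2_factor h4 h5
  refine le_trans ?_ h3
  have h4 : ∑ l ∈ pr z, (g l + 2 * g l ^ 2) ≤ ∑ l ∈ pr z, (1 / (l : ℝ) +
      33 * (1 / ((l : ℝ) * (l - 1))) + GBQ.g8 l) := by
    refine sum_le_sum fun l hl => ?_
    have hl := hmem l hl
    obtain ⟨h4, -, h5⟩ := hg l hl
    have h6 := hg2 l hl
    have hl2 : (2 : ℝ) ≤ l := by exact_mod_cast hl.two_le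
    have h7 : g l ^ 2 ≤ 16 * (1 / ((l : ℝ) * (l - 1))) := by
      have h8 : g l ^ 2 ≤ (4 / (l : ℝ)) ^ 2 := pow_le_pow_left₀ h4 h5 2
      refine h8.trans ?_
      rw [div_pow, mul_one_div]
      have h9 : 0 < (l : ℝ) * (l - 1) := mul_pos (by linarith) (by linarith)
      have h10 : 0 < (l : ℝ) ^ 2 := by positivity
      rw [div_le_div_iff₀ h10 h9]
      nlinarith
    linarith
  have h5 : ∑ l ∈ pr z, (1 / (l : ℝ) + 33 * (1 / ((l : ℝ) * (l - 1))) + GBQ.g8 l) ≤
      2 * Real.log (Real.log z) + (C₁ + C₂ + 33) := by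
    rw [sum_add_distrib, sum_add_distrib, ← mul_sum]
    have h6 := h1 z hz
    have h7 := h2 z hz
    have h8 := v2_tel z hz
    linarith
  calc Real.exp (-(C₁ + C₂ + 33)) / Real.log z ^ 2
      = Real.exp (-(2 * Real.log (Real.log z) + (C₁ + C₂ + 33))) := by
        rw [show -(2 * Real.log (Real.log z) + (C₁ + C₂ + 33)) =
          -(C₁ + C₂ + 33) - Real.log (Real.log z ^ 2) by
            rw [Real.log_pow]; push_cast; ring, Real.exp_sub,
          Real.exp_log (by positivity)]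
    _ ≤ _ := Real.exp_le_exp.2 (neg_le_neg (h4.trans h5))

/-- the roots of two -/
private theorem v2_roots (l : ℕ) (hl : l.Prime) :
    ((densR l).card : ℝ) / ((l : ℝ) - 1) ≤ GBQ.g8 l := by
  have hl2 : (2 : ℝ) ≤ l := by exact_mod_cast hl.two_le
  have hl1 : 0 < (l : ℝ) - 1 := by linarith
  unfold GBQ.g8
  split_ifs with h
  · have h1 : ((densR l).card : ℝ) ≤ 2 := by exact_mod_cast dens_R_card l hl
    exact div_le_div_of_nonneg_right h1 hl1.le
  · have hsub : densR l ⊆ GBQ.lowSq l := by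
      intro c hc
      unfold densR at hc
      unfold GBQ.lowSq
      rw [mem_filter] at hc ⊢
      refine ⟨hc.1, hc.2.1, ?_⟩
      have h1 := (ZMod.natCast_eq_natCast_iff' (c ^ 2) 2 l).2 hc.2.2
      push_cast at h1
      exact h1
    rw [GBQ.lowSq_empty hl h, subset_empty] at hsub
    rw [hsub, card_empty, Nat.cast_zero, zero_div]

/-- [CAE V], first part -/
theorem thm_V2T : St_V2T := by
  obtain ⟨c, hc, h⟩ := v2_gen
  refine ⟨c, hc, fun w z hz => h _ z hz (fun l hl => ?_) fun l hl => ?_⟩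
  · obtain ⟨-, h1, h2, h3, -⟩ := thm_DensT.1 w l hl
    exact ⟨h1, h2, h3⟩
  · have hl2 : (2 : ℝ) ≤ l := by exact_mod_cast hl.two_le
    have hl1 : 0 < (l : ℝ) - 1 := by linarith
    have hl0 : 0 < (l : ℝ) := by linarith
    rw [densT_gT w l hl, add_div]
    have h1 : sT w l / (l : ℝ) ≤ ((densR l).card : ℝ) / ((l : ℝ) - 1) := by
      have h2 : sT w l ≤ ((densR l).card : ℝ) := by
        rw [densT_sT]
        exact_mod_cast card_le_card (densT_R_sub w l)
      have h3 : (0 : ℝ) ≤ ((densR l).card : ℝ) := Nat.cast_nonneg _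
      rw [div_le_div_iff₀ hl0 hl1]
      nlinarith
    have h2 := v2_roots l hl
    have h3 : 0 < 1 / ((l : ℝ) * (l - 1)) := by positivity
    linarith

/-- [CAE V], second part -/
theorem thm_V2A : St_V2A := by
  obtain ⟨c, hc, h⟩ := v2_gen
  refine ⟨c, hc, fun w m n' z hz hm hco hpar => h _ z hz (fun l hl => ?_) fun l hl => ?_⟩
  · obtain ⟨-, -, h1, h2, h3, -⟩ := (thm_Dens w m n' hm hco hpar).1 l hl
    exact ⟨h1, h2, h3⟩
  · have hl2 : (2 : ℝ) ≤ l := by exact_mod_cast hl.two_le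
    have hl1 : 0 < (l : ℝ) - 1 := by linarith
    have hl0 : 0 < (l : ℝ) := by linarith
    have hr := v2_roots l hl
    have hr0 : (0 : ℝ) ≤ ((densR l).card : ℝ) := Nat.cast_nonneg _
    have h3 : 0 < 1 / ((l : ℝ) * (l - 1)) := by positivity
    unfold gA
    split_ifs with hd
    · obtain ⟨h1, h2⟩ := dens_dvd w m n' l hl hd hco
      have h4 : ((OmA w m n' l).card : ℝ) ≤ 1 + ((densR l).card : ℝ) := by
        have h5 := card_le_card h2
        exact_mod_cast (by omega : (OmA w m n' l).card ≤ 1 + (densR l).card)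
      have h5 : ((OmA w m n' l).card : ℝ) / l ≤ 1 / (l : ℝ) +
          ((densR l).card : ℝ) / ((l : ℝ) - 1) := by
        have h6 : ((densR l).card : ℝ) / (l : ℝ) ≤ ((densR l).card : ℝ) / ((l : ℝ) - 1) := by
          rw [div_le_div_iff₀ hl0 hl1]
          nlinarith
        have h7 := div_le_div_of_nonneg_right h4 hl0.le
        rw [add_div] at h7
        linarith
      linarith
    · obtain ⟨h1, h2, -, -⟩ := dens_ndvd w m n' l hl hd
      have h4 : ((OmA w m n' l).card : ℝ) ≤ 1 + ((densR l).card : ℝ) := by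
        exact_mod_cast (by omega : (OmA w m n' l).card ≤ 1 + (densR l).card)
      have h5 := div_le_div_of_nonneg_right h4 hl1.le
      rw [add_div] at h5
      have h6 : 1 / ((l : ℝ) - 1) = 1 / (l : ℝ) + 1 / ((l : ℝ) * (l - 1)) := by
        field_simp
        ring
      linarith

end Pool.Agent.CAE
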