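import Mathlib
import Pool.Agent.CAE.Stmts
import Pool.Agent.CV.ZFin

set_option autoImplicit false

/-!
# CAE / ZFinE

The final argument for two prime factors, `n^κ ≤ m ≤ n^{1/3+ρ}`, over the tiles `x = n - m q - r`,
with a set `E` of forbidden primes (adapted from `Pool/Agent/CV/ZFin.lean`).
-/

namespace Pool.Agent.CAE

open Finset Filter Pool.Agent.MT Pool.Agent.CH Pool.Agent.CU Pool.Agent.CV

/-- the values of `r` for which `x` is a proper prime power or a forbidden prime power -/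
noncomputable def zfe_bad (E : Finset ℕ) (m n q : ℕ) : Finset ℕ := by
  classical
  exact (range m).filter (fun r => lam (n - m * q - r) ≠ 0 ∧ (¬ (n - m * q - r).Prime ∨ n - m * q - r ∈ E))

theorem zfe_mem_bad {E : Finset ℕ} {m n q r : ℕ} : r ∈ zfe_bad E m n q ↔
    r < m ∧ lam (n - m * q - r) ≠ 0 ∧ (¬ (n - m * q - r).Prime ∨ n - m * q - r ∈ E) := by
  unfold zfe_bad
  rw [mem_filter, mem_range]

/-- the values of `r` for which `x` is forbidden -/
noncomputable def zfe_forb (E : Finset ℕ) (m n q : ℕ) : Finset ℕ := by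
  classical
  exact (range m).filter (fun r => lam (n - m * q - r) ≠ 0 ∧ n - m * q - r ∈ E)

theorem zfe_mem_forb {E : Finset ℕ} {m n q r : ℕ} : r ∈ zfe_forb E m n q ↔
    r < m ∧ lam (n - m * q - r) ≠ 0 ∧ n - m * q - r ∈ E := by
  unfold zfe_forb
  rw [mem_filter, mem_range]

theorem zfe_sub (E : Finset ℕ) (m n q : ℕ) :
    (zfe_bad E m n q).card ≤ (ft_bad m n q).card + (zfe_forb E m n q).card := by
  classical
  refine (card_le_card (t := ft_bad m n q ∪ zfe_forb E m n q) fun r hr => ?_).trans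
    (card_union_le _ _)
  obtain ⟨h1, h2, h3⟩ := zfe_mem_bad.1 hr
  rcases h3 with h3 | h3
  · exact mem_union_left _ (ft_mem_bad.2 ⟨h1, h2, h3⟩)
  · exact mem_union_right _ (zfe_mem_forb.2 ⟨h1, h2, h3⟩)

/-- number of pairs for which `x` is forbidden -/
theorem zfe_card_forb (E : Finset ℕ) {N m n : ℕ} :
    ∑ q ∈ range (N + 1), ((zfe_forb E m n q).card : ℝ) ≤ E.card := by
  rw [← Nat.cast_sum, ← card_sigma]
  norm_cast
  apply card_le_card_of_injOn (fun u : (_ : ℕ) × ℕ => n - m * u.1 - u.2)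
  · intro u hu
    obtain ⟨hu1, hu2⟩ := mem_sigma.1 hu
    exact (zfe_mem_forb.1 hu2).2.2
  · intro u hu v hv huv
    obtain ⟨hu1, hu2⟩ := mem_sigma.1 hu
    obtain ⟨hr1, hr2, hr3⟩ := zfe_mem_forb.1 hu2
    obtain ⟨hv1, hv2⟩ := mem_sigma.1 hv
    obtain ⟨hs1, hs2, hs3⟩ := zfe_mem_forb.1 hv2
    have huv' : n - m * u.1 - u.2 = n - m * v.1 - v.2 := huv
    have hpu : n - m * u.1 - u.2 ≠ 0 := by
      intro h
      apply hr2
      rw [h]
      simp [lam]
    have h1 : u.2 + m * u.1 = v.2 + m * v.1 := by omega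
    have hm : 0 < m := by omega
    have h2 : (u.2 + m * u.1) / m = (v.2 + m * v.1) / m := by rw [h1]
    rw [Nat.add_mul_div_left _ _ hm, Nat.add_mul_div_left _ _ hm, Nat.div_eq_of_lt hr1,
      Nat.div_eq_of_lt hs1, zero_add, zero_add] at h2
    have h3 : u.2 = v.2 := by
      rw [h2] at h1
      omega
    exact Sigma.ext h2 (heq_of_eq h3)

/-- number of bad pairs -/
theorem zfe_card_bad (E : Finset ℕ) {N m n : ℕ} (hn1 : 1 ≤ n) :
    ∑ q ∈ range (N + 1), ((zfe_bad E m n q).card : ℝ) ≤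
      3 * (Real.sqrt n * Real.log n) + E.card := by
  calc ∑ q ∈ range (N + 1), ((zfe_bad E m n q).card : ℝ)
      ≤ ∑ q ∈ range (N + 1), (((ft_bad m n q).card : ℝ) + ((zfe_forb E m n q).card : ℝ)) :=
        sum_le_sum (fun q _ => by exact_mod_cast zfe_sub E m n q)
    _ = ∑ q ∈ range (N + 1), ((ft_bad m n q).card : ℝ) +
          ∑ q ∈ range (N + 1), ((zfe_forb E m n q).card : ℝ) := sum_add_distrib
    _ ≤ _ := add_le_add (ft_card_pp hn1) (zfe_card_forb E)

/-- the inequality between the three sums if there is no good pair -/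
theorem zfe_ineq (E : Finset ℕ) {η : ℝ → ℝ} (hη : IsWt η) {N m n w z y y' : ℕ} (hm : 1 ≤ m) (hn : m * N ≤ n)
    (hw : 1 ≤ w) (hwz : w ≤ z) (hN16 : 16 ≤ N) (hy : 16 * (y' + 1) ≤ m * N)
    (hno : ∀ q ∈ range (N + 1), (∀ l ∈ pr z, q % l ∉ OmZ w m l) → η ((q : ℝ) / N) ≠ 0 →
      (∃ r, r < m ∧ (n - m * q - r).Prime ∧ n - m * q - r ∉ E) → (∀ p ∈ (pr y).filter (fun p => z < p), ¬ p ^ 2 ∣ q) →
      (∀ l : ℕ, l.Prime → w < l → l ∣ m → ¬ l ∣ q) →
      1 - (1 / 2) * ((((pr y).filter (fun p => z < p ∧ ¬ p ∣ m)).filter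
        (fun p => p ∣ q)).card : ℝ) - (1 / 2) * bt z y q ≤ 0) :
    SSZ η w z N m n - (1 / 2) * ∑ p ∈ (pr y).filter (fun p => z < p ∧ ¬ p ∣ m),
        SSZp η w z p N m n ≤
      (1 / 2) * (Real.log n * SBZ η w z y y' N m n) +
      (3 / 2) * (Real.log n * (m * ((N : ℝ) / z + (m.primeFactors.card : ℝ) * ((N : ℝ) / w)) +
        (3 * (Real.sqrt n * Real.log n) + E.card))) := by
  have hN0 : 0 < N := by omega
  have hn1 : 1 ≤ n := (Nat.mul_pos hm hN0).trans_le hn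
  have hL : 0 ≤ Real.log n := Real.log_natCast_nonneg n
  have hNr : (0 : ℝ) < N := by exact_mod_cast hN0
  have hz : 1 ≤ z := hw.trans hwz
  unfold SSZ SSZp SBZ
  set Q := (range (N + 1)).filter (fun q => ∀ l ∈ pr z, q % l ∉ OmZ w m l) with hQ
  set f : ℕ → ℝ := fun q => tl η N m n q with hf
  set P := (pr y).filter (fun p => z < p ∧ ¬ p ∣ m) with hP
  set SQ := (Ioc 0 N).filter (fun q => ∃ p ∈ (pr y).filter (fun p => z < p), p ^ 2 ∣ q) with hSQ
  set SM := (Ioc 0 N).filter (fun q => ∃ l ∈ m.primeFactors.filter (fun l => w < l), l ∣ q)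
    with hSM
  rw [fin_double (fun q => ∀ l ∈ pr z, q % l ∉ OmZ w m l) P f, ← hQ]
  have hlam0 : ∀ x, 0 ≤ lam x := fin_lam_nonneg
  have hlamL : ∀ q r, lam (n - m * q - r) ≤ Real.log n := fun q r =>
    fin_lam_le ((Nat.sub_le _ _).trans (Nat.sub_le _ _))
  have hη0 : ∀ q : ℕ, 0 ≤ η ((q : ℝ) / N) := fun q => hη.nonneg _
  have hη1 : ∀ q : ℕ, η ((q : ℝ) / N) ≤ 1 := fun q => hη.le_one _
  have hf0 : ∀ q, 0 ≤ f q := fun q =>
    mul_nonneg (hη.nonneg _) (sum_nonneg (fun r _ => hlam0 _))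
  have hfL : ∀ q, f q ≤ m * Real.log n := fun q => by
    have h1 : ∑ r ∈ range m, lam (n - m * q - r) ≤ m * Real.log n := by
      calc ∑ r ∈ range m, lam (n - m * q - r) ≤ ∑ _r ∈ range m, Real.log n :=
            sum_le_sum (fun r _ => hlamL q r)
        _ = m * Real.log n := by rw [sum_const, card_range, nsmul_eq_mul]
    have h2 : 0 ≤ ∑ r ∈ range m, lam (n - m * q - r) := sum_nonneg (fun r _ => hlam0 _)
    calc f q = η ((q : ℝ) / N) * ∑ r ∈ range m, lam (n - m * q - r) := rfl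
      _ ≤ 1 * (m * Real.log n) := mul_le_mul (hη1 q) h1 h2 zero_le_one
      _ = m * Real.log n := one_mul _
  -- the weights
  have hW : ∀ q ∈ Q, f q * (1 - (1 / 2) * ((P.filter (fun p => p ∣ q)).card : ℝ) -
      (1 / 2) * bt z y q) ≤ Real.log n * (m * (if q ∈ SQ ∪ SM then (1 : ℝ) else 0) +
        ((zfe_bad E m n q).card : ℝ)) := by
    intro q hq
    obtain ⟨hq1, hq2⟩ := mem_filter.1 hq
    have hb0 : (0 : ℝ) ≤ ((zfe_bad E m n q).card : ℝ) := Nat.cast_nonneg _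
    have hsq0 : (0 : ℝ) ≤ m * (if q ∈ SQ ∪ SM then (1 : ℝ) else 0) := by
      apply mul_nonneg (Nat.cast_nonneg _)
      split_ifs <;> norm_num
    have hrhs : 0 ≤ Real.log n * (m * (if q ∈ SQ ∪ SM then (1 : ℝ) else 0) +
        ((zfe_bad E m n q).card : ℝ)) := mul_nonneg hL (by linarith)
    have hW1 : (1 - (1 / 2) * ((P.filter (fun p => p ∣ q)).card : ℝ) -
      (1 / 2) * bt z y q) ≤ 1 := by
      have := fin_bt_nonneg z y q
      have h2 : (0 : ℝ) ≤ ((P.filter (fun p => p ∣ q)).card : ℝ) := Nat.cast_nonneg _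
      linarith
    have hfW : f q * (1 - (1 / 2) * ((P.filter (fun p => p ∣ q)).card : ℝ) -
      (1 / 2) * bt z y q) ≤ f q := by
      calc f q * (1 - (1 / 2) * ((P.filter (fun p => p ∣ q)).card : ℝ) - (1 / 2) * bt z y q)
          ≤ f q * 1 := mul_le_mul_of_nonneg_left hW1 (hf0 q)
        _ = f q := mul_one _
    by_cases h1 : q ∈ SQ ∪ SM
    · refine (hfW.trans (hfL q)).trans ?_
      rw [if_pos h1, mul_one]
      have : 0 ≤ Real.log n * ((zfe_bad E m n q).card : ℝ) := mul_nonneg hL hb0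
      rw [mul_add]
      linarith
    by_cases h0 : f q = 0
    · rw [h0, zero_mul]
      exact hrhs
    have hηq : η ((q : ℝ) / N) ≠ 0 := by
      intro h
      apply h0
      simp only [hf, tl, h, zero_mul]
    have hqpos : 0 < q := by
      rcases Nat.eq_zero_or_pos q with h | h
      · exfalso
        apply hηq
        rw [h]
        apply wt_zero_of_small η hη
        norm_num
      · exact h
    have hq3 : q ∈ Ioc 0 N := mem_Ioc.2 ⟨hqpos, Nat.lt_succ_iff.1 (mem_range.1 hq1)⟩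
    have hsq : ∀ p ∈ (pr y).filter (fun p => z < p), ¬ p ^ 2 ∣ q := by
      intro p hp hd
      apply h1
      rw [mem_union]
      left
      rw [hSQ, mem_filter]
      exact ⟨hq3, p, hp, hd⟩
    have hsm : ∀ l : ℕ, l.Prime → w < l → l ∣ m → ¬ l ∣ q := by
      intro l hl1 hl2 hl3 hl4
      apply h1
      rw [mem_union]
      right
      rw [hSM, mem_filter]
      exact ⟨hq3, l, mem_filter.2 ⟨Nat.mem_primeFactors.2 ⟨hl1, hl3, by omega⟩, hl2⟩, hl4⟩
    by_cases hex : ∃ r, r < m ∧ (n - m * q - r).Prime ∧ n - m * q - r ∉ E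
    · exact (mul_nonpos_of_nonneg_of_nonpos (hf0 q)
        (hno q hq1 hq2 hηq hex hsq hsm)).trans hrhs
    · refine hfW.trans ?_
      have h2 : ∑ r ∈ range m, lam (n - m * q - r) ≤
          Real.log n * ((zfe_bad E m n q).card : ℝ) := by
        have h3 : ∑ r ∈ range m, lam (n - m * q - r) =
            ∑ r ∈ zfe_bad E m n q, lam (n - m * q - r) := by
          symm
          apply sum_subset
          · intro r hr
            exact mem_range.2 (zfe_mem_bad.1 hr).1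
          · intro r hr hr2
            by_contra hcon
            apply hr2
            refine zfe_mem_bad.2 ⟨mem_range.1 hr, hcon, ?_⟩
            by_contra hh
            push Not at hh
            exact hex ⟨r, mem_range.1 hr, hh.1, hh.2⟩
        rw [h3]
        calc ∑ r ∈ zfe_bad E m n q, lam (n - m * q - r) ≤ ∑ _r ∈ zfe_bad E m n q, Real.log n :=
              sum_le_sum (fun r _ => hlamL q r)
          _ = Real.log n * ((zfe_bad E m n q).card : ℝ) := by
              rw [sum_const, nsmul_eq_mul, mul_comm]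
      have h4 : 0 ≤ ∑ r ∈ range m, lam (n - m * q - r) := sum_nonneg (fun r _ => hlam0 _)
      have h5 : f q ≤ Real.log n * ((zfe_bad E m n q).card : ℝ) := by
        calc f q = η ((q : ℝ) / N) * ∑ r ∈ range m, lam (n - m * q - r) := rfl
          _ ≤ 1 * (Real.log n * ((zfe_bad E m n q).card : ℝ)) := mul_le_mul (hη1 q) h2 h4 zero_le_one
          _ = Real.log n * ((zfe_bad E m n q).card : ℝ) := one_mul _
      rw [if_neg h1, mul_zero, zero_add]
      exact h5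
  -- the switched part
  have hB : ∀ q ∈ Q, f q * bt z y q ≤ Real.log n *
      (bt z y q * η ((q : ℝ) / N) * (((range m).filter (fun r =>
        ∀ l ∈ pr y', ¬ l ∣ n - m * q - r)).card : ℝ)) +
      Real.log n * ((zfe_bad E m n q).card : ℝ) := by
    intro q hq
    obtain ⟨hq1, hq2⟩ := mem_filter.1 hq
    have hb0 := fin_bt_nonneg z y q
    have hb1 := fin_bt_le_one z y q
    set G := (range m).filter (fun r => ∀ l ∈ pr y', ¬ l ∣ n - m * q - r) with hG
    have hc0 : (0 : ℝ) ≤ ((zfe_bad E m n q).card : ℝ) := Nat.cast_nonneg _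
    have hg0 : (0 : ℝ) ≤ (G.card : ℝ) := Nat.cast_nonneg _
    by_cases hηq : η ((q : ℝ) / N) = 0
    · have h1 : f q = 0 := by simp only [hf, tl, hηq, zero_mul]
      rw [h1, zero_mul]
      have h2 : 0 ≤ bt z y q * η ((q : ℝ) / N) * (G.card : ℝ) :=
        mul_nonneg (mul_nonneg hb0 (hη0 q)) hg0
      have := mul_nonneg hL h2
      have := mul_nonneg hL hc0
      linarith
    have h8 : 8 * q < 7 * N := by
      have h1 := (hη.supp _ hηq).2
      rw [div_lt_iff₀ hNr] at h1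
      have : (8 : ℝ) * q < 7 * N := by linarith
      exact_mod_cast this
    have hpt : ∀ r ∈ range m, lam (n - m * q - r) ≤ Real.log n *
        ((if r ∈ G then (1 : ℝ) else 0) + (if r ∈ zfe_bad E m n q then (1 : ℝ) else 0)) := by
      intro r hr
      have hr1 := mem_range.1 hr
      by_cases hl0 : lam (n - m * q - r) = 0
      · rw [hl0]
        apply mul_nonneg hL
        split_ifs <;> norm_num
      by_cases hp : (n - m * q - r).Prime
      · obtain ⟨h1, h2⟩ := zf_big hn hr1 h8 hN16 hy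
        have h4 : r ∈ G := by
          rw [hG, mem_filter]
          refine ⟨hr, fun l hl hd => ?_⟩
          obtain ⟨hl1, hl2⟩ := fin_mem_pr.1 hl
          rcases (Nat.dvd_prime hp).1 hd with h5 | h5
          · exact hl2.one_lt.ne' h5
          · omega
        rw [if_pos h4]
        have h5 : (0 : ℝ) ≤ (if r ∈ zfe_bad E m n q then (1 : ℝ) else 0) := by
          split_ifs <;> norm_num
        have h6 := mul_nonneg hL h5
        rw [mul_add, mul_one]
        have h7 := hlamL q r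
        linarith
      · have h4 : r ∈ zfe_bad E m n q := zfe_mem_bad.2 ⟨hr1, hl0, Or.inl hp⟩
        rw [if_pos h4]
        have h5 : (0 : ℝ) ≤ (if r ∈ G then (1 : ℝ) else 0) := by
          split_ifs <;> norm_num
        have h6 := mul_nonneg hL h5
        rw [mul_add, mul_one]
        have h7 := hlamL q r
        linarith
    have hsum : ∑ r ∈ range m, lam (n - m * q - r) ≤
        Real.log n * ((G.card : ℝ) + ((zfe_bad E m n q).card : ℝ)) := by
      refine (sum_le_sum hpt).trans ?_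
      rw [← mul_sum, sum_add_distrib, ← sum_filter, ← sum_filter, sum_const, sum_const,
        nsmul_eq_mul, nsmul_eq_mul, mul_one, mul_one]
      apply mul_le_mul_of_nonneg_left _ hL
      apply add_le_add
      · exact_mod_cast card_le_card (fun r hr => (mem_filter.1 hr).2)
      · exact_mod_cast card_le_card (fun r hr => (mem_filter.1 hr).2)
    have hbη : 0 ≤ bt z y q * η ((q : ℝ) / N) := mul_nonneg hb0 (hη0 q)
    have hbη1 : bt z y q * η ((q : ℝ) / N) ≤ 1 := mul_le_one₀ hb1 (hη0 q) (hη1 q)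
    calc f q * bt z y q = (bt z y q * η ((q : ℝ) / N)) * ∑ r ∈ range m, lam (n - m * q - r) := by
          simp only [hf, tl]
          ring
      _ ≤ (bt z y q * η ((q : ℝ) / N)) *
          (Real.log n * ((G.card : ℝ) + ((zfe_bad E m n q).card : ℝ))) :=
          mul_le_mul_of_nonneg_left hsum hbη
      _ = Real.log n * (bt z y q * η ((q : ℝ) / N) * (G.card : ℝ)) +
          (bt z y q * η ((q : ℝ) / N)) * (Real.log n * ((zfe_bad E m n q).card : ℝ)) := by ring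
      _ ≤ Real.log n * (bt z y q * η ((q : ℝ) / N) * (G.card : ℝ)) +
          1 * (Real.log n * ((zfe_bad E m n q).card : ℝ)) :=
          add_le_add le_rfl (mul_le_mul_of_nonneg_right hbη1 (mul_nonneg hL hc0))
      _ = _ := by rw [one_mul]
  have hsumSQ : ∑ q ∈ Q, (m : ℝ) * (if q ∈ SQ ∪ SM then (1 : ℝ) else 0) ≤
      m * ((N : ℝ) / z + (m.primeFactors.card : ℝ) * ((N : ℝ) / w)) := by
    rw [← mul_sum]
    apply mul_le_mul_of_nonneg_left _ (Nat.cast_nonneg _)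
    refine le_trans ?_ (add_le_add (fin_card_sq (N := N) (z := z) (y := y) hz)
      (zf_card_m (N := N) (m := m) hw))
    rw [← sum_filter, sum_const, nsmul_eq_mul, mul_one]
    have h1 : (Q.filter (fun q => q ∈ SQ ∪ SM)).card ≤ SQ.card + SM.card :=
      (card_le_card (fun q hq => (mem_filter.1 hq).2)).trans (card_union_le _ _)
    exact_mod_cast h1
  have hsumPP : ∑ q ∈ Q, ((zfe_bad E m n q).card : ℝ) ≤
      3 * (Real.sqrt n * Real.log n) + E.card := by
    refine le_trans ?_ (zfe_card_bad E (N := N) (m := m) hn1)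
    apply sum_le_sum_of_subset_of_nonneg (filter_subset _ _)
    intro q _ _
    exact Nat.cast_nonneg _
  have hBsum : ∑ q ∈ Q, (bt z y q * η ((q : ℝ) / N) * (((range m).filter (fun r =>
      ∀ l ∈ pr y', ¬ l ∣ n - m * q - r)).card : ℝ)) ≤
      ∑ q ∈ (range (N + 1)).filter (fun q => ∀ l ∈ pr w, (q ^ 2) % l ≠ 2 % l),
        bt z y q * η ((q : ℝ) / N) * (((range m).filter (fun r =>
      ∀ l ∈ pr y', ¬ l ∣ n - m * q - r)).card : ℝ) := by
    apply sum_le_sum_of_subset_of_nonneg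
    · intro q hq
      obtain ⟨hq1, hq2⟩ := mem_filter.1 hq
      exact mem_filter.2 ⟨hq1, zf_sq hwz hq2⟩
    · intro q _ _
      exact mul_nonneg (mul_nonneg (fin_bt_nonneg z y q) (hη.nonneg _)) (Nat.cast_nonneg _)
  have hS1 := sum_le_sum hW
  have hS2 := sum_le_sum hB
  rw [← mul_sum, sum_add_distrib] at hS1
  rw [sum_add_distrib, ← mul_sum, ← mul_sum] at hS2
  have hS3 : ∑ q ∈ Q, f q * (1 - (1 / 2) * ((P.filter (fun p => p ∣ q)).card : ℝ) -
      (1 / 2) * bt z y q) = ∑ q ∈ Q, f q -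
        (1 / 2) * ∑ q ∈ Q, f q * ((P.filter (fun p => p ∣ q)).card : ℝ) -
        (1 / 2) * ∑ q ∈ Q, f q * bt z y q := by
    rw [mul_sum, mul_sum, ← sum_sub_distrib, ← sum_sub_distrib]
    apply sum_congr rfl
    intro q _
    ring
  rw [hS3] at hS1
  have hm1 := mul_le_mul_of_nonneg_left hsumSQ hL
  have hm2 := mul_le_mul_of_nonneg_left hsumPP hL
  have hm3 := mul_le_mul_of_nonneg_left hBsum hL
  have hnn : 0 ≤ Real.log n * (m * ((N : ℝ) / z + (m.primeFactors.card : ℝ) * ((N : ℝ) / w))) := by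
    positivity
  rw [mul_add] at hS1
  rw [mul_add (Real.log n)]
  linarith [hS1, hS2, hm1, hm2, hm3, hnn]

/-- a `q` of positive weight is good -/
theorem zfe_good (E : Finset ℕ) (h2 : St_Wt) {η : ℝ → ℝ} (hη : IsWt η) {N m n w z y : ℕ} {δ : ℝ}
    (hN100 : 100 ≤ N) (hwz : w ≤ z) (hy3 : N ≤ y ^ 3) (hδ : 0 < δ)
    (hwδ : (N : ℝ) ^ δ ≤ (w : ℝ) + 1) (hN1 : (1 : ℝ) < N)
    (hcon : ∀ q r : ℕ, 2 ≤ q → q ≤ N → r < m → (n - m * q - r).Prime → n - m * q - r ∉ E →
      Nat.IsAtMostAlmostPrime 2 q → ¬ Nat.IsAtMostAlmostPrime ⌈2 / δ⌉₊ (q ^ 2 - 2)) :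
    ∀ q ∈ range (N + 1), (∀ l ∈ pr z, q % l ∉ OmZ w m l) →
      η ((q : ℝ) / N) ≠ 0 → (∃ r, r < m ∧ (n - m * q - r).Prime ∧ n - m * q - r ∉ E) →
      (∀ p ∈ (pr y).filter (fun p => z < p), ¬ p ^ 2 ∣ q) →
      (∀ l : ℕ, l.Prime → w < l → l ∣ m → ¬ l ∣ q) →
      1 - (1 / 2) * ((((pr y).filter (fun p => z < p ∧ ¬ p ∣ m)).filter
        (fun p => p ∣ q)).card : ℝ) - (1 / 2) * bt z y q ≤ 0 := by
  rintro q hq hA hη0 ⟨r, hrm, hpr, hprE⟩ hsq hsm
  by_contra hW
  have hN0 : (0 : ℝ) < N := by linarith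
  have hq1 : q ≤ N := Nat.lt_succ_iff.1 (mem_range.1 hq)
  obtain ⟨hs1, hs2⟩ := hη.supp _ hη0
  rw [lt_div_iff₀ hN0] at hs1
  rw [div_lt_iff₀ hN0] at hs2
  have hq2 : 8 * q < 7 * N := by
    have : (8 : ℝ) * q < 7 * N := by linarith
    exact_mod_cast this
  have hq3 : N < 8 * q := by
    have : (N : ℝ) < 8 * q := by linarith
    exact_mod_cast this
  have hr := zf_rough hA hsm
  have hr2 := zf_rough2 hwz (by omega) hA
  have hpz : ∀ p : ℕ, p.Prime → p ∣ q → z < p := by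
    intro p hp hd
    by_contra h5
    exact hr p (fin_mem_pr.2 ⟨by omega, hp⟩) hd
  have hfe : ((pr y).filter (fun p => z < p ∧ ¬ p ∣ m)).filter (fun p => p ∣ q) =
      (pr y).filter (fun p => p ∣ q) := by
    rw [filter_filter]
    apply filter_congr
    intro p hp
    constructor
    · rintro ⟨-, h5⟩
      exact h5
    · intro h5
      have h6 := hpz p (fin_mem_pr.1 hp).2 h5
      exact ⟨⟨h6, fun h7 => hsm p (fin_mem_pr.1 hp).2 (by omega) h7 h5⟩, h5⟩
  rw [hfe, not_le] at hW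
  have hO := h2 z y q (by omega) (by omega) hpz ?_ hW
  · refine hcon q r (by omega) hq1 hrm hpr hprE hO ?_
    have h4q : 4 ≤ q := by omega
    have h5 : 2 < q ^ 2 := by
      have h6 : 4 ^ 2 ≤ q ^ 2 := Nat.pow_le_pow_left h4q 2
      omega
    have h6 : q ^ 2 - 2 ≤ N ^ 2 := (Nat.sub_le _ _).trans (Nat.pow_le_pow_left hq1 2)
    have h7 : ((q ^ 2 - 2 : ℕ) : ℝ) ≤ (N : ℝ) ^ (2 : ℝ) := by
      rw [Real.rpow_two]
      exact_mod_cast h6
    exact fin_Omega hN1 hδ (by omega) h7 hwδ (Nat.le_ceil _) hr2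
  · intro p hp hpy hd
    exact hsq p (mem_filter.2 ⟨fin_mem_pr.2 ⟨hpy, hp⟩, hpz p hp ((dvd_pow_self p
      (by norm_num)).trans hd)⟩) hd

/-- [CAE Z] -/
theorem thm_ZFinE (h0 : ∃ A0 : ℝ, 0 < A0 ∧ St_ZSA A0 ∧ St_ZSP A0 ∧ St_ZSB A0) (h1 : St_cB) (h2 : St_Wt) (h3 : St_VLow) (h4 : St_DensT) : St_ZFinE := by
  obtain ⟨A0, hA0, hSA, hSP, hSB⟩ := h0
  obtain ⟨η, hη⟩ := exists_wt
  obtain ⟨κ₀, hκdef⟩ : ∃ κ : ℝ, κ = A0 * (Real.log 3 / 4) - A0 * (Real.log 6 / 4) / 2 -
    A0 * (cB / 4) / 2 := ⟨_, rfl⟩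
  have hκ₀ : 0 < κ₀ := hκdef ▸ fin_kappa hA0 h1
  obtain ⟨ε, hεdef⟩ : ∃ ε : ℝ, ε = κ₀ / 4 := ⟨_, rfl⟩
  have hε : 0 < ε := by rw [hεdef]; positivity
  obtain ⟨ρa, hρa, hSA⟩ := hSA η hη ε hε
  obtain ⟨ρp, hρp, hSP⟩ := hSP η hη ε hε
  obtain ⟨ρ, hρ, hρ1, hρ2, hρ3⟩ : ∃ ρ : ℝ, 0 < ρ ∧ ρ ≤ ρa ∧ ρ ≤ ρp ∧ ρ ≤ 1 / 15 :=
    ⟨min (min ρa ρp) (1 / 15), lt_min (lt_min hρa hρp) (by norm_num),
      (min_le_left _ _).trans (min_le_left _ _), (min_le_left _ _).trans (min_le_right _ _),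
      min_le_right _ _⟩
  refine ⟨ρ, hρ, fun κ hκ => ?_⟩
  obtain ⟨δa, hδa, hSA⟩ := hSA κ hκ
  obtain ⟨δp, hδp, hSP⟩ := hSP κ hκ
  obtain ⟨δb, hδb, hSB⟩ := hSB η hη ε κ hε hκ
  obtain ⟨δ, hδ, hδ1, hδ2, hδ3, hδ4⟩ : ∃ δ : ℝ, 0 < δ ∧ δ ≤ δa ∧ δ ≤ δp ∧ δ ≤ δb ∧
      δ ≤ 1 / 20 := ⟨min (min δa δp) (min δb (1 / 20)),
    lt_min (lt_min hδa hδp) (lt_min hδb (by norm_num)),
    (min_le_left _ _).trans (min_le_left _ _), (min_le_left _ _).trans (min_le_right _ _),
    (min_le_right _ _).trans (min_le_left _ _), (min_le_right _ _).trans (min_le_right _ _)⟩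
  obtain ⟨c, k, hc, hVL⟩ := h3
  refine ⟨⌈2 / δ⌉₊, k + 3, ?_⟩
  filter_upwards [hSA δ hδ hδ1, hSP δ hδ hδ2, hSB δ hδ hδ3,
    fin_log_pow 100 0 (show (0 : ℝ) < 1 / 10 by norm_num),
    fin_log_pow 64 0 (show (0 : ℝ) < 2 / 3 by norm_num),
    fin_log_pow 2 0 (show (0 : ℝ) < δ / 2 by linarith),
    fin_log_pow (144 / (κ₀ * c)) (k + 2) (show (0 : ℝ) < δ / 2 by linarith),
    (Real.tendsto_log_atTop.comp tendsto_natCast_atTop_atTop).eventually_gt_atTop
      (24 / (κ₀ * c)),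
    eventually_ge_atTop 100] with n hSA hSP hSB hE1 hE2 hE3 hE4 hE5 hn100 m N hT hmκ hmρ E hEc
  rw [pow_zero, mul_one] at hE1 hE2 hE3
  have hnr : (100 : ℝ) ≤ n := by exact_mod_cast hn100
  have hn0 : (0 : ℝ) < n := by linarith
  have hn1 : (1 : ℝ) ≤ n := by linarith
  have hmono : ∀ a b : ℝ, a ≤ b → (n : ℝ) ^ a ≤ (n : ℝ) ^ b := fun a b hab =>
    Real.rpow_le_rpow_of_exponent_le hn1 hab
  have hSA := hSA m N hT hmκ (hmρ.trans (hmono _ _ (by linarith)))
  have hSP := hSP m N hT hmκ (hmρ.trans (hmono _ _ (by linarith)))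
  have hm25 : (m : ℝ) ≤ (n : ℝ) ^ (2 / 5 : ℝ) := hmρ.trans (hmono _ _ (by linarith))
  have hSB := hSB m N hT hmκ hm25
  obtain ⟨hm, hmN, hmN1⟩ := id hT
  have hm1 : (1 : ℝ) ≤ m := by exact_mod_cast hm
  have hm0 : (0 : ℝ) < m := by linarith
  have hL1 : 1 ≤ Real.log n := by
    rw [Real.le_log_iff_exp_le hn0]
    have := Real.exp_one_lt_d9
    linarith
  have hL0 : 0 < Real.log n := by linarith
  -- size of N
  have hN2 : (n : ℝ) < m * ((N : ℝ) + 1) := by exact_mod_cast hmN1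
  have hsp : (n : ℝ) ^ (2 / 5 : ℝ) * (n : ℝ) ^ (3 / 5 : ℝ) = n := by
    rw [← Real.rpow_add hn0]
    norm_num
  have hN3 : (n : ℝ) ^ (3 / 5 : ℝ) < (N : ℝ) + 1 := by
    have h6 : (n : ℝ) ^ (2 / 5 : ℝ) * (n : ℝ) ^ (3 / 5 : ℝ) <
        (n : ℝ) ^ (2 / 5 : ℝ) * ((N : ℝ) + 1) := by
      rw [hsp]
      exact hN2.trans_le (mul_le_mul_of_nonneg_right hm25 (by positivity))
    exact lt_of_mul_lt_mul_left h6 (Real.rpow_nonneg hn0.le _)
  have hsp2 : (n : ℝ) ^ (1 / 2 : ℝ) * (n : ℝ) ^ (1 / 10 : ℝ) = (n : ℝ) ^ (3 / 5 : ℝ) := by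
    rw [← Real.rpow_add hn0]
    norm_num
  have hhalf1 : 1 ≤ (n : ℝ) ^ (1 / 2 : ℝ) := Real.one_le_rpow hn1 (by norm_num)
  have hNge : (n : ℝ) ^ (1 / 2 : ℝ) ≤ N := by
    have h6 : (n : ℝ) ^ (1 / 2 : ℝ) * 100 ≤ (n : ℝ) ^ (1 / 2 : ℝ) * (n : ℝ) ^ (1 / 10 : ℝ) :=
      mul_le_mul_of_nonneg_left hE1.le (by linarith)
    linarith
  have hN100r : (100 : ℝ) ≤ N := by
    have h6 : (n : ℝ) ^ (1 / 10 : ℝ) ≤ (n : ℝ) ^ (1 / 2 : ℝ) := hmono _ _ (by norm_num)
    linarith
  have hN100 : 100 ≤ N := by exact_mod_cast hN100r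
  have hN0 : (0 : ℝ) < N := by linarith
  have hN1 : (1 : ℝ) < N := by linarith
  have hmNn : (m : ℝ) * N ≤ n := by exact_mod_cast hmN
  have hNn : (N : ℝ) ≤ n := (le_mul_of_one_le_left hN0.le hm1).trans hmNn
  have hmmN : (m : ℝ) ≤ m * N := le_mul_of_one_le_right hm0.le hN1.le
  have hmn : (m : ℝ) ≤ n := hmmN.trans hmNn
  have hn2 : (n : ℝ) ≤ 2 * (m * N) := by
    rw [mul_add, mul_one] at hN2
    linarith
  -- the parameters
  have hTδ : (n : ℝ) ^ (δ / 2) ≤ (N : ℝ) ^ δ := by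
    have h7 : (n : ℝ) ^ (δ / 2) = ((n : ℝ) ^ (1 / 2 : ℝ)) ^ δ := by
      rw [← Real.rpow_mul hn0.le]
      congr 1
      ring
    rw [h7]
    exact Real.rpow_le_rpow (Real.rpow_nonneg hn0.le _) hNge hδ.le
  have hwlt : (N : ℝ) ^ δ < (wN δ N : ℝ) + 1 := Nat.lt_floor_add_one _
  have hw2 : (n : ℝ) ^ (δ / 2) ≤ 2 * (wN δ N : ℝ) := by
    have h6 : (2 : ℕ) ≤ wN δ N := by
      unfold wN
      apply Nat.le_floor
      push_cast
      linarith
    have h7 : (2 : ℝ) ≤ (wN δ N : ℝ) := by exact_mod_cast h6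
    linarith
  have hwz : wN δ N ≤ zN N := by
    unfold wN zN
    exact Nat.floor_le_floor (Real.rpow_le_rpow_of_exponent_le hN1.le (by linarith))
  have hw1 : 2 ≤ wN δ N := by
    unfold wN
    apply Nat.le_floor
    push_cast
    linarith
  have hz2 : (n : ℝ) ^ (δ / 2) ≤ 2 * (zN N : ℝ) := by
    have h6 : (wN δ N : ℝ) ≤ zN N := by exact_mod_cast hwz
    linarith
  have hyge : (N : ℝ) ^ (1 / 3 : ℝ) ≤ yN N := Nat.le_ceil _
  have hy3 : N ≤ yN N ^ 3 := by
    have h5 : ((N : ℝ) ^ (1 / 3 : ℝ)) ^ 3 = N := by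
      rw [← Real.rpow_natCast, ← Real.rpow_mul hN0.le]
      norm_num
    have h6 : ((N : ℝ) ^ (1 / 3 : ℝ)) ^ 3 ≤ (yN N : ℝ) ^ 3 :=
      pow_le_pow_left₀ (Real.rpow_nonneg hN0.le _) hyge 3
    rw [h5] at h6
    exact_mod_cast h6
  have hyy : 16 * (y3 n + 1) ≤ m * N := by
    have h5 : (y3 n : ℝ) ≤ (n : ℝ) ^ (1 / 3 : ℝ) := Nat.floor_le (Real.rpow_nonneg hn0.le _)
    have h6 : (n : ℝ) ^ (1 / 3 : ℝ) * (n : ℝ) ^ (2 / 3 : ℝ) = n := by
      rw [← Real.rpow_add hn0]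
      norm_num
    have h7 : 1 ≤ (n : ℝ) ^ (1 / 3 : ℝ) := Real.one_le_rpow hn1 (by norm_num)
    have h8 : (16 : ℝ) * (y3 n + 1) ≤ m * N := by
      have h9 : (n : ℝ) ^ (1 / 3 : ℝ) * 64 ≤ (n : ℝ) ^ (1 / 3 : ℝ) * (n : ℝ) ^ (2 / 3 : ℝ) :=
        mul_le_mul_of_nonneg_left hE2.le (by linarith)
      linarith
    exact_mod_cast h8
  -- the unit
  have hI := fin_int hη
  have hzN2 : 2 ≤ zN N := hw1.trans hwz
  have hzN : (zN N : ℝ) ≤ n := by
    have h5 : (zN N : ℝ) ≤ (N : ℝ) ^ (1 / 8 : ℝ) := Nat.floor_le (Real.rpow_nonneg hN0.le _)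
    have h6 : (N : ℝ) ^ (1 / 8 : ℝ) ≤ (N : ℝ) ^ (1 : ℝ) :=
      Real.rpow_le_rpow_of_exponent_le hN1.le (by norm_num)
    rw [Real.rpow_one] at h6
    linarith
  have hV : c / Real.log n ^ k ≤ VV (gT (wN δ N)) (zN N) := by
    refine le_trans ?_ (hVL (zN N) (gT (wN δ N)) hzN2 ?_)
    · have h5 : 0 < Real.log (zN N) := Real.log_pos (by exact_mod_cast hzN2)
      have h7 : Real.log (zN N) ≤ Real.log n :=
        Real.log_le_log (by exact_mod_cast (by omega : 0 < zN N)) hzN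
      exact div_le_div_of_nonneg_left hc.le (pow_pos h5 k) (pow_le_pow_left₀ h5.le h7 k)
    · intro l hl
      obtain ⟨-, h5, h6, h7, -⟩ := h4.1 (wN δ N) l hl
      exact ⟨h5, h6, h7⟩
  have hcl : 0 ≤ c / Real.log n ^ k := by positivity
  have hUm : (1 / 2) * (m * N) * (c / Real.log n ^ k) ≤ UT η δ N m (zN N) := by
    unfold UT
    apply mul_le_mul _ hV hcl (by positivity)
    exact mul_le_mul_of_nonneg_right hI (by positivity)
  have hUU := zf_UZ h4 hη δ N m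
  -- conclusion
  have hgood : ∃ q r : ℕ, 2 ≤ q ∧ q ≤ N ∧ r < m ∧ (n - m * q - r).Prime ∧
      n - m * q - r ∉ E ∧ Nat.IsAtMostAlmostPrime 2 q ∧ Nat.IsAtMostAlmostPrime ⌈2 / δ⌉₊ (q ^ 2 - 2) := by
    by_contra hcon
    push Not at hcon
    have hno := zfe_good E (m := m) (n := n) h2 hη hN100 hwz hy3 hδ hwlt.le hN1 hcon
    have hmain := zfe_ineq E hη hm hmN (by omega : 1 ≤ wN δ N) hwz (by omega) hyy hno
    have hkey := zf_alg hA0 hκdef zf_cB hε hεdef hL0 hUU hSA hSP hSB hmain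
    -- numbers
    obtain ⟨T, hTdef⟩ : ∃ T : ℝ, T = (n : ℝ) ^ (δ / 2) := ⟨_, rfl⟩
    obtain ⟨L, hLdef⟩ : ∃ L : ℝ, L = Real.log n := ⟨_, rfl⟩
    rw [← hTdef] at hE4 hw2 hz2 hE3
    simp only [Function.comp_apply] at hE5
    rw [← hLdef] at hkey hE4 hE5 hL1 hL0 hUm hEc
    have hT0 : 0 < T := by linarith
    have hM : (m.primeFactors.card : ℝ) ≤ 2 * L := by
      refine (zf_omega hm).trans ?_
      rw [hLdef]
      have := Real.log_le_log hm0 hmn
      linarith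
    have hX0 : 0 < (m : ℝ) * N := by positivity
    have hNz : (N : ℝ) / zN N ≤ 2 * N / T := by
      rw [div_le_div_iff₀ (by linarith) hT0]
      have h6 := mul_le_mul_of_nonneg_left hz2 hN0.le
      have h7 : (N : ℝ) * (2 * (zN N : ℝ)) = 2 * N * (zN N : ℝ) := by ring
      linarith
    have hNw : (N : ℝ) / wN δ N ≤ 2 * N / T := by
      rw [div_le_div_iff₀ (by linarith) hT0]
      have h6 := mul_le_mul_of_nonneg_left hw2 hN0.le
      have h7 : (N : ℝ) * (2 * (wN δ N : ℝ)) = 2 * N * (wN δ N : ℝ) := by ring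
      linarith
    have hsn : Real.sqrt n ≤ n / T := by
      rw [le_div_iff₀ hT0]
      have h6 : T ≤ Real.sqrt n := by
        rw [Real.sqrt_eq_rpow, hTdef]
        exact hmono _ _ (by linarith)
      calc Real.sqrt n * T ≤ Real.sqrt n * Real.sqrt n :=
            mul_le_mul_of_nonneg_left h6 (Real.sqrt_nonneg _)
        _ = n := Real.mul_self_sqrt hn0.le
    have hb1 : (m : ℝ) * ((N : ℝ) / zN N + (m.primeFactors.card : ℝ) * ((N : ℝ) / wN δ N)) ≤
        6 * L * (m * N) / T := by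
      have h6 : (m.primeFactors.card : ℝ) * ((N : ℝ) / wN δ N) ≤ 2 * L * (2 * N / T) :=
        mul_le_mul hM hNw (by positivity) (by positivity)
      have h7 : (N : ℝ) / zN N + (m.primeFactors.card : ℝ) * ((N : ℝ) / wN δ N) ≤
          2 * N / T + 2 * L * (2 * N / T) := add_le_add hNz h6
      have h8 : 2 * N / T + 2 * L * (2 * N / T) ≤ 6 * L * N / T := by
        have h9 : 2 * N / T + 2 * L * (2 * N / T) = (2 * N + 4 * L * N) / T := by
          field_simp
          ring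
        rw [h9]
        apply div_le_div_of_nonneg_right _ hT0.le
        have h10 : 1 * (N : ℝ) ≤ L * N := mul_le_mul_of_nonneg_right hL1 hN0.le
        have h11 : 4 * L * (N : ℝ) = 4 * (L * N) := by ring
        have h12 : 6 * L * (N : ℝ) = 6 * (L * N) := by ring
        linarith
      calc (m : ℝ) * ((N : ℝ) / zN N + (m.primeFactors.card : ℝ) * ((N : ℝ) / wN δ N))
          ≤ m * (6 * L * N / T) := mul_le_mul_of_nonneg_left (h7.trans h8) hm0.le
        _ = 6 * L * (m * N) / T := by ring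
    have hb2 : 3 * (Real.sqrt n * L) ≤ 6 * L * (m * N) / T := by
      have h6 : Real.sqrt n ≤ 2 * (m * N) / T :=
        hsn.trans (div_le_div_of_nonneg_right hn2 hT0.le)
      calc 3 * (Real.sqrt n * L) ≤ 3 * (2 * (m * N) / T * L) := by
            have := mul_le_mul_of_nonneg_right h6 hL0.le
            linarith
        _ = 6 * L * (m * N) / T := by ring
    -- the forbidden primes
    have hbE : (E.card : ℝ) ≤ (m * N) * (2 / L ^ (k + 3)) := by
      refine hEc.trans ?_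
      rw [← mul_div_assoc]
      apply div_le_div_of_nonneg_right _ (by positivity)
      linarith
    have hb3 : κ₀ / 2 * ((1 / 2) * (m * N) * (c / L ^ k)) ≤
        (3 / 2) * (L * (12 * L * (m * N) / T)) + (3 / 2) * (L * ((m * N) * (2 / L ^ (k + 3)))) := by
      have h6 : κ₀ / 2 * ((1 / 2) * (m * N) * (c / L ^ k)) ≤ κ₀ / 2 * UZ η δ N m :=
        mul_le_mul_of_nonneg_left (hUm.trans hUU) (by positivity)
      refine h6.trans (hkey.trans ?_)
      have h7 : 12 * L * (m * N) / T = 6 * L * (m * N) / T + 6 * L * (m * N) / T := by ring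
      rw [h7]
      have h8 := mul_le_mul_of_nonneg_left (add_le_add hb1 hb2) hL0.le
      have h9 := mul_le_mul_of_nonneg_left hbE hL0.le
      have e0 : ∀ a b d : ℝ, L * (a + (b + d)) = L * (a + b) + L * d := fun a b d => by ring
      rw [e0]
      linarith
    have hb4 : κ₀ * c / (4 * L ^ k) ≤ 18 * L ^ 2 / T + 3 / L ^ (k + 2) := by
      have e1 : κ₀ / 2 * ((1 / 2) * (m * N) * (c / L ^ k)) = (m * N) * (κ₀ * c / (4 * L ^ k)) := by
        field_simp
        ring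
      have e2 : (3 / 2) * (L * (12 * L * (m * N) / T)) = (m * N) * (18 * L ^ 2 / T) := by
        field_simp
        ring
      have e3 : (3 / 2) * (L * ((m * N) * (2 / L ^ (k + 3)))) = (m * N) * (3 / L ^ (k + 2)) := by
        rw [pow_succ L (k + 2)]
        field_simp
      rw [e1, e2, e3, ← mul_add] at hb3
      exact le_of_mul_le_mul_left hb3 hX0
    have hb5 : 18 * L ^ 2 / T < κ₀ * c / (8 * L ^ k) := by
      rw [div_mul_eq_mul_div, div_lt_iff₀ (by positivity)] at hE4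
      rw [div_lt_div_iff₀ hT0 (by positivity)]
      calc 18 * L ^ 2 * (8 * L ^ k) = 144 * L ^ (k + 2) := by ring
        _ < T * (κ₀ * c) := hE4
        _ = κ₀ * c * T := by ring
    have hb6 : 3 / L ^ (k + 2) < κ₀ * c / (8 * L ^ k) := by
      rw [div_lt_iff₀ (by positivity)] at hE5
      rw [div_lt_div_iff₀ (by positivity) (by positivity)]
      have h6 : 24 < L ^ 2 * (κ₀ * c) := by
        have h7 : L * (κ₀ * c) ≤ L ^ 2 * (κ₀ * c) := by
          apply mul_le_mul_of_nonneg_right _ (by positivity)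
          calc L = L * 1 := (mul_one L).symm
            _ ≤ L * L := mul_le_mul_of_nonneg_left hL1 hL0.le
            _ = L ^ 2 := (sq L).symm
        linarith
      calc 3 * (8 * L ^ k) = 24 * L ^ k := by ring
        _ < L ^ 2 * (κ₀ * c) * L ^ k := mul_lt_mul_of_pos_right h6 (by positivity)
        _ = κ₀ * c * L ^ (k + 2) := by ring
    have e4 : κ₀ * c / (4 * L ^ k) = κ₀ * c / (8 * L ^ k) + κ₀ * c / (8 * L ^ k) := by
      field_simp
      ring
    linarith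
  obtain ⟨q, r, hq2, hqN, hrm, hpr, hprE, hO2, hOR⟩ := hgood
  have hmq : m * q ≤ n := (Nat.mul_le_mul_left m hqN).trans hmN
  have hx1 := hpr.pos
  have hmq1 : 1 ≤ m * q := Nat.one_le_iff_ne_zero.2 (Nat.mul_ne_zero (by omega) (by omega))
  have hdiv : (n - (n - m * q - r)) / m = q := by
    have h6 : n - (n - m * q - r) = r + m * q := by omega
    rw [h6, Nat.add_mul_div_left _ _ (by omega), Nat.div_eq_of_lt hrm, zero_add]
  refine ⟨n - m * q - r, hprE, hpr, by omega, ?_, ?_, ?_⟩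
  · rw [hdiv]
    exact hq2
  · rw [hdiv]
    exact hO2
  · rw [hdiv]
    exact hOR

end Pool.Agent.CAE
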